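import Pool.Agent.FCR.Defs

/-!
MP_039b14_co, fixed corank, module B2: circuits with `k + 1` elements are removed and added.
-/

set_option autoImplicit false

namespace Pool.Agent.FCR

open Finset

variable {n : ℕ}

theorem cov_mono {k : ℕ} {F F' : Finset (Finset (Fin n))} (h : F ⊆ F') {T : Finset (Fin n)}
    (hT : Cov k F T) : Cov k F' T := by
  obtain ⟨D, hD, hT⟩ := hT
  exact ⟨D, h hD, hT⟩

theorem sub_mem {k t : ℕ} {F : Finset (Finset (Fin n))} (hF : F ∈ FF n k t)
    {Y : Finset (Fin n)} (hY : Y ∈ rmem k F) : F.erase Y ∈ FF n k t := by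
  classical
  simp only [FF, mem_filter, mem_univ, true_and] at hF ⊢
  obtain ⟨h1, h2, h3, h4, h5⟩ := hF
  have hY' := (mem_filter.1 hY).2
  refine ⟨fun D hD => h1 D (mem_of_mem_erase hD),
    fun D hD D' hD' => h2 D (mem_of_mem_erase hD) D' (mem_of_mem_erase hD'),
    fun D hD B hB => h3 D (mem_of_mem_erase hD) B (mem_of_mem_erase hB),
    fun B hB B' hB' => h4 B (mem_of_mem_erase hB) B' (mem_of_mem_erase hB'), ?_⟩
  rw [← h5]
  congr 1
  ext D
  simp only [mem_filter, mem_erase]
  constructor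
  · rintro ⟨⟨-, h⟩, h'⟩
    exact ⟨h, h'⟩
  · rintro ⟨h, h'⟩
    refine ⟨⟨?_, h⟩, h'⟩
    rintro rfl
    omega

theorem not_cov_erase {k t : ℕ} (hk : 2 ≤ k) {F : Finset (Finset (Fin n))} (hF : F ∈ FF n k t)
    {Y : Finset (Fin n)} (hY : Y ∈ rmem k F) {y : Fin n} (hy : y ∈ Y) :
    ¬ Cov k (F.erase Y) (Y.erase y) := by
  classical
  simp only [FF, mem_filter, mem_univ, true_and] at hF
  obtain ⟨h1, h2, h3, h4, h5⟩ := hF
  obtain ⟨hYF, hYc⟩ := mem_filter.1 hY
  rintro ⟨D, hD, hc⟩
  obtain ⟨hne, hDF⟩ := mem_erase.1 hD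
  rcases hc with ⟨hc, hs⟩ | ⟨hc, hs⟩
  · have h6 := h2 D hDF Y hYF hne hc (by omega)
    have h7 : D ∪ Y ⊆ Y ∪ (D \ Y.erase y) := by
      intro x hx
      rcases mem_union.1 hx with hx | hx
      · by_cases hxY : x ∈ Y
        · exact mem_union_left _ hxY
        · exact mem_union_right _ (mem_sdiff.2 ⟨hx, fun h => hxY (mem_of_mem_erase h)⟩)
      · exact mem_union_left _ hx
    have h8 := (card_le_card h7).trans (card_union_le _ _)
    omega
  · have h6 := h3 Y hYF D hDF (by omega) hc
    have h7 : Y \ D ⊆ {y} := by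
      intro x hx
      rw [mem_sdiff] at hx
      rw [mem_singleton]
      by_contra hxy
      exact hx.2 (hs (mem_erase.2 ⟨hxy, hx.1⟩))
    have h8 := card_le_card h7
    rw [card_singleton] at h8
    omega

theorem add_mem {k t : ℕ} (hk : 2 ≤ k) {F : Finset (Finset (Fin n))} (hF : F ∈ FF n k t)
    {R : Finset (Fin n)} (hR : R.card = k + 1) (h : ∀ a ∈ R, ¬ Cov k F (R.erase a)) :
    R ∉ F ∧ insert R F ∈ FF n k t := by
  classical
  simp only [FF, mem_filter, mem_univ, true_and] at hF ⊢
  obtain ⟨h1, h2, h3, h4, h5⟩ := hF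
  obtain ⟨a0, ha0⟩ : R.Nonempty := card_pos.1 (by omega)
  have hRF : R ∉ F := by
    intro hRF
    refine h a0 ha0 ⟨R, hRF, Or.inl ⟨by omega, ?_⟩⟩
    have h6 : R \ R.erase a0 ⊆ {a0} := by
      intro x hx
      rw [mem_sdiff, mem_erase] at hx
      rw [mem_singleton]
      by_contra hxy
      exact hx.2 ⟨hxy, hx.1⟩
    have h7 := card_le_card h6
    rwa [card_singleton] at h7
  -- circuits
  have hcirc : ∀ D ∈ F, D.card ≤ k + 1 → k + 3 ≤ (D ∪ R).card := by
    intro D hD hc
    by_contra hcon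
    have h6 := card_sdiff_add_card D R
    have h7 : (D \ R).card ≤ 1 := by omega
    obtain ⟨a, ha, hs⟩ : ∃ a ∈ R, (D \ R.erase a).card ≤ 1 := by
      by_cases hDR : D ⊆ R
      · refine ⟨a0, ha0, ?_⟩
        have h8 : D \ R.erase a0 ⊆ {a0} := by
          intro x hx
          rw [mem_sdiff, mem_erase] at hx
          rw [mem_singleton]
          by_contra hxy
          exact hx.2 ⟨hxy, hDR hx.1⟩
        have h9 := card_le_card h8
        rwa [card_singleton] at h9
      · have h8 : 0 < (D \ R).card := by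
          rw [card_pos, sdiff_nonempty]
          exact hDR
        obtain ⟨a, ha, haD⟩ : ∃ a ∈ R, a ∉ D := by
          by_contra hcon'
          push Not at hcon'
          have h9 := card_sdiff_add_card_inter D R
          have h10 : R ⊆ D ∩ R := fun x hx => mem_inter.2 ⟨hcon' x hx, hx⟩
          have h11 := card_le_card h10
          omega
        refine ⟨a, ha, (card_le_card ?_).trans h7⟩
        intro x hx
        rw [mem_sdiff, mem_erase] at hx
        rw [mem_sdiff]
        refine ⟨hx.1, fun hxR => hx.2 ⟨?_, hxR⟩⟩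
        rintro rfl
        exact haD hx.1
    exact h a ha ⟨D, hD, Or.inl ⟨hc, hs⟩⟩
  -- blocks
  have hblock : ∀ B ∈ F, B.card = k + 2 → 2 ≤ (R \ B).card := by
    intro B hB hc
    by_contra hcon
    obtain ⟨a, ha, hs⟩ : ∃ a ∈ R, R.erase a ⊆ B := by
      by_cases hRB : R ⊆ B
      · exact ⟨a0, ha0, (erase_subset _ _).trans hRB⟩
      · obtain ⟨a, ha⟩ : (R \ B).Nonempty := by
          rw [sdiff_nonempty]
          exact hRB
        rw [mem_sdiff] at ha
        refine ⟨a, ha.1, fun x hx => ?_⟩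
        rw [mem_erase] at hx
        by_contra hxB
        have h6 : ({a, x} : Finset (Fin n)) ⊆ R \ B := by
          intro y hy
          rw [mem_insert, mem_singleton] at hy
          rcases hy with rfl | rfl
          · exact mem_sdiff.2 ha
          · exact mem_sdiff.2 ⟨hx.2, hxB⟩
        have h7 := card_le_card h6
        rw [card_pair (Ne.symm hx.1)] at h7
        omega
    exact h a ha ⟨B, hB, Or.inr ⟨hc, hs⟩⟩
  refine ⟨hRF, fun D hD => ?_, fun D hD D' hD' hne hc hc' => ?_, fun D hD B hB hc hc' => ?_,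
    fun B hB B' hB' hne hc hc' => ?_, ?_⟩
  · rcases mem_insert.1 hD with rfl | hD
    · omega
    · exact h1 D hD
  · rcases mem_insert.1 hD with e | hD
    · rcases mem_insert.1 hD' with e' | hD'
      · exact absurd (e.trans e'.symm) hne
      · rw [e, union_comm]
        exact hcirc D' hD' hc'
    · rcases mem_insert.1 hD' with e' | hD'
      · rw [e']
        exact hcirc D hD hc
      · exact h2 D hD D' hD' hne hc hc'
  · rcases mem_insert.1 hB with rfl | hB
    · omega
    · rcases mem_insert.1 hD with e | hD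
      · rw [e]
        exact hblock B hB hc'
      · exact h3 D hD B hB hc hc'
  · rcases mem_insert.1 hB with rfl | hB
    · omega
    · rcases mem_insert.1 hB' with rfl | hB'
      · omega
      · exact h4 B hB B' hB' hne hc hc'
  · rw [← h5]
    congr 1
    ext D
    simp only [mem_filter, mem_insert]
    constructor
    · rintro ⟨hD | hD, h'⟩
      · rw [hD] at h'
        omega
      · exact ⟨hD, h'⟩
    · rintro ⟨hD, h'⟩
      exact ⟨Or.inr hD, h'⟩

theorem cf_disj {k t : ℕ} {F : Finset (Finset (Fin n))} (hF : F ∈ FF n k t)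
    {Y : Finset (Fin n)} (hY : Y ∈ rmem k F) {y : Fin n} (hy : y ∈ Y) :
    Disjoint (CF k F (Y.erase y)) Y := by
  classical
  simp only [FF, mem_filter, mem_univ, true_and] at hF
  obtain ⟨hYF, hYc⟩ := mem_filter.1 hY
  have h2 := (hF.1 Y hYF).1
  rw [disjoint_left]
  intro s hs hsY
  simp only [CF, mem_filter, mem_univ, true_and] at hs
  obtain ⟨hs1, hs2⟩ := hs
  have hsy : s = y := by
    by_contra hne
    exact hs1 (mem_erase.2 ⟨hne, hsY⟩)
  subst hsy
  obtain ⟨a, ha⟩ : (Y.erase s).Nonempty := by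
    rw [← card_pos, card_erase_of_mem hy]
    omega
  refine hs2 a ha ⟨Y, hYF, Or.inl ⟨by omega, ?_⟩⟩
  have h6 : Y \ insert s ((Y.erase s).erase a) ⊆ {a} := by
    intro x hx
    simp only [mem_sdiff, mem_insert, mem_erase, not_or, not_and] at hx
    rw [mem_singleton]
    by_contra hxa
    exact hx.2.2 hxa hx.2.1 hx.1
  have h7 := card_le_card h6
  rwa [card_singleton] at h7

end Pool.Agent.FCR
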