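import Pool.Agent.FCR.Defs

/-!
MP_039b14_co, fixed corank, module E2: double counting.
-/

set_option autoImplicit false

namespace Pool.Agent.FCR

open Finset

variable {n : ℕ}

private theorem card_over (n k : ℕ) {T : Finset (Fin n)} (hT : T.card = k) :
    ((sets n (k + 2)).filter (fun Z => T ⊆ Z)).card = (n - k).choose 2 := by
  classical
  have h1 : (Tᶜ).card = n - k := by rw [card_compl, Fintype.card_fin, hT]
  rw [← h1, ← card_powersetCard]
  refine card_bij' (fun Z _ => Z \ T) (fun S _ => T ∪ S) ?_ ?_ ?_ ?_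
  · intro Z hZ
    rw [mem_filter, sets, mem_powersetCard] at hZ
    rw [mem_powersetCard]
    refine ⟨fun x hx => ?_, ?_⟩
    · rw [mem_compl]; exact (mem_sdiff.1 hx).2
    · rw [card_sdiff_of_subset hZ.2, hZ.1.2, hT]; omega
  · intro S hS
    rw [mem_powersetCard] at hS
    have hd : Disjoint T S := by
      rw [disjoint_left]
      intro x hx hxS
      exact (mem_compl.1 (hS.1 hxS)) hx
    rw [mem_filter, sets, mem_powersetCard]
    exact ⟨⟨subset_univ _, by rw [card_union_of_disjoint hd, hT, hS.2]⟩, subset_union_left⟩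
  · intro Z hZ
    rw [mem_filter] at hZ
    exact union_sdiff_of_subset hZ.2
  · intro S hS
    rw [mem_powersetCard] at hS
    have hd : Disjoint T S := by
      rw [disjoint_left]
      intro x hx hxS
      exact (mem_compl.1 (hS.1 hxS)) hx
    exact union_sdiff_cancel_left hd

theorem dbl (n k : ℕ) (hk : 2 ≤ k) (w : Finset (Fin n) → ℝ) :
    ∑ Z ∈ sets n (k + 2), ∑ T ∈ Z.powersetCard k, w T =
      ((n - k).choose 2 : ℝ) * ∑ T ∈ sets n k, w T := by
  classical
  have h1 : ∑ Z ∈ sets n (k + 2), ∑ T ∈ Z.powersetCard k, w T =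
      ∑ T ∈ sets n k, ∑ Z ∈ (sets n (k + 2)).filter (fun Z => T ⊆ Z), w T := by
    refine Finset.sum_comm' fun Z T => ?_
    simp only [sets, mem_powersetCard, mem_filter, subset_univ, true_and]
    tauto
  rw [h1, mul_sum]
  refine sum_congr rfl fun T hT => ?_
  have hT' : T.card = k := by
    rw [sets, mem_powersetCard] at hT
    exact hT.2
  rw [sum_const, card_over n k hT', nsmul_eq_mul]

theorem choose_dbl (n k : ℕ) :
    (n - k).choose 2 * n.choose k = (k + 2).choose 2 * n.choose (k + 2) := by
  have h1 := Nat.choose_mul (n := n) (Nat.le_add_right k 2)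
  have h2 : k + 2 - k = 2 := by omega
  have h3 : (k + 2).choose k = (k + 2).choose 2 := by
    rw [← Nat.choose_symm (Nat.le_add_right k 2), h2]
  rw [h2, h3] at h1
  linarith

end Pool.Agent.FCR
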