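import Pool.Agent.H38Pav.Defs

/-!
MP_039b14_co, fixed corank: definitions.

The rank is `k + 1`. A family consists of circuits (members with at most `k + 1` elements) and
blocks (members with `k + 2` elements).
-/

set_option autoImplicit false

namespace Pool.Agent.FCR

open Finset

variable {n : ℕ}

/-- the families with exactly `t` blocks: the union of two circuits has at least `k + 3` elements,
a circuit has at least two elements off every block, two blocks have at most `k - 1` common
elements -/
def IsFam (k t : ℕ) (F : Finset (Finset (Fin n))) : Prop :=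
  (∀ D ∈ F, 2 ≤ D.card ∧ D.card ≤ k + 2) ∧
  (∀ D ∈ F, ∀ D' ∈ F, D ≠ D' → D.card ≤ k + 1 → D'.card ≤ k + 1 → k + 3 ≤ (D ∪ D').card) ∧
  (∀ D ∈ F, ∀ B ∈ F, D.card ≤ k + 1 → B.card = k + 2 → 2 ≤ (D \ B).card) ∧
  (∀ B ∈ F, ∀ B' ∈ F, B ≠ B' → B.card = k + 2 → B'.card = k + 2 → (B ∩ B').card + 1 ≤ k) ∧
  (F.filter (fun D => D.card = k + 2)).card = t

open Classical in
/-- all families with exactly `t` blocks -/
noncomputable def FF (n k t : ℕ) : Finset (Finset (Finset (Fin n))) := univ.filter (IsFam k t)

/-- the `k`-set `T` is covered: it contains a circuit up to one element or lies in a block -/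
def Cov (k : ℕ) (F : Finset (Finset (Fin n))) (T : Finset (Fin n)) : Prop :=
  ∃ D ∈ F, (D.card ≤ k + 1 ∧ (D \ T).card ≤ 1) ∨ (D.card = k + 2 ∧ T ⊆ D)

open Classical in
/-- the elements `s` off `T` such that no `T - a + s`, `a ∈ T`, is covered -/
noncomputable def CF (k : ℕ) (F : Finset (Finset (Fin n))) (T : Finset (Fin n)) :
    Finset (Fin n) :=
  univ.filter (fun s => s ∉ T ∧ ∀ a ∈ T, ¬ Cov k F (insert s (T.erase a)))

/-- the sets with `j` elements -/
def sets (n j : ℕ) : Finset (Finset (Fin n)) := univ.powersetCard j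

/-- the members with `k + 1` elements -/
def rmem (k : ℕ) (F : Finset (Finset (Fin n))) : Finset (Finset (Fin n)) :=
  F.filter (fun D => D.card = k + 1)

/-- `Z` can be switched -/
def Good (k : ℕ) (F : Finset (Finset (Fin n))) (Z : Finset (Fin n)) : Prop :=
  Z.card = k + 2 ∧ ∀ D ∈ F, (D.card ≤ k → 2 ≤ (D \ Z).card) ∧
    (D.card = k + 2 → (D ∩ Z).card + 1 ≤ k)

/-- the switch: the circuits with `k + 1` elements which meet `Z` in at least `k` elements are
removed, `Z` is added -/
def sw (k : ℕ) (F : Finset (Finset (Fin n))) (Z : Finset (Fin n)) : Finset (Finset (Fin n)) :=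
  insert Z (F.filter (fun D => ¬ (D.card = k + 1 ∧ k ≤ (D ∩ Z).card)))

/-- the constant of the fibres -/
def KK (k : ℕ) : ℕ := (k + 2) ^ 2 + 3

/-- the members with `k + 1` elements over `T` -/
def memT (k : ℕ) (T : Finset (Fin n)) (F : Finset (Finset (Fin n))) : Finset (Finset (Fin n)) :=
  F.filter (fun D => D.card = k + 1 ∧ T ⊆ D)

open Classical in
/-- the families which the switch at `Z` sends to the same family as `F` -/
noncomputable def fib (k t : ℕ) (F : Finset (Finset (Fin n))) (Z : Finset (Fin n)) :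
    Finset (Finset (Finset (Fin n))) :=
  (FF n k t).filter (fun F' => Good k F' Z ∧ sw k F' Z = sw k F Z)

open Classical in
/-- the injective choices for `Y` -/
noncomputable def choices (Y : Finset (Fin n)) (A : Fin n → Finset (Fin n)) :
    Finset (Fin n → Fin n) :=
  univ.filter (fun φ => (∀ y ∈ Y, φ y = y ∨ φ y ∈ A y) ∧ (∀ y, y ∉ Y → φ y = y) ∧
    Set.InjOn φ (Y : Set (Fin n)))

/-- the move: `Y` is replaced by the sets `Y - y + φ y` with `φ y ≠ y` -/
def mv (F : Finset (Finset (Fin n))) (Y : Finset (Fin n)) (φ : Fin n → Fin n) :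
    Finset (Finset (Fin n)) :=
  F.erase Y ∪ (Y.filter (fun y => φ y ≠ y)).image (fun y => insert (φ y) (Y.erase y))

open Classical in
/-- the `j`-sets which contain a member with at most `k` elements up to one element -/
noncomputable def near (k j : ℕ) (F : Finset (Finset (Fin n))) : Finset (Finset (Fin n)) :=
  (sets n j).filter (fun S => ∃ D ∈ F, D.card ≤ k ∧ (D \ S).card ≤ 1)

open Classical in
/-- the `k`-sets which are covered, but not by a circuit with `k + 1` elements -/
noncomputable def rest (k : ℕ) (F : Finset (Finset (Fin n))) : Finset (Finset (Fin n)) :=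
  (sets n k).filter (fun T => T ∈ near k k F ∨ ∃ B ∈ F, B.card = k + 2 ∧ T ⊆ B)

/-- the weight of a `k`-set -/
noncomputable def lw (k : ℕ) (F : Finset (Finset (Fin n))) (T : Finset (Fin n)) : ℝ :=
  Real.log (((CF k F T).card : ℝ) + KK k)

/-- `X` (with `k + 1` elements) contains no circuit and lies in no block -/
def BB (k : ℕ) (F : Finset (Finset (Fin n))) (X : Finset (Fin n)) : Prop :=
  X.card = k + 1 ∧ ∀ D ∈ F, (D.card ≤ k + 1 → ¬ D ⊆ X) ∧ (D.card = k + 2 → ¬ X ⊆ D)

end Pool.Agent.FCR
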