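import Pool.Agent.FCR.Defs

/-!
MP_039b14_co, fixed corank: the sets `BB` are the bases of a matroid.
-/

set_option autoImplicit false

namespace Pool.Agent.FCR

open Finset

variable {n : ℕ}

namespace Exch5

theorem isFam {k t : ℕ} {F : Finset (Finset (Fin n))} (hF : F ∈ FF n k t) : IsFam k t F := by
  classical
  exact (Finset.mem_filter.1 hF).2

theorem bad {k : ℕ} {F : Finset (Finset (Fin n))} {X : Finset (Fin n)} (hX : X.card = k + 1)
    (h : ¬ BB k F X) : ∃ D ∈ F, (D.card ≤ k + 1 ∧ D ⊆ X) ∨ (D.card = k + 2 ∧ X ⊆ D) := by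
  unfold BB at h
  push Not at h
  obtain ⟨D, hD, h2⟩ := h hX
  refine ⟨D, hD, ?_⟩
  by_cases h3 : D.card ≤ k + 1 ∧ D ⊆ X
  · exact Or.inl h3
  · exact Or.inr (h2 (fun h4 h5 => h3 ⟨h4, h5⟩))

theorem sdiff_le_one {D B S : Finset (Fin n)} {y : Fin n} (h1 : D ⊆ insert y S) (h2 : S ⊆ B) :
    (D \ B).card ≤ 1 := by
  have h3 : D \ B ⊆ {y} := by
    intro x hx
    have hx' := Finset.mem_sdiff.1 hx
    rcases Finset.mem_insert.1 (h1 hx'.1) with h | h
    · rw [h]; exact Finset.mem_singleton_self _
    · exact absurd (h2 h) hx'.2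
  have h4 := Finset.card_le_card h3
  rwa [Finset.card_singleton] at h4

end Exch5

open Exch5

theorem bb_exch {k t : ℕ} {F : Finset (Finset (Fin n))} (hF : F ∈ FF n k t)
    {X Y : Finset (Fin n)} (hX : BB k F X) (hY : BB k F Y) {x : Fin n} (hx : x ∈ X \ Y) :
    ∃ y ∈ Y \ X, BB k F (insert y (X.erase x)) := by
  obtain ⟨-, hcc, hcb, hbb, -⟩ := isFam hF
  have hxX := (Finset.mem_sdiff.1 hx).1
  have hxY := (Finset.mem_sdiff.1 hx).2
  have hSc : (X.erase x).card = k := by
    rw [Finset.card_erase_of_mem hxX, hX.1]; rfl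
  by_contra hcon
  push Not at hcon
  have hnot : ∀ y ∈ Y \ X, y ∉ X.erase x := fun y hy h =>
    (Finset.mem_sdiff.1 hy).2 (Finset.mem_of_mem_erase h)
  have hbad : ∀ y ∈ Y \ X, ∃ D ∈ F, (D.card ≤ k + 1 ∧ D ⊆ insert y (X.erase x)) ∨
      (D.card = k + 2 ∧ insert y (X.erase x) ⊆ D) := fun y hy =>
    bad (by rw [Finset.card_insert_of_notMem (hnot y hy), hSc]) (hcon y hy)
  have hcard : (Y \ X).card = (X \ Y).card := by
    have h1 := Finset.card_sdiff_add_card_inter Y X
    have h2 := Finset.card_sdiff_add_card_inter X Y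
    rw [Finset.inter_comm] at h2
    have h3 := hX.1
    have h4 := hY.1
    omega
  obtain ⟨y0, hy0⟩ : (Y \ X).Nonempty := by
    apply Finset.card_pos.1
    rw [hcard]
    exact Finset.card_pos.2 ⟨x, hx⟩
  obtain ⟨D0, hD0, h0 | h0⟩ := hbad y0 hy0
  · -- circuit
    have hyD : y0 ∈ D0 := by
      by_contra h
      apply ((hX.2 D0 hD0).1 h0.1)
      intro z hz
      rcases Finset.mem_insert.1 (h0.2 hz) with h1 | h1
      · rw [h1] at hz; exact absurd hz h
      · exact Finset.mem_of_mem_erase h1
    have huniq : ∀ y ∈ Y \ X, y = y0 := by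
      intro y hy
      by_contra hne
      obtain ⟨D, hD, h1 | h1⟩ := hbad y hy
      · have hne' : D ≠ D0 := by
          rintro rfl
          rcases Finset.mem_insert.1 (h1.2 hyD) with h2 | h2
          · exact hne h2.symm
          · exact hnot y0 hy0 h2
        have h2 := hcc D hD D0 hD0 hne' h1.1 h0.1
        have h3 : D ∪ D0 ⊆ insert y (insert y0 (X.erase x)) := by
          apply Finset.union_subset
          · exact h1.2.trans (Finset.insert_subset_insert _ (Finset.subset_insert _ _))
          · exact h0.2.trans (Finset.subset_insert _ _)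
        have h4 := Finset.card_le_card h3
        have h5 := Finset.card_insert_le y (insert y0 (X.erase x))
        have h6 := Finset.card_insert_le y0 (X.erase x)
        omega
      · have h2 := hcb D0 hD0 D hD h0.1 h1.1
        have h3 := sdiff_le_one h0.2 ((Finset.subset_insert y _).trans h1.2)
        omega
    have h1 : (X \ Y).card = 1 := by
      rw [← hcard, Finset.card_eq_one]
      refine ⟨y0, ?_⟩
      ext y
      rw [Finset.mem_singleton]
      exact ⟨fun h => huniq y h, fun h => by rw [h]; exact hy0⟩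
    obtain ⟨z, hz⟩ := Finset.card_eq_one.1 h1
    have hxz : x = z := by
      have := hx
      rw [hz, Finset.mem_singleton] at this
      exact this
    apply ((hY.2 D0 hD0).1 h0.1)
    intro w hw
    rcases Finset.mem_insert.1 (h0.2 hw) with h2 | h2
    · rw [h2]; exact (Finset.mem_sdiff.1 hy0).1
    · by_contra hwY
      have h3 : w ∈ X \ Y := Finset.mem_sdiff.2 ⟨Finset.mem_of_mem_erase h2, hwY⟩
      rw [hz, Finset.mem_singleton, ← hxz] at h3
      exact (Finset.mem_erase.1 h2).1 h3
  · -- block
    have hSD : X.erase x ⊆ D0 := (Finset.subset_insert _ _).trans h0.2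
    apply ((hY.2 D0 hD0).2 h0.1)
    intro z hz
    by_cases hzX : z ∈ X
    · apply hSD
      refine Finset.mem_erase.2 ⟨?_, hzX⟩
      rintro rfl
      exact hxY hz
    · have hzm : z ∈ Y \ X := Finset.mem_sdiff.2 ⟨hz, hzX⟩
      obtain ⟨D, hD, h1 | h1⟩ := hbad z hzm
      · have h2 := hcb D hD D0 hD0 h1.1 h0.1
        have h3 := sdiff_le_one h1.2 hSD
        omega
      · by_cases hne : D = D0
        · rw [← hne]; exact h1.2 (Finset.mem_insert_self _ _)
        · have h2 := hbb D hD D0 hD0 hne h1.1 h0.1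
          have h3 : X.erase x ⊆ D ∩ D0 :=
            Finset.subset_inter ((Finset.subset_insert _ _).trans h1.2) hSD
          have h4 := Finset.card_le_card h3
          omega

theorem exists_bb {k t : ℕ} (hk : 2 ≤ k) (hn : k + 3 ≤ n) {F : Finset (Finset (Fin n))}
    (hF : F ∈ FF n k t) : ∃ X, BB k F X := by
  obtain ⟨hs, hcc, hcb, hbb, -⟩ := isFam hF
  by_cases hc : ∃ D ∈ F, D.card ≤ k + 1
  · obtain ⟨D, hD, hDc⟩ := hc
    obtain ⟨d, hd⟩ : D.Nonempty := Finset.card_pos.1 (by have := (hs D hD).1; omega)
    have h1 : D.erase d ⊆ univ.erase d := Finset.erase_subset_erase _ (Finset.subset_univ _)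
    obtain ⟨X, hX1, hX2, hX3⟩ := Finset.exists_subsuperset_card_eq (n := k + 1) h1 (by
      rw [Finset.card_erase_of_mem hd]; omega) (by
      rw [Finset.card_erase_of_mem (Finset.mem_univ d), Finset.card_univ, Fintype.card_fin]; omega)
    have hdX : d ∉ X := fun h => Finset.notMem_erase d univ (hX2 h)
    have hDX : D ⊆ insert d X := by
      intro z hz
      by_cases hzd : z = d
      · rw [hzd]; exact Finset.mem_insert_self _ _
      · exact Finset.mem_insert_of_mem (hX1 (Finset.mem_erase.2 ⟨hzd, hz⟩))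
    refine ⟨X, hX3, fun D' hD' => ⟨fun hc' hsub => ?_, fun hc' hsub => ?_⟩⟩
    · have hne : D ≠ D' := by
        rintro rfl
        exact hdX (hsub hd)
      have h2 := hcc D hD D' hD' hne hDc hc'
      have h3 : D ∪ D' ⊆ insert d X :=
        Finset.union_subset hDX (hsub.trans (Finset.subset_insert _ _))
      have h4 := Finset.card_le_card h3
      have h5 := Finset.card_insert_le d X
      omega
    · have h2 := hcb D hD D' hD' hDc hc'
      have h3 := sdiff_le_one hDX hsub
      omega
  · push Not at hc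
    by_cases hb : F.Nonempty
    · obtain ⟨B, hB⟩ := hb
      have hBc : B.card = k + 2 := by
        have h1 := hc B hB
        have h2 := (hs B hB).2
        omega
      obtain ⟨T, hTB, hTc⟩ := Finset.exists_subset_card_eq (show k ≤ B.card by omega)
      obtain ⟨z, hz⟩ : ∃ z, z ∉ B := by
        by_contra hcon
        push Not at hcon
        have : B = univ := Finset.eq_univ_iff_forall.2 hcon
        rw [this, Finset.card_univ, Fintype.card_fin] at hBc
        omega
      have hzT : z ∉ T := fun h => hz (hTB h)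
      refine ⟨insert z T, by rw [Finset.card_insert_of_notMem hzT, hTc], fun D hD => ⟨fun h1 _ => ?_,
        fun h1 h2 => ?_⟩⟩
      · have := hc D hD
        omega
      · have hne : B ≠ D := by
          rintro rfl
          exact hz (h2 (Finset.mem_insert_self _ _))
        have h3 := hbb B hB D hD hne hBc h1
        have h4 : T ⊆ B ∩ D := Finset.subset_inter hTB ((Finset.subset_insert _ _).trans h2)
        have h5 := Finset.card_le_card h4
        omega
    · obtain ⟨X, -, hX⟩ := Finset.exists_subset_card_eq (s := (univ : Finset (Fin n)))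
        (show k + 1 ≤ (univ : Finset (Fin n)).card by
          rw [Finset.card_univ, Fintype.card_fin]; omega)
      exact ⟨X, hX, fun D hD => absurd ⟨D, hD⟩ hb⟩

end Pool.Agent.FCR
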