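import Pool.Agent.FCR.Defs

/-!
# [FCR-Fib1] the fibres of the switch (helper52)

A family of the fibre at `Z` is determined by its members over the `k`-subsets of `Z`: the other members are those of the switched
family.
-/

set_option autoImplicit false

namespace Pool.Agent.FCR

open Finset H38Pav

variable {n : ℕ}

private theorem fib1_sub {k : ℕ} {F' F'' : Finset (Finset (Fin n))} {Z : Finset (Fin n)} (hG : Good k F' Z)
    (hs : sw k F' Z = sw k F'' Z) (h : ∀ T ∈ Z.powersetCard k, memT k T F' = memT k T F'') : F' ⊆ F'' := by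
  intro D hD
  by_cases hc : D.card = k + 1 ∧ k ≤ (D ∩ Z).card
  · obtain ⟨T, hT, hTc⟩ := Finset.exists_subset_card_eq hc.2
    have h1 : T ∈ Z.powersetCard k := by
      rw [Finset.mem_powersetCard]
      exact ⟨hT.trans Finset.inter_subset_right, hTc⟩
    have h2 : D ∈ memT k T F' := by
      unfold memT
      rw [Finset.mem_filter]
      exact ⟨hD, hc.1, hT.trans Finset.inter_subset_left⟩
    rw [h T h1] at h2
    unfold memT at h2
    exact (Finset.mem_filter.1 h2).1
  · have h1 : D ∈ sw k F' Z := by
      unfold sw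
      exact Finset.mem_insert_of_mem (Finset.mem_filter.2 ⟨hD, hc⟩)
    rw [hs] at h1
    unfold sw at h1
    rcases Finset.mem_insert.1 h1 with h2 | h2
    · exfalso
      subst h2
      have h3 := (hG.2 D hD).2 hG.1
      rw [Finset.inter_self, hG.1] at h3
      omega
    · exact (Finset.mem_filter.1 h2).1

private theorem fib1_mem {k t : ℕ} {F F' : Finset (Finset (Fin n))} {Z : Finset (Fin n)} :
    F' ∈ fib k t F Z ↔ F' ∈ FF n k t ∧ Good k F' Z ∧ sw k F' Z = sw k F Z := by
  classical
  simp only [fib, Finset.mem_filter]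

/-- A family of the fibre is determined by its members over the `k`-subsets of `Z`. -/
theorem fib_prod {k t : ℕ} (F : Finset (Finset (Fin n))) (Z : Finset (Fin n)) :
    (fib k t F Z).card ≤
      ∏ T ∈ Z.powersetCard k, ((fib k t F Z).image (memT k T)).card := by
  rw [← Finset.card_pi]
  refine Finset.card_le_card_of_injOn (fun F' T _ => memT k T F') ?_ ?_
  · intro F' hF'
    rw [Finset.mem_coe, Finset.mem_pi]
    intro T _
    exact Finset.mem_image_of_mem _ (Finset.mem_coe.1 hF')
  · intro F' hF' F'' hF'' h
    have e : ∀ T ∈ Z.powersetCard k, memT k T F' = memT k T F'' := fun T hT => congrFun (congrFun h T) hT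
    have h1 := fib1_mem.1 (Finset.mem_coe.1 hF')
    have h2 := fib1_mem.1 (Finset.mem_coe.1 hF'')
    have hs : sw k F' Z = sw k F'' Z := h1.2.2.trans h2.2.2.symm
    exact Finset.Subset.antisymm (fib1_sub h1.2.1 hs e) (fib1_sub h2.2.1 hs.symm fun T hT => (e T hT).symm)

end Pool.Agent.FCR
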