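import Pool.Agent.FCR.Defs

/-!
MP_039b14_co, fixed corank: the number of the traces over a `k`-set in a fibre of the switch.
-/

set_option autoImplicit false

namespace Pool.Agent.FCR

open Finset

variable {n : ℕ}

namespace FibTwo

/-- two circuits with `k + 1` elements over the same `k`-set are equal -/
theorem eq_of_over {k t : ℕ} {F : Finset (Finset (Fin n))} (hF : F ∈ FF n k t)
    {D D' T : Finset (Fin n)} (hD : D ∈ F) (hD' : D' ∈ F) (h1 : D.card = k + 1)
    (h2 : D'.card = k + 1) (hT : T.card = k) (h3 : T ⊆ D) (h4 : T ⊆ D') : D = D' := by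
  classical
  by_contra hne
  have hF' : IsFam k t F := by simpa [FF] using hF
  have h5 := hF'.2.1 D hD D' hD' hne (by omega) (by omega)
  have h6 : T.card ≤ (D ∩ D').card := card_le_card (subset_inter h3 h4)
  have h7 := card_union_add_card_inter D D'
  omega

theorem trace {k t : ℕ} {F F' : Finset (Finset (Fin n))}
    (hF' : F' ∈ FF n k t) {Z : Finset (Fin n)} (hZ : Good k F Z) (hs : sw k F' Z = sw k F Z)
    {T : Finset (Fin n)} (hT : T ⊆ Z) (hTc : T.card = k) {s : Fin n} (hsT : s ∉ T)
    (hsZ : s ∉ Z) (hY : insert s T ∈ F') (hsC : s ∉ CF k F T) :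
    ∃ D ∈ F, (D.card = k + 1 ∧ k ≤ (D ∩ Z).card) ∧ s ∈ D \ Z := by
  classical
  have hf' : IsFam k t F' := by simpa [FF] using hF'
  have hYc : (insert s T).card = k + 1 := by rw [card_insert_of_notMem hsT, hTc]
  -- members of `F` which are kept are in `F'`
  have keep : ∀ D ∈ F, D ≠ Z → ¬ (D.card = k + 1 ∧ k ≤ (D ∩ Z).card) → D ∈ F' := by
    intro D hD hDZ h
    have h1 : D ∈ sw k F Z := mem_insert_of_mem (mem_filter.2 ⟨hD, h⟩)
    rw [← hs] at h1
    rcases mem_insert.1 h1 with h2 | h2
    · exact absurd h2 hDZ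
    · exact (mem_filter.1 h2).1
  have h1 : ∃ a ∈ T, Cov k F (insert s (T.erase a)) := by
    by_contra h
    push Not at h
    exact hsC (by simp only [CF, mem_filter, mem_univ, true_and]; exact ⟨hsT, h⟩)
  obtain ⟨a, ha, D, hD, hc⟩ := h1
  have hsub : insert s (T.erase a) ⊆ insert s T := insert_subset_insert _ (erase_subset _ _)
  have hT'c : (insert s (T.erase a)).card = k := by
    rw [card_insert_of_notMem (fun h => hsT (mem_of_mem_erase h)), card_erase_of_mem ha, hTc]
    have : 0 < T.card := card_pos.2 ⟨a, ha⟩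
    omega
  rcases hc with ⟨h2, h3⟩ | ⟨h2, h3⟩
  · by_cases h4 : D.card = k + 1 ∧ k ≤ (D ∩ Z).card
    · refine ⟨D, hD, h4, mem_sdiff.2 ⟨?_, hsZ⟩⟩
      have h5 := card_sdiff_add_card_inter D (insert s (T.erase a))
      have h6 : (D ∩ insert s (T.erase a)).card = (insert s (T.erase a)).card := by
        have := card_le_card (inter_subset_right (s₁ := D) (s₂ := insert s (T.erase a)))
        omega
      have h7 := eq_of_subset_of_card_le (inter_subset_right (s₁ := D)
        (s₂ := insert s (T.erase a))) h6.ge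
      have h8 : s ∈ D ∩ insert s (T.erase a) := by
        rw [h7]
        exact mem_insert_self _ _
      exact (mem_inter.1 h8).1
    · exfalso
      have hDZ : D ≠ Z := by
        rintro rfl
        have := hZ.1
        omega
      have h5 := keep D hD hDZ h4
      by_cases h6 : D = insert s T
      · refine h4 ⟨by rw [h6, hYc], ?_⟩
        rw [← hTc]
        refine card_le_card (subset_inter ?_ hT)
        rw [h6]
        exact subset_insert _ _
      · have h7 := hf'.2.1 D h5 _ hY h6 h2 hYc.le
        have h8 : (D ∪ insert s T).card ≤ (D \ insert s T).card + (insert s T).card := by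
          rw [← sdiff_union_self_eq_union]
          exact card_union_le _ _
        have h9 : (D \ insert s T).card ≤ (D \ insert s (T.erase a)).card :=
          card_le_card (sdiff_subset_sdiff (Subset.refl _) hsub)
        omega
  · exfalso
    have hDZ : D ≠ Z := by
      rintro rfl
      have h4 := (hZ.2 D hD).2 h2
      rw [inter_self] at h4
      omega
    have h5 := keep D hD hDZ (by omega)
    have h6 := hf'.2.2.1 _ hY D h5 hYc.le h2
    have h7 : (insert s T \ D).card ≤ (insert s T \ insert s (T.erase a)).card :=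
      card_le_card (sdiff_subset_sdiff (Subset.refl _) h3)
    have h8 := card_sdiff_add_card_inter (insert s T) (insert s (T.erase a))
    rw [inter_eq_right.2 hsub] at h8
    omega

end FibTwo

open FibTwo in
theorem img_le {k t : ℕ} (hk : 2 ≤ k) {F : Finset (Finset (Fin n))} (hF : F ∈ FF n k t)
    {Z : Finset (Fin n)} (hZ : Good k F Z) {T : Finset (Fin n)} (hT : T ∈ Z.powersetCard k) :
    ((fib k t F Z).image (memT k T)).card ≤ (CF k F T).card + KK k := by
  classical
  obtain ⟨hTZ, hTc⟩ := mem_powersetCard.1 hT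
  set Ds := F.filter (fun D => D.card = k + 1 ∧ k ≤ (D ∩ Z).card) with hDs
  set S := CF k F T ∪ ((Z \ T) ∪ Ds.biUnion (fun D => D \ Z)) with hS
  have h1 : (fib k t F Z).image (memT k T) ⊆ insert ∅ (S.image (fun s => {insert s T})) := by
    intro X hX
    obtain ⟨F', hF', rfl⟩ := mem_image.1 hX
    simp only [fib, mem_filter] at hF'
    obtain ⟨hF1, -, hF3⟩ := hF'
    rcases (memT k T F').eq_empty_or_nonempty with h2 | ⟨Y, hY⟩
    · rw [h2]
      exact mem_insert_self _ _
    · refine mem_insert_of_mem ?_
      have hY' := hY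
      simp only [memT, mem_filter] at hY'
      obtain ⟨hY1, hY2, hY3⟩ := hY'
      have h3 : memT k T F' = {Y} := by
        refine eq_singleton_iff_unique_mem.2 ⟨hY, fun Y' hY' => ?_⟩
        simp only [memT, mem_filter] at hY'
        exact eq_of_over hF1 hY'.1 hY1 hY'.2.1 hY2 hTc hY'.2.2 hY3
      have h4 : (Y \ T).card = 1 := by
        rw [card_sdiff_of_subset hY3]
        omega
      obtain ⟨s, hs⟩ := card_eq_one.1 h4
      have hs' : s ∈ Y \ T := by rw [hs]; exact mem_singleton_self s
      obtain ⟨hsY, hsT⟩ := mem_sdiff.1 hs'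
      have h5 : insert s T = Y := by
        have := sdiff_union_of_subset hY3
        rw [hs, ← insert_eq] at this
        exact this
      refine mem_image.2 ⟨s, ?_, by rw [h3, h5]⟩
      by_cases h6 : s ∈ CF k F T
      · exact mem_union_left _ h6
      · refine mem_union_right _ ?_
        by_cases h7 : s ∈ Z
        · exact mem_union_left _ (mem_sdiff.2 ⟨h7, hsT⟩)
        · refine mem_union_right _ ?_
          obtain ⟨D, hD1, hD2, hD3⟩ := trace hF1 hZ hF3 hTZ hTc hsT h7 (by rw [h5]; exact hY1) h6
          exact mem_biUnion.2 ⟨D, mem_filter.2 ⟨hD1, hD2⟩, hD3⟩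
  have h2 : Ds.card ≤ (Z.powersetCard k).card := by
    have hc : ∀ D ∈ Ds, ∃ T' : Finset (Fin n), T' ⊆ D ∩ Z ∧ T'.card = k := by
      intro D hD
      exact exists_subset_card_eq (mem_filter.1 hD).2.2
    choose! τ hτ1 hτ2 using hc
    refine card_le_card_of_injOn τ (fun D hD => ?_) ?_
    · exact mem_coe.2 (mem_powersetCard.2 ⟨(hτ1 D hD).trans inter_subset_right, hτ2 D hD⟩)
    · intro D hD D' hD' h
      have hD1 := mem_filter.1 (mem_coe.1 hD)
      have hD1' := mem_filter.1 (mem_coe.1 hD')
      refine eq_of_over hF hD1.1 hD1'.1 hD1.2.1 hD1'.2.1 (hτ2 D hD)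
        ((hτ1 D hD).trans inter_subset_left) ?_
      rw [h]
      exact (hτ1 D' hD').trans inter_subset_left
  have h3 : (Ds.biUnion (fun D => D \ Z)).card ≤ Ds.card := by
    refine card_biUnion_le.trans ?_
    rw [card_eq_sum_ones]
    refine sum_le_sum fun D hD => ?_
    obtain ⟨-, h4, h5⟩ := mem_filter.1 hD
    have := card_sdiff_add_card_inter D Z
    omega
  have h4 : (Z.powersetCard k).card ≤ (k + 2) ^ 2 := by
    rw [card_powersetCard, hZ.1, ← Nat.choose_symm (by omega : k ≤ k + 2), Nat.add_sub_cancel_left]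
    exact Nat.choose_le_pow _ _
  have h5 : (Z \ T).card = 2 := by
    rw [card_sdiff_of_subset hTZ, hZ.1, hTc]
    omega
  have h6 : S.card ≤ (CF k F T).card + ((Z \ T).card + (Ds.biUnion (fun D => D \ Z)).card) :=
    (card_union_le _ _).trans (Nat.add_le_add_left (card_union_le _ _) _)
  have h7 := card_le_card h1
  have h8 := card_insert_le (∅ : Finset (Finset (Fin n))) (S.image (fun s => {insert s T}))
  have h9 : (S.image (fun s => ({insert s T} : Finset (Finset (Fin n))))).card ≤ S.card :=
    card_image_le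
  unfold KK
  omega

end Pool.Agent.FCR
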