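import Pool.Agent.FCR.Lab
import Pool.Agent.H38Pav.Classes

/-!
MP_039b14_co, fixed corank: isomorphism classes.
-/

set_option autoImplicit false

namespace Pool.Agent.FCR

open Finset H38Pav

variable {n : ℕ}

/-- the members of the class have rank `n - r` -/
def RC (r : ℕ) (c : Cls n) : Prop := ∃ M : Mat n, cls M = c ∧ M.1.eRank + (r : ℕ∞) = n

/-- there are at least as many labelled matroids as classes -/
theorem cls_le_lab (n r : ℕ) :
    Nat.card {c : Cls n // RC r c ∧ ¬ c.HasMG} ≤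
      Nat.card {M : Mat n // M.1.eRank + (r : ℕ∞) = n ∧ ¬ HasMG M.1} := by
  let f : {c : Cls n // RC r c ∧ ¬ c.HasMG} →
      {M : Mat n // M.1.eRank + (r : ℕ∞) = n ∧ ¬ HasMG M.1} := fun c =>
    ⟨c.2.1.choose, c.2.1.choose_spec.2, fun h => c.2.2 ⟨c.2.1.choose, c.2.1.choose_spec.1, h⟩⟩
  refine Nat.card_le_card_of_injective f ?_
  intro c c' h
  apply Subtype.ext
  have h1 : c.2.1.choose = c'.2.1.choose := congrArg Subtype.val h
  rw [← c.2.1.choose_spec.1, ← c'.2.1.choose_spec.1, h1]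

/-- a class has at most `n!` members -/
theorem lab_le_cls (n r : ℕ) :
    Nat.card {M : Mat n // M.1.eRank + (r : ℕ∞) = n} ≤
      n.factorial * Nat.card {c : Cls n // RC r c} := by
  have h0 : ∀ (σ : Equiv.Perm (Fin n)) (M : Mat n), (act σ M).1.eRank = M.1.eRank := by
    intro σ M
    exact ((cls_eq.mp (cls_act σ M)).eRank_eq)
  let f : Equiv.Perm (Fin n) × {c : Cls n // RC r c} →
      {M : Mat n // M.1.eRank + (r : ℕ∞) = n} := fun p =>
    ⟨act p.1 p.2.2.choose, by rw [h0]; exact p.2.2.choose_spec.2⟩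
  have hf : Function.Surjective f := by
    rintro ⟨M, hM⟩
    have hc : RC r (cls M) := ⟨M, rfl, hM⟩
    have h1 : cls hc.choose = cls M := hc.choose_spec.1
    obtain ⟨σ, hσ⟩ := cls_eq.mp h1
    refine ⟨(σ, ⟨cls M, hc⟩), ?_⟩
    apply Subtype.ext
    show act σ hc.choose = M
    apply Subtype.ext
    refine Matroid.ext_isBase (by rw [(act σ hc.choose).2, M.2]) (fun B _ => ?_)
    have h2 : B = σ '' (σ.symm '' B) := by rw [← Set.image_comp]; simp
    rw [h2, act_isBase, ← hσ]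
  have h2 := Nat.card_le_card_of_surjective f hf
  rw [Nat.card_prod, Nat.card_perm, Nat.card_fin] at h2
  exact h2

theorem final (r : ℕ) (hr : 3 ≤ r) : ∃ n0 : ℕ, ∀ n : ℕ, n0 ≤ n →
    0 < Nat.card {c : Cls n // RC r c} ∧
    n ^ n * Nat.card {c : Cls n // RC r c ∧ ¬ c.HasMG} ≤ Nat.card {c : Cls n // RC r c} := by
  obtain ⟨k, rfl⟩ : ∃ k, r = k + 1 := ⟨r - 1, by omega⟩
  obtain ⟨n0, h⟩ := lab k (by omega)
  refine ⟨n0 + 1, fun n hn => ?_⟩
  obtain ⟨h1, h2⟩ := h n (by omega)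
  have h3 := cls_le_lab n (k + 1)
  have h4 := lab_le_cls n (k + 1)
  constructor
  · rcases Nat.eq_zero_or_pos (Nat.card {c : Cls n // RC (k + 1) c}) with h5 | h5
    · rw [h5, Nat.mul_zero] at h4
      omega
    · exact h5
  · have h5 : n.factorial ≤ n ^ n := Nat.factorial_le_pow n
    have hn0 : 0 < n ^ n := Nat.pow_pos (by omega)
    refine Nat.le_of_mul_le_mul_left ?_ hn0
    calc n ^ n * (n ^ n * Nat.card {c : Cls n // RC (k + 1) c ∧ ¬ c.HasMG})
        = n ^ (2 * n) * Nat.card {c : Cls n // RC (k + 1) c ∧ ¬ c.HasMG} := by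
          rw [two_mul, pow_add]; ring
      _ ≤ n ^ (2 * n) * Nat.card {M : Mat n // M.1.eRank + ((k + 1 : ℕ) : ℕ∞) = n ∧
            ¬ HasMG M.1} := Nat.mul_le_mul_left _ h3
      _ ≤ Nat.card {M : Mat n // M.1.eRank + ((k + 1 : ℕ) : ℕ∞) = n} := h2
      _ ≤ n.factorial * Nat.card {c : Cls n // RC (k + 1) c} := h4
      _ ≤ n ^ n * Nat.card {c : Cls n // RC (k + 1) c} := Nat.mul_le_mul_right _ h5

end Pool.Agent.FCR
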