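import Pool.Agent.FCR.Jen

/-!
MP_039b14_co, fixed corank: a switch multiplies the number of families by at least the square root
of `n`.
-/

set_option autoImplicit false

namespace Pool.Agent.FCR

open Finset Filter

private theorem choose_ge_aux {n k : ℕ} (hn : 2 * (k + 2) ≤ n) :
    ((n : ℝ) / 2) ^ (k + 2) / ((k + 2).factorial : ℝ) ≤ (n.choose (k + 2) : ℝ) := by
  have h1 : (((n + 1 - (k + 2) : ℕ) : ℝ)) ^ (k + 2) / ((k + 2).factorial : ℝ) ≤ (n.choose (k + 2) : ℝ) :=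
    Nat.pow_le_choose (k + 2) n
  have h2 : (0 : ℝ) < ((k + 2).factorial : ℝ) := by exact_mod_cast Nat.factorial_pos (k + 2)
  refine le_trans ?_ h1
  apply div_le_div_of_nonneg_right _ h2.le
  apply pow_le_pow_left₀ (by positivity)
  rw [Nat.cast_sub (by omega)]
  have h3 : (2 * ((k : ℝ) + 2)) ≤ n := by exact_mod_cast hn
  push_cast
  linarith

theorem gain (k : ℕ) (hk : 2 ≤ k) : ∃ n0 : ℕ, ∀ n t : ℕ, n0 ≤ n → t ≤ 6 * n →
    n * (FF n k t).card ^ 2 ≤ (FF n k (t + 1)).card ^ 2 := by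
  obtain ⟨C1, n1, h⟩ := jen k hk
  obtain ⟨c1, hc1⟩ : ∃ c1 : ℝ, c1 = Real.exp (-(10 / 9 * C1)) * (9 / 10) /
      (2 ^ (k + 2) * ((k + 2).factorial : ℝ)) := ⟨_, rfl⟩
  have hfac : (0 : ℝ) < ((k + 2).factorial : ℝ) := by exact_mod_cast Nat.factorial_pos (k + 2)
  have hc0 : 0 < c1 := by
    rw [hc1]
    positivity
  have ht : Tendsto (fun n : ℕ => (n : ℝ) ^ ((5 : ℝ) / 9)) atTop atTop :=
    (tendsto_rpow_atTop (by norm_num)).comp tendsto_natCast_atTop_atTop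
  obtain ⟨n2, h2⟩ := eventually_atTop.1 (ht.eventually_ge_atTop (49 / c1 ^ 2))
  refine ⟨max (max n1 n2) (2 * (k + 2)), fun n t hn htn => ?_⟩
  have hn1 : n1 ≤ n := le_trans (le_trans (le_max_left _ _) (le_max_left _ _)) hn
  have hn2 : n2 ≤ n := le_trans (le_trans (le_max_right _ _) (le_max_left _ _)) hn
  have hn3 : 2 * (k + 2) ≤ n := le_trans (le_max_right _ _) hn
  have hx1 : (1 : ℝ) ≤ n := by
    have : 1 ≤ n := by omega
    exact_mod_cast this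
  have hx0 : (0 : ℝ) < n := by linarith
  have H := h n t hn1 htn
  obtain ⟨a, ha⟩ : ∃ a : ℝ, a = ((FF n k t).card : ℝ) := ⟨_, rfl⟩
  obtain ⟨b, hb⟩ : ∃ b : ℝ, b = ((FF n k (t + 1)).card : ℝ) := ⟨_, rfl⟩
  have ha0 : 0 ≤ a := by rw [ha]; positivity
  have hb0 : 0 ≤ b := by rw [hb]; positivity
  rw [← ha, ← hb] at H
  -- the exponential
  have e1 : Real.exp (-((10 / 9) * (((k : ℝ) + 2) / 2 * Real.log n + C1))) =
      (n : ℝ) ^ (-(5 / 9 * ((k : ℝ) + 2))) * Real.exp (-(10 / 9 * C1)) := by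
    rw [Real.rpow_def_of_pos hx0, ← Real.exp_add]
    congr 1
    ring
  have e2 : (n : ℝ) ^ (-(5 / 9 * ((k : ℝ) + 2))) * (n : ℝ) ^ (k + 2) = (n : ℝ) ^ (4 / 9 * ((k : ℝ) + 2)) := by
    rw [← Real.rpow_natCast (n : ℝ) (k + 2), ← Real.rpow_add hx0]
    congr 1
    push_cast
    ring
  have e3 : (n : ℝ) ^ ((16 : ℝ) / 9) ≤ (n : ℝ) ^ (4 / 9 * ((k : ℝ) + 2)) := by
    apply Real.rpow_le_rpow_of_exponent_le hx1
    have : (2 : ℝ) ≤ k := by exact_mod_cast hk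
    linarith
  have e4 : (n : ℝ) ^ ((16 : ℝ) / 9) = n * (n : ℝ) ^ ((7 : ℝ) / 9) := by
    rw [show (16 : ℝ) / 9 = 1 + 7 / 9 by norm_num, Real.rpow_add hx0, Real.rpow_one]
  have e5 : (n : ℝ) ^ ((7 : ℝ) / 9) * (n : ℝ) ^ ((7 : ℝ) / 9) = n * (n : ℝ) ^ ((5 : ℝ) / 9) := by
    rw [← Real.rpow_add hx0, show (7 : ℝ) / 9 + 7 / 9 = 1 + 5 / 9 by norm_num, Real.rpow_add hx0,
      Real.rpow_one]
  have hr0 : 0 ≤ (n : ℝ) ^ (-(5 / 9 * ((k : ℝ) + 2))) := Real.rpow_nonneg hx0.le _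
  have h3 : c1 * (n : ℝ) ^ (4 / 9 * ((k : ℝ) + 2)) * a ≤ ((t : ℝ) + 1) * b := by
    have f1 : c1 * (n : ℝ) ^ (4 / 9 * ((k : ℝ) + 2)) * a =
        (n : ℝ) ^ (-(5 / 9 * ((k : ℝ) + 2))) * Real.exp (-(10 / 9 * C1)) *
          (9 / 10 * (((n : ℝ) / 2) ^ (k + 2) / ((k + 2).factorial : ℝ)) * a) := by
      rw [← e2, hc1, div_pow]
      field_simp
    rw [f1]
    refine le_trans ?_ H
    rw [e1]
    apply mul_le_mul_of_nonneg_left _ (by positivity)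
    apply mul_le_mul_of_nonneg_right _ ha0
    exact mul_le_mul_of_nonneg_left (choose_ge_aux hn3) (by norm_num)
  have h4 : ((t : ℝ) + 1) * b ≤ 7 * n * b := by
    apply mul_le_mul_of_nonneg_right _ hb0
    have : (t : ℝ) ≤ 6 * n := by exact_mod_cast htn
    linarith
  have h5 : c1 * (n * (n : ℝ) ^ ((7 : ℝ) / 9)) * a ≤ 7 * n * b := by
    rw [← e4]
    refine le_trans ?_ (h3.trans h4)
    apply mul_le_mul_of_nonneg_right _ ha0
    exact mul_le_mul_of_nonneg_left e3 hc0.le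
  have h6 : c1 * (n : ℝ) ^ ((7 : ℝ) / 9) * a ≤ 7 * b := by
    apply le_of_mul_le_mul_left _ hx0
    calc (n : ℝ) * (c1 * (n : ℝ) ^ ((7 : ℝ) / 9) * a) = c1 * (n * (n : ℝ) ^ ((7 : ℝ) / 9)) * a := by ring
      _ ≤ 7 * n * b := h5
      _ = n * (7 * b) := by ring
  have hr1 : 0 ≤ (n : ℝ) ^ ((7 : ℝ) / 9) := Real.rpow_nonneg hx0.le _
  have h7 : (c1 * (n : ℝ) ^ ((7 : ℝ) / 9) * a) * (c1 * (n : ℝ) ^ ((7 : ℝ) / 9) * a) ≤ (7 * b) * (7 * b) :=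
    mul_le_mul h6 h6 (by positivity) (by positivity)
  have h8 : c1 ^ 2 * (n * (n : ℝ) ^ ((5 : ℝ) / 9)) * a ^ 2 ≤ 49 * b ^ 2 := by
    rw [← e5]
    calc _ = (c1 * (n : ℝ) ^ ((7 : ℝ) / 9) * a) * (c1 * (n : ℝ) ^ ((7 : ℝ) / 9) * a) := by ring
      _ ≤ _ := h7
      _ = _ := by ring
  have h9 : 49 ≤ c1 ^ 2 * (n : ℝ) ^ ((5 : ℝ) / 9) := by
    have h10 := h2 n hn2
    rw [div_le_iff₀ (by positivity)] at h10
    linarith
  have h11 : 49 * (n * a ^ 2) ≤ 49 * b ^ 2 := by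
    refine le_trans ?_ h8
    calc 49 * (n * a ^ 2) ≤ (c1 ^ 2 * (n : ℝ) ^ ((5 : ℝ) / 9)) * (n * a ^ 2) :=
          mul_le_mul_of_nonneg_right h9 (by positivity)
      _ = _ := by ring
  have h12 : (n : ℝ) * a ^ 2 ≤ b ^ 2 := by linarith
  rw [ha, hb] at h12
  exact_mod_cast h12

end Pool.Agent.FCR
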