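import Pool.Agent.FCR.Defs

/-!
MP_039b14_co, fixed corank: a family is determined by the bases of its matroid.
-/

set_option autoImplicit false

namespace Pool.Agent.FCR

open Finset

variable {n : ℕ}

namespace Inj5

theorem isFam {k t : ℕ} {F : Finset (Finset (Fin n))} (hF : F ∈ FF n k t) : IsFam k t F := by
  classical
  exact (Finset.mem_filter.1 hF).2

/-- blocks are recovered -/
theorem block_iff {k t : ℕ} {F : Finset (Finset (Fin n))} (hF : IsFam k t F)
    {Y : Finset (Fin n)} (hY : Y.card = k + 2) :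
    Y ∈ F ↔ ∀ X ⊆ Y, X.card = k + 1 → ¬ BB k F X := by
  constructor
  · intro h X hX _ hB
    exact (hB.2 Y h).2 hY hX
  · intro h
    obtain ⟨hs, hcc, hcb, hbb, -⟩ := hF
    have her : ∀ y ∈ Y, ∃ D ∈ F, (D.card ≤ k + 1 ∧ D ⊆ Y.erase y) ∨
        (D.card = k + 2 ∧ Y.erase y ⊆ D) := by
      intro y hy
      have h1 := h (Y.erase y) (Finset.erase_subset _ _) (by
        rw [Finset.card_erase_of_mem hy, hY]; rfl)
      unfold BB at h1
      push Not at h1
      obtain ⟨D, hD, h2⟩ := h1 (by rw [Finset.card_erase_of_mem hy, hY]; rfl)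
      refine ⟨D, hD, ?_⟩
      by_cases h3 : D.card ≤ k + 1 ∧ D ⊆ Y.erase y
      · exact Or.inl h3
      · right
        apply h2
        intro h4 h5
        exact h3 ⟨h4, h5⟩
    by_cases hc : ∃ D ∈ F, D.card ≤ k + 1 ∧ D ⊆ Y
    · exfalso
      obtain ⟨D, hD, hDc, hDY⟩ := hc
      have hne : D.Nonempty := Finset.card_pos.1 (by have := (hs D hD).1; omega)
      obtain ⟨d, hd⟩ := hne
      obtain ⟨D', hD', h1 | h1⟩ := her d (hDY hd)
      · have hne' : D ≠ D' := by
          rintro rfl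
          exact Finset.notMem_erase d Y (h1.2 hd)
        have h2 := hcc D hD D' hD' hne' hDc h1.1
        have h3 : (D ∪ D').card ≤ Y.card :=
          Finset.card_le_card (Finset.union_subset hDY (h1.2.trans (Finset.erase_subset _ _)))
        omega
      · have h2 := hcb D hD D' hD' hDc h1.1
        have h3 : D \ D' ⊆ {d} := by
          intro x hx
          have hx' := Finset.mem_sdiff.1 hx
          by_contra hxd
          rw [Finset.mem_singleton] at hxd
          exact hx'.2 (h1.2 (Finset.mem_erase.2 ⟨hxd, hDY hx'.1⟩))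
        have h4 := Finset.card_le_card h3
        rw [Finset.card_singleton] at h4
        omega
    · push Not at hc
      obtain ⟨y1, hy1, y2, hy2, h12⟩ := Finset.one_lt_card.1 (show 1 < Y.card by omega)
      obtain ⟨B1, hB1, h1 | h1⟩ := her y1 hy1
      · exact absurd (h1.2.trans (Finset.erase_subset _ _)) (hc B1 hB1 h1.1)
      obtain ⟨B2, hB2, h2 | h2⟩ := her y2 hy2
      · exact absurd (h2.2.trans (Finset.erase_subset _ _)) (hc B2 hB2 h2.1)
      have heq : B1 = B2 := by
        by_contra hne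
        have h3 := hbb B1 hB1 B2 hB2 hne h1.1 h2.1
        have h4 : (Y.erase y1).erase y2 ⊆ B1 ∩ B2 := by
          intro x hx
          have e1 := Finset.mem_erase.1 hx
          have e2 := Finset.mem_erase.1 e1.2
          exact Finset.mem_inter.2 ⟨h1.2 e1.2, h2.2 (Finset.mem_erase.2 ⟨e1.1, e2.2⟩)⟩
        have h5 := Finset.card_le_card h4
        rw [Finset.card_erase_of_mem (Finset.mem_erase.2 ⟨h12.symm, hy2⟩),
          Finset.card_erase_of_mem hy1, hY] at h5
        omega
      have hYB : Y ⊆ B1 := by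
        intro x hx
        by_cases hx1 : x = y1
        · rw [heq]
          exact h2.2 (Finset.mem_erase.2 ⟨by rw [hx1]; exact h12, hx⟩)
        · exact h1.2 (Finset.mem_erase.2 ⟨hx1, hx⟩)
      have : Y = B1 := Finset.eq_of_subset_of_card_le hYB (by rw [hY, h1.1])
      rw [this]
      exact hB1

/-- the set in `F'` inside a superset of a circuit of `F` -/
theorem exists_circ {k t : ℕ} {F F' : Finset (Finset (Fin n))} (hF : IsFam k t F)
    (hbl : ∀ B, B.card = k + 2 → B ∈ F' → B ∈ F) (h : ∀ X, BB k F' X → BB k F X)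
    {D X : Finset (Fin n)} (hD : D ∈ F) (hDc : D.card ≤ k + 1) (hDX : D ⊆ X)
    (hX : X.card = k + 1) : ∃ D' ∈ F', D'.card ≤ k + 1 ∧ D' ⊆ X := by
  have h1 : ¬ BB k F' X := fun hB => ((h X hB).2 D hD).1 hDc hDX
  unfold BB at h1
  push Not at h1
  obtain ⟨D', hD', h2⟩ := h1 hX
  by_cases h3 : D'.card ≤ k + 1 ∧ D' ⊆ X
  · exact ⟨D', hD', h3⟩
  · exfalso
    have h4 := h2 (fun h4 h5 => h3 ⟨h4, h5⟩)
    have h5 := hF.2.2.1 D hD D' (hbl D' h4.1 hD') hDc h4.1
    have h6 : D \ D' = ∅ := Finset.sdiff_eq_empty_iff_subset.2 (hDX.trans h4.2)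
    rw [h6, Finset.card_empty] at h5
    omega

theorem circ_sub {k t : ℕ} (hn : k + 3 ≤ n) {F F' : Finset (Finset (Fin n))}
    (hF : IsFam k t F) (hF' : IsFam k t F')
    (hbl : ∀ B, B.card = k + 2 → B ∈ F' → B ∈ F) (h : ∀ X, BB k F' X → BB k F X)
    {D X D' : Finset (Fin n)} (hD : D ∈ F) (hDc : D.card ≤ k + 1) (hDX : D ⊆ X)
    (hX : X.card = k + 1) (hD' : D' ∈ F') (hDc' : D'.card ≤ k + 1) (hDX' : D' ⊆ X) :
    D' ⊆ D := by
  intro x hx
  by_contra hxD
  obtain ⟨y, hy⟩ : ∃ y, y ∉ X := by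
    by_contra hcon
    push Not at hcon
    have : X = univ := Finset.eq_univ_iff_forall.2 hcon
    rw [this, Finset.card_univ, Fintype.card_fin] at hX
    omega
  have hxX : x ∈ X := hDX' hx
  have hye : y ∉ X.erase x := fun hh => hy (Finset.mem_of_mem_erase hh)
  have hc2 : (insert y (X.erase x)).card = k + 1 := by
    rw [Finset.card_insert_of_notMem hye, Finset.card_erase_of_mem hxX, hX]
    rfl
  have hD2 : D ⊆ insert y (X.erase x) := by
    intro z hz
    refine Finset.mem_insert_of_mem (Finset.mem_erase.2 ⟨?_, hDX hz⟩)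
    rintro rfl
    exact hxD hz
  obtain ⟨D'', hD'', hDc'', hs''⟩ := exists_circ hF hbl h hD hDc hD2 hc2
  have hne : D' ≠ D'' := by
    rintro rfl
    have h1 := Finset.mem_insert.1 (hs'' hx)
    rcases h1 with h1 | h1
    · rw [h1] at hxX
      exact hy hxX
    · exact Finset.notMem_erase x X h1
  have h1 := hF'.2.1 D' hD' D'' hD'' hne hDc' hDc''
  have h2 : D' ∪ D'' ⊆ insert y X := by
    apply Finset.union_subset (hDX'.trans (Finset.subset_insert _ _))
    exact hs''.trans (Finset.insert_subset_insert _ (Finset.erase_subset _ _))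
  have h3 := Finset.card_le_card h2
  rw [Finset.card_insert_of_notMem hy, hX] at h3
  omega

theorem sub {k t : ℕ} (hn : k + 3 ≤ n) {F F' : Finset (Finset (Fin n))}
    (hF : IsFam k t F) (hF' : IsFam k t F') (h : ∀ X, BB k F X ↔ BB k F' X) : F ⊆ F' := by
  have hb : ∀ B : Finset (Fin n), B.card = k + 2 → (B ∈ F ↔ B ∈ F') := by
    intro B hB
    rw [block_iff hF hB, block_iff hF' hB]
    constructor
    · intro h1 X hX hc hBB
      exact h1 X hX hc ((h X).2 hBB)
    · intro h1 X hX hc hBB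
      exact h1 X hX hc ((h X).1 hBB)
  intro D hD
  have hDs := (hF.1 D hD).2
  by_cases hDc : D.card = k + 2
  · exact (hb D hDc).1 hD
  · have hDc' : D.card ≤ k + 1 := by omega
    obtain ⟨X, hDX, hX⟩ := Finset.exists_superset_card_eq hDc' (by
      rw [Fintype.card_fin]; omega)
    obtain ⟨D', hD', hc', hs'⟩ := exists_circ hF (fun B hB hm => (hb B hB).2 hm)
      (fun X hX => (h X).2 hX) hD hDc' hDX hX
    have e1 := circ_sub hn hF hF' (fun B hB hm => (hb B hB).2 hm)
      (fun X hX => (h X).2 hX) hD hDc' hDX hX hD' hc' hs'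
    have e2 := circ_sub hn hF' hF (fun B hB hm => (hb B hB).1 hm)
      (fun X hX => (h X).1 hX) hD' hc' hs' hX hD hDc' hDX
    have e3 : D = D' := Finset.Subset.antisymm e2 e1
    rw [e3]
    exact hD'

end Inj5

theorem bb_inj {k t : ℕ} (hk : 2 ≤ k) (hn : k + 3 ≤ n) {F F' : Finset (Finset (Fin n))}
    (hF : F ∈ FF n k t) (hF' : F' ∈ FF n k t) (h : ∀ X, BB k F X ↔ BB k F' X) : F = F' :=
  Finset.Subset.antisymm
    (Inj5.sub hn (Inj5.isFam hF) (Inj5.isFam hF') h)
    (Inj5.sub hn (Inj5.isFam hF') (Inj5.isFam hF) (fun X => (h X).symm))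

end Pool.Agent.FCR
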