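import Pool.Agent.FCR.Defs

/-!
MP_039b14_co, fixed corank, module B1: the number of injective choices.
-/

set_option autoImplicit false

namespace Pool.Agent.FCR

open Finset

variable {n : ℕ}

private theorem num_ext {r a s x : ℕ} (hs : s + 1 ≤ r) (h1 : 1 + a ≤ x + s) (h2 : 1 ≤ x) :
    1 + a ≤ r * x := by
  obtain ⟨x', rfl⟩ : ∃ x', x = x' + 1 := ⟨x - 1, by omega⟩
  obtain ⟨r', rfl⟩ : ∃ r', r = r' + 1 := ⟨r - 1, by omega⟩
  have h3 : (r' + 1) * (x' + 1) = r' * x' + r' + x' + 1 := by ring
  have h4 : 0 ≤ r' * x' := Nat.zero_le _
  rw [h3]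
  omega

private theorem aux (Y : Finset (Fin n)) (A : Fin n → Finset (Fin n))
    (hA : ∀ y ∈ Y, Disjoint (A y) Y) (S : Finset (Fin n)) : S ⊆ Y →
    ∏ y ∈ S, (1 + (A y).card) ≤ Y.card ^ S.card * (choices S A).card := by
  classical
  induction S using Finset.induction_on with
  | empty =>
    intro _
    have : (fun y => y : Fin n → Fin n) ∈ choices ∅ A := by simp [choices]
    have h1 : 1 ≤ (choices ∅ A).card := card_pos.2 ⟨_, this⟩
    simpa using h1
  | insert y0 S hy0 ih =>
    intro hS
    have hSY : S ⊆ Y := (subset_insert _ _).trans hS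
    have hy0Y : y0 ∈ Y := hS (mem_insert_self _ _)
    have hih := ih hSY
    set a := (A y0).card with ha
    have hy0A : y0 ∉ A y0 := fun h => (disjoint_left.1 (hA y0 hy0Y)) h hy0Y
    have hcard : S.card + 1 ≤ Y.card := by
      have := card_le_card hS
      rwa [card_insert_of_notMem hy0] at this
    -- the extensions
    let E : (Fin n → Fin n) → Finset (Fin n) := fun φ => insert y0 (A y0 \ S.image φ)
    have hE : ∀ φ, 1 + a ≤ Y.card * (E φ).card := by
      intro φ
      have h1 : (E φ).card = 1 + (A y0 \ S.image φ).card := by
        rw [card_insert_of_notMem (fun h => hy0A (mem_sdiff.1 h).1), add_comm]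
      have h2 : a ≤ (A y0 \ S.image φ).card + S.card := by
        have h3 : (A y0).card ≤ (A y0 \ S.image φ).card + (S.image φ).card :=
          card_le_card_sdiff_add_card
        have h4 : (S.image φ).card ≤ S.card := card_image_le
        omega
      exact num_ext hcard (by omega) (by omega)
    have hinj : ((choices S A).sigma E).card ≤ (choices (insert y0 S) A).card := by
      refine card_le_card_of_injOn (fun p => Function.update p.1 y0 p.2) ?_ ?_
      · rintro ⟨φ, v⟩ hp
        rw [mem_coe, mem_sigma] at hp
        obtain ⟨hφ, hv⟩ := hp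
        have hφ' : (∀ y ∈ S, φ y = y ∨ φ y ∈ A y) ∧ (∀ y, y ∉ S → φ y = y) ∧
            Set.InjOn φ (S : Set (Fin n)) := by simpa [choices] using hφ
        obtain ⟨h1, h2, h3⟩ := hφ'
        have hv' : v = y0 ∨ (v ∈ A y0 ∧ v ∉ S.image φ) := by simpa [E] using hv
        have hvS : ∀ y ∈ S, φ y ≠ v := by
          intro y hy hyv
          rcases hv' with rfl | ⟨-, h4⟩
          · rcases h1 y hy with h5 | h5
            · exact hy0 (by rw [← hyv, h5]; exact hy)
            · rw [hyv] at h5
              exact (disjoint_left.1 (hA y (hSY hy))) h5 hy0Y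
          · exact h4 (mem_image.2 ⟨y, hy, hyv⟩)
        have hne : ∀ y ∈ S, y ≠ y0 := fun y hy => ne_of_mem_of_not_mem hy hy0
        have : (∀ y ∈ insert y0 S, Function.update φ y0 v y = y ∨ Function.update φ y0 v y ∈ A y) ∧
            (∀ y, y ∉ insert y0 S → Function.update φ y0 v y = y) ∧
            Set.InjOn (Function.update φ y0 v) ((insert y0 S : Finset (Fin n)) : Set (Fin n)) := by
          refine ⟨?_, ?_, ?_⟩
          · intro y hy
            rcases mem_insert.1 hy with rfl | hy
            · rw [Function.update_self]
              rcases hv' with h | h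
              · exact Or.inl h
              · exact Or.inr h.1
            · rw [Function.update_of_ne (hne y hy)]
              exact h1 y hy
          · intro y hy
            rw [mem_insert, not_or] at hy
            rw [Function.update_of_ne hy.1]
            exact h2 y hy.2
          · intro y hy z hz hyz
            rw [mem_coe, mem_insert] at hy hz
            rcases hy with rfl | hy <;> rcases hz with rfl | hz
            · rfl
            · rw [Function.update_self, Function.update_of_ne (hne z hz)] at hyz
              exact absurd hyz.symm (hvS z hz)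
            · rw [Function.update_self, Function.update_of_ne (hne y hy)] at hyz
              exact absurd hyz (hvS y hy)
            · rw [Function.update_of_ne (hne y hy), Function.update_of_ne (hne z hz)] at hyz
              exact h3 (mem_coe.2 hy) (mem_coe.2 hz) hyz
        rw [mem_coe, choices, mem_filter]
        exact ⟨mem_univ _, this⟩
      · rintro ⟨φ, v⟩ hp ⟨ψ, w⟩ hp' heq
        rw [mem_coe, mem_sigma] at hp hp'
        have hφ0 : φ y0 = y0 := by
          have hφ' : (∀ y ∈ S, φ y = y ∨ φ y ∈ A y) ∧ (∀ y, y ∉ S → φ y = y) ∧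
            Set.InjOn φ (S : Set (Fin n)) := by simpa [choices] using hp.1
          exact hφ'.2.1 y0 hy0
        have hψ0 : ψ y0 = y0 := by
          have hφ' : (∀ y ∈ S, ψ y = y ∨ ψ y ∈ A y) ∧ (∀ y, y ∉ S → ψ y = y) ∧
            Set.InjOn ψ (S : Set (Fin n)) := by simpa [choices] using hp'.1
          exact hφ'.2.1 y0 hy0
        have heq' : Function.update φ y0 v = Function.update ψ y0 w := heq
        have hvw : v = w := by
          have := congrFun heq' y0
          rwa [Function.update_self, Function.update_self] at this
        have hφψ : φ = ψ := by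
          funext y
          by_cases hy : y = y0
          · rw [hy, hφ0, hψ0]
          · have := congrFun heq' y
            rwa [Function.update_of_ne hy, Function.update_of_ne hy] at this
        rw [hvw, hφψ]
    rw [prod_insert hy0, card_insert_of_notMem hy0, pow_succ]
    rw [card_sigma] at hinj
    calc (1 + a) * ∏ y ∈ S, (1 + (A y).card)
        ≤ (1 + a) * (Y.card ^ S.card * (choices S A).card) := Nat.mul_le_mul_left _ hih
      _ = Y.card ^ S.card * ∑ φ ∈ choices S A, (1 + a) := by
          rw [sum_const, smul_eq_mul]; ring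
      _ ≤ Y.card ^ S.card * ∑ φ ∈ choices S A, Y.card * (E φ).card :=
          Nat.mul_le_mul_left _ (sum_le_sum fun φ _ => hE φ)
      _ = Y.card ^ S.card * Y.card * ∑ φ ∈ choices S A, (E φ).card := by
          rw [← mul_sum]; ring
      _ ≤ Y.card ^ S.card * Y.card * (choices (insert y0 S) A).card :=
          Nat.mul_le_mul_left _ hinj

theorem prod_le_choices (Y : Finset (Fin n)) (A : Fin n → Finset (Fin n))
    (hA : ∀ y ∈ Y, Disjoint (A y) Y) :
    ∏ y ∈ Y, (1 + (A y).card) ≤ Y.card ^ Y.card * (choices Y A).card :=
  aux Y A hA Y (Subset.refl _)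

end Pool.Agent.FCR
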