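import Pool.Agent.FCR.Gain

/-!
MP_039b14_co, fixed corank: `6 n` switches.
-/

set_option autoImplicit false

namespace Pool.Agent.FCR

open Finset

theorem iter (k : ℕ) (hk : 2 ≤ k) : ∃ n0 : ℕ, ∀ n : ℕ, n0 ≤ n →
    n ^ (3 * n) * (FF n k 0).card ≤ (FF n k (6 * n)).card := by
  obtain ⟨n0, h⟩ := gain k hk
  refine ⟨n0, fun n hn => ?_⟩
  have h1 : ∀ t, t ≤ 6 * n → n ^ t * (FF n k 0).card ^ 2 ≤ (FF n k t).card ^ 2 := by
    intro t
    induction t with
    | zero => intro _; simp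
    | succ t ih =>
      intro ht
      calc n ^ (t + 1) * (FF n k 0).card ^ 2 = n * (n ^ t * (FF n k 0).card ^ 2) := by ring
        _ ≤ n * (FF n k t).card ^ 2 := Nat.mul_le_mul_left n (ih (by omega))
        _ ≤ (FF n k (t + 1)).card ^ 2 := h n t hn (by omega)
  have h2 := h1 (6 * n) le_rfl
  have h3 : (n ^ (3 * n) * (FF n k 0).card) ^ 2 ≤ (FF n k (6 * n)).card ^ 2 := by
    refine le_trans (le_of_eq ?_) h2
    rw [mul_pow, ← pow_mul]
    congr 2
    ring
  exact (Nat.pow_le_pow_iff_left (by norm_num)).1 h3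

end Pool.Agent.FCR
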