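import Pool.Agent.FCR.Sw
import Pool.Agent.FCR.Fib1
import Pool.Agent.FCR.Fib2

/-!
# The gain of the switch as a sum over pairs
-/

set_option autoImplicit false

namespace Pool.Agent.FCR

open Finset H38Pav

variable {n : ℕ}

theorem e1_mem_FF {k t : ℕ} {F : Finset (Finset (Fin n))} : F ∈ FF n k t ↔ IsFam k t F := by
  classical
  unfold FF
  simp

theorem e1_exp_le {k t : ℕ} (hk : 2 ≤ k) {F : Finset (Finset (Fin n))} (hF : F ∈ FF n k t)
    {Z : Finset (Fin n)} (hZ : Good k F Z) :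
    Real.exp (-∑ T ∈ Z.powersetCard k, lw k F T) ≤ ((fib k t F Z).card : ℝ)⁻¹ := by
  classical
  have hpos : 0 < (fib k t F Z).card := by
    refine card_pos.2 ⟨F, ?_⟩
    unfold fib
    exact mem_filter.2 ⟨hF, hZ, rfl⟩
  have h1 : (fib k t F Z).card ≤ ∏ T ∈ Z.powersetCard k, ((CF k F T).card + KK k) :=
    (fib_prod F Z).trans (prod_le_prod' (fun T hT => img_le hk hF hZ hT))
  have h2 : Real.exp (∑ T ∈ Z.powersetCard k, lw k F T) =
      ((∏ T ∈ Z.powersetCard k, ((CF k F T).card + KK k) : ℕ) : ℝ) := by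
    rw [Real.exp_sum]
    push_cast
    refine prod_congr rfl (fun T _ => ?_)
    unfold lw
    refine Real.exp_log ?_
    have : 0 < KK k := by unfold KK; positivity
    positivity
  rw [Real.exp_neg, h2]
  have h3 : (0 : ℝ) < ((fib k t F Z).card : ℝ) := by exact_mod_cast hpos
  refine inv_anti₀ h3 ?_
  exact_mod_cast h1

theorem e1_fiber {α β : Type} [DecidableEq β] (A : Finset α) (f : α → β) :
    ∑ a ∈ A, (((A.filter (fun b => f b = f a)).card : ℝ))⁻¹ = ((A.image f).card : ℝ) := by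
  have h := Finset.sum_comp (s := A)
    (fun b : β => (((A.filter (fun a => f a = b)).card : ℝ))⁻¹) f
  refine h.trans ?_
  rw [card_eq_sum_ones, Nat.cast_sum]
  refine sum_congr rfl (fun b hb => ?_)
  obtain ⟨a, ha, rfl⟩ := mem_image.1 hb
  have hpos : (0 : ℝ) < ((A.filter (fun c => f c = f a)).card : ℝ) := by
    have h0 : a ∈ A.filter (fun c => f c = f a) := mem_filter.2 ⟨ha, rfl⟩
    exact Nat.cast_pos.2 (card_pos.2 ⟨a, h0⟩)
  rw [nsmul_eq_mul, mul_inv_cancel₀ hpos.ne', Nat.cast_one]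

open Classical in
theorem pairs (n k t : ℕ) (hk : 2 ≤ k) :
    ∑ F ∈ FF n k t, ∑ Z ∈ (sets n (k + 2)).filter (fun Z => Good k F Z),
      Real.exp (-∑ T ∈ Z.powersetCard k, lw k F T) ≤
      ((t : ℝ) + 1) * ((FF n k (t + 1)).card : ℝ) := by
  have h1 : ∑ F ∈ FF n k t, ∑ Z ∈ (sets n (k + 2)).filter (fun Z => Good k F Z),
      Real.exp (-∑ T ∈ Z.powersetCard k, lw k F T) ≤
      ∑ F ∈ FF n k t, ∑ Z ∈ (sets n (k + 2)).filter (fun Z => Good k F Z),
        ((fib k t F Z).card : ℝ)⁻¹ :=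
    sum_le_sum (fun F hF => sum_le_sum (fun Z hZ => e1_exp_le hk hF (mem_filter.1 hZ).2))
  refine h1.trans ?_
  have h2 : ∑ F ∈ FF n k t, ∑ Z ∈ (sets n (k + 2)).filter (fun Z => Good k F Z),
        ((fib k t F Z).card : ℝ)⁻¹ =
      ∑ Z ∈ sets n (k + 2), ∑ F ∈ (FF n k t).filter (fun F => Good k F Z),
        ((fib k t F Z).card : ℝ)⁻¹ := by
    refine sum_comm' (fun F Z => ?_)
    simp only [mem_filter]
    tauto
  rw [h2]
  have h3 : ∀ Z ∈ sets n (k + 2), ∑ F ∈ (FF n k t).filter (fun F => Good k F Z),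
        ((fib k t F Z).card : ℝ)⁻¹ ≤ (((FF n k (t + 1)).filter (fun G => Z ∈ G)).card : ℝ) := by
    intro Z _
    have h4 : ∀ F ∈ (FF n k t).filter (fun F => Good k F Z), ((fib k t F Z).card : ℝ)⁻¹ =
        (((((FF n k t).filter (fun F => Good k F Z)).filter
          (fun G => sw k G Z = sw k F Z)).card : ℝ))⁻¹ := by
      intro F _
      congr 3
      unfold fib
      rw [filter_filter]
    rw [sum_congr rfl h4, e1_fiber ((FF n k t).filter (fun F => Good k F Z)) (fun F => sw k F Z)]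
    have h5 : ((FF n k t).filter (fun F => Good k F Z)).image (fun F => sw k F Z) ⊆
        (FF n k (t + 1)).filter (fun G => Z ∈ G) := by
      intro G hG
      obtain ⟨F, hF, rfl⟩ := mem_image.1 hG
      obtain ⟨hF1, hF2⟩ := mem_filter.1 hF
      exact mem_filter.2 ⟨sw_mem hk hF1 hF2, self_mem_sw k F Z⟩
    exact_mod_cast card_le_card h5
  refine (sum_le_sum h3).trans ?_
  have h6 : ∑ Z ∈ sets n (k + 2), ((FF n k (t + 1)).filter (fun G => Z ∈ G)).card =
      ∑ G ∈ FF n k (t + 1), ((sets n (k + 2)).filter (fun Z => Z ∈ G)).card := by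
    simp only [card_eq_sum_ones]
    refine sum_comm' (fun Z G => ?_)
    simp only [mem_filter]
    tauto
  have h7 : ∀ G ∈ FF n k (t + 1), ((sets n (k + 2)).filter (fun Z => Z ∈ G)).card = t + 1 := by
    intro G hG
    have h8 := (e1_mem_FF.1 hG).2.2.2.2
    rw [← h8]
    congr 1
    ext Z
    unfold sets
    simp only [mem_filter, mem_powersetCard_univ]
    tauto
  have h9 : ∑ Z ∈ sets n (k + 2), ((FF n k (t + 1)).filter (fun G => Z ∈ G)).card =
      (FF n k (t + 1)).card * (t + 1) := by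
    rw [h6, sum_congr rfl h7, sum_const, smul_eq_mul]
  have h10 : ∑ Z ∈ sets n (k + 2), (((FF n k (t + 1)).filter (fun G => Z ∈ G)).card : ℝ) =
      (((FF n k (t + 1)).card * (t + 1) : ℕ) : ℝ) := by
    rw [← h9, Nat.cast_sum]
  rw [h10]
  push_cast
  linarith

end Pool.Agent.FCR
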