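import Pool.Agent.FCR.Defs

/-!
MP_039b14_co, fixed corank: the sets which contain a small circuit up to one element.
-/

set_option autoImplicit false

namespace Pool.Agent.FCR

open Finset

variable {n : ℕ}

namespace NearL

theorem near_step {k t j : ℕ} {F : Finset (Finset (Fin n))} (hF : F ∈ FF n k t)
    (hj : j + 2 ≤ k) : (near k (j + 1) F).card ≤ n * (near k j F).card + 2 * n ^ j := by
  classical
  have hfam : IsFam k t F := by
    have := hF
    simp only [FF, mem_filter, mem_univ, true_and] at this
    exact this
  obtain ⟨hF1, hF2, -, -, -⟩ := hfam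
  -- the sets with a subset in `near k j F`, and the others
  have hsub : near k (j + 1) F ⊆
      ((univ : Finset (Fin n)) ×ˢ near k j F).image (fun p => insert p.1 p.2) ∪
      (sets n j).biUnion (fun Q => (near k (j + 1) F).filter
        (fun S => Q ⊆ S ∧ Q ∉ near k j F)) := by
    intro S hS
    have hS' := hS
    simp only [near, sets, mem_filter, mem_powersetCard] at hS'
    obtain ⟨⟨-, hSc⟩, D, hD, hDk, hDS⟩ := hS'
    obtain ⟨a, ha⟩ : S.Nonempty := by
      rw [← card_pos, hSc]; exact Nat.succ_pos j
    by_cases hc : S.erase a ∈ near k j F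
    · refine mem_union_left _ (mem_image.2 ⟨(a, S.erase a), ?_, ?_⟩)
      · exact mem_product.2 ⟨mem_univ _, hc⟩
      · exact insert_erase ha
    · refine mem_union_right _ (mem_biUnion.2 ⟨S.erase a, ?_, mem_filter.2 ⟨hS, ?_, hc⟩⟩)
      · rw [sets, mem_powersetCard]
        refine ⟨subset_univ _, ?_⟩
        rw [card_erase_of_mem ha, hSc]; rfl
      · exact erase_subset _ _
  have hA : (((univ : Finset (Fin n)) ×ˢ near k j F).image (fun p => insert p.1 p.2)).card ≤
      n * (near k j F).card := by
    refine card_image_le.trans ?_
    rw [card_product, card_univ, Fintype.card_fin]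
  have hB : ((sets n j).biUnion (fun Q => (near k (j + 1) F).filter
        (fun S => Q ⊆ S ∧ Q ∉ near k j F))).card ≤ (sets n j).card * 2 := by
    refine card_biUnion_le_card_mul _ _ _ (fun Q hQ => ?_)
    have hQc : Q.card = j := (mem_powersetCard.1 hQ).2
    rcases eq_empty_or_nonempty ((near k (j + 1) F).filter
        (fun S => Q ⊆ S ∧ Q ∉ near k j F)) with he | ⟨S0, hS0⟩
    · rw [he, card_empty]; exact Nat.zero_le _
    · -- the witness of a set over `Q`
      have key : ∀ S ∈ (near k (j + 1) F).filter (fun S => Q ⊆ S ∧ Q ∉ near k j F),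
          ∃ D ∈ F, D.card ≤ k ∧ (D \ Q).card ≤ 2 ∧ ∃ a ∈ D \ Q, S = insert a Q := by
        intro S hS
        obtain ⟨hS1, hQS, hQn⟩ := mem_filter.1 hS
        simp only [near, sets, mem_filter, mem_powersetCard] at hS1
        obtain ⟨⟨-, hSc⟩, D, hD, hDk, hDS⟩ := hS1
        have h1 : (S \ Q).card = 1 := by
          rw [card_sdiff_of_subset hQS, hSc, hQc]; omega
        obtain ⟨a, ha⟩ := card_eq_one.1 h1
        have haS : a ∈ S \ Q := by rw [ha]; exact mem_singleton_self a
        have hSe : S = insert a Q := by
          ext x
          rw [mem_insert]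
          constructor
          · intro hx
            by_cases hxQ : x ∈ Q
            · exact Or.inr hxQ
            · refine Or.inl ?_
              have : x ∈ S \ Q := mem_sdiff.2 ⟨hx, hxQ⟩
              rw [ha] at this
              exact mem_singleton.1 this
          · rintro (rfl | hx)
            · exact (mem_sdiff.1 haS).1
            · exact hQS hx
        have haD : a ∈ D := by
          by_contra hna
          apply hQn
          simp only [near, sets, mem_filter, mem_powersetCard]
          refine ⟨⟨subset_univ _, hQc⟩, D, hD, hDk, ?_⟩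
          have : D \ Q ⊆ D \ S := by
            intro x hx
            rw [mem_sdiff] at hx ⊢
            refine ⟨hx.1, fun hxS => ?_⟩
            rw [hSe, mem_insert] at hxS
            rcases hxS with rfl | hxS
            · exact hna hx.1
            · exact hx.2 hxS
          exact (card_le_card this).trans hDS
        refine ⟨D, hD, hDk, ?_, a, mem_sdiff.2 ⟨haD, (mem_sdiff.1 haS).2⟩, hSe⟩
        have : D \ Q ⊆ insert a (D \ S) := by
          intro x hx
          rw [mem_sdiff] at hx
          rw [mem_insert, mem_sdiff]
          by_cases hxa : x = a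
          · exact Or.inl hxa
          · refine Or.inr ⟨hx.1, fun hxS => ?_⟩
            rw [hSe, mem_insert] at hxS
            rcases hxS with h | h
            · exact hxa h
            · exact hx.2 h
        have h2 := card_le_card this
        have h3 := card_insert_le a (D \ S)
        omega
      obtain ⟨D0, hD0, hD0k, hD02, -⟩ := key S0 hS0
      have hsub2 : (near k (j + 1) F).filter (fun S => Q ⊆ S ∧ Q ∉ near k j F) ⊆
          (D0 \ Q).image (fun a => insert a Q) := by
        intro S hS
        obtain ⟨D, hD, hDk, hD2, a, ha, hSe⟩ := key S hS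
        have hDD : D = D0 := by
          by_contra hne
          have h1 := hF2 D hD D0 hD0 hne (by omega) (by omega)
          have h2 : D ∪ D0 ⊆ Q ∪ ((D \ Q) ∪ (D0 \ Q)) := by
            intro x hx
            rw [mem_union] at hx
            simp only [mem_union, mem_sdiff]
            by_cases hxQ : x ∈ Q
            · exact Or.inl hxQ
            · rcases hx with h | h
              · exact Or.inr (Or.inl ⟨h, hxQ⟩)
              · exact Or.inr (Or.inr ⟨h, hxQ⟩)
          have h3 := card_le_card h2
          have h4 := card_union_le Q ((D \ Q) ∪ (D0 \ Q))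
          have h5 := card_union_le (D \ Q) (D0 \ Q)
          omega
        rw [hDD] at ha
        exact mem_image.2 ⟨a, ha, hSe.symm⟩
      exact ((card_le_card hsub2).trans card_image_le).trans hD02
  have hC : (sets n j).card ≤ n ^ j := by
    rw [sets, card_powersetCard, card_univ, Fintype.card_fin]
    exact Nat.choose_le_pow n j
  have h1 := card_le_card hsub
  have h2 := card_union_le
    (((univ : Finset (Fin n)) ×ˢ near k j F).image (fun p => insert p.1 p.2))
    ((sets n j).biUnion (fun Q => (near k (j + 1) F).filter (fun S => Q ⊆ S ∧ Q ∉ near k j F)))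
  omega

theorem near_zero {k t : ℕ} {F : Finset (Finset (Fin n))} (hF : F ∈ FF n k t) :
    (near k 0 F).card = 0 := by
  classical
  have hfam : IsFam k t F := by
    have := hF
    simp only [FF, mem_filter, mem_univ, true_and] at this
    exact this
  rw [card_eq_zero, eq_empty_iff_forall_notMem]
  intro S hS
  simp only [near, sets, mem_filter, mem_powersetCard] at hS
  obtain ⟨⟨-, hSc⟩, D, hD, hDk, hDS⟩ := hS
  rw [card_eq_zero] at hSc
  rw [hSc, sdiff_empty] at hDS
  have := (hfam.1 D hD).1
  omega

theorem near_aux {k t : ℕ} {F : Finset (Finset (Fin n))} (hF : F ∈ FF n k t) (j : ℕ) :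
    j + 1 ≤ k → n * (near k j F).card ≤ 2 * j * n ^ j := by
  induction j with
  | zero => intro _; rw [near_zero hF]; simp
  | succ j ih =>
    intro hj
    have h1 := ih (by omega)
    have h2 := near_step hF (j := j) (by omega)
    calc n * (near k (j + 1) F).card ≤ n * (n * (near k j F).card + 2 * n ^ j) :=
          Nat.mul_le_mul_left n h2
      _ ≤ n * (2 * j * n ^ j + 2 * n ^ j) := Nat.mul_le_mul_left n (by omega)
      _ = 2 * (j + 1) * n ^ (j + 1) := by ring

end NearL

open NearL in
theorem near_le {k t j : ℕ} {F : Finset (Finset (Fin n))} (hF : F ∈ FF n k t) (h1 : 1 ≤ j)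
    (hj : j + 1 ≤ k) : (near k j F).card ≤ 2 * j * n ^ (j - 1) := by
  obtain ⟨i, rfl⟩ : ∃ i, j = i + 1 := ⟨j - 1, by omega⟩
  have h2 := near_aux hF i (by omega)
  have h3 := near_step hF (j := i) (by omega)
  rw [Nat.add_sub_cancel]
  calc (near k (i + 1) F).card ≤ n * (near k i F).card + 2 * n ^ i := h3
    _ ≤ 2 * i * n ^ i + 2 * n ^ i := by omega
    _ = 2 * (i + 1) * n ^ i := by ring

end Pool.Agent.FCR
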