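import Mathlib
import Pool.Agent.FCR.Defs
import Pool.Agent.FCR.Near

/-!
MP_039b14_co, fixed corank: few `k`-sets are covered by blocks or by small circuits, and few
`(k + 2)`-sets cannot be switched.
-/

set_option autoImplicit false

namespace Pool.Agent.FCR

open Finset H38Pav

variable {n : ℕ}

namespace RestC

/-- sets which arise from a set of `A` by adding `m` elements -/
theorem count_ext (A S : Finset (Finset (Fin n))) (m : ℕ)
    (h : ∀ Z ∈ S, ∃ Q ∈ A, Q ⊆ Z ∧ (Z \ Q).card = m) : S.card ≤ A.card * n ^ m := by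
  classical
  have h1 : S ⊆ (A ×ˢ (univ : Finset (Fin m → Fin n))).image
      (fun p : Finset (Fin n) × (Fin m → Fin n) => p.1 ∪ univ.image p.2) := by
    intro Z hZ
    obtain ⟨Q, hQA, hQZ, hc⟩ := h Z hZ
    rw [Finset.mem_image]
    refine ⟨(Q, fun i => (Z \ Q).orderEmbOfFin hc i), ?_, ?_⟩
    · rw [Finset.mem_product]
      exact ⟨hQA, Finset.mem_univ _⟩
    · ext x
      simp only [Finset.mem_union, Finset.mem_image, Finset.mem_univ, true_and]
      constructor
      · rintro (hx | ⟨i, rfl⟩)
        · exact hQZ hx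
        · exact (Finset.mem_sdiff.1 ((Z \ Q).orderEmbOfFin_mem hc i)).1
      · intro hx
        by_cases hxQ : x ∈ Q
        · exact Or.inl hxQ
        · right
          have h2 : x ∈ Set.range ((Z \ Q).orderEmbOfFin hc) := by
            rw [Finset.range_orderEmbOfFin]
            exact Finset.mem_coe.2 (Finset.mem_sdiff.2 ⟨hx, hxQ⟩)
          obtain ⟨i, hi⟩ := h2
          exact ⟨i, hi⟩
  refine (Finset.card_le_card h1).trans (Finset.card_image_le.trans ?_)
  rw [Finset.card_product, Finset.card_univ, Fintype.card_fun, Fintype.card_fin, Fintype.card_fin]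

/-- the `k`-subsets of the blocks -/
theorem count_blocks {k t : ℕ} {F : Finset (Finset (Fin n))} (hF : F ∈ FF n k t) :
    ((F.filter (fun D => D.card = k + 2)).biUnion (fun B => B.powersetCard k)).card ≤
      t * (k + 2) ^ 2 := by
  classical
  have hfam : IsFam k t F := by
    unfold FF at hF
    exact (Finset.mem_filter.1 hF).2
  refine Finset.card_biUnion_le.trans ?_
  have h1 : ∀ B ∈ F.filter (fun D => D.card = k + 2), (B.powersetCard k).card ≤ (k + 2) ^ 2 := by
    intro B hB
    rw [Finset.card_powersetCard, (Finset.mem_filter.1 hB).2]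
    have h2 : (k + 2).choose k = (k + 2).choose 2 := by
      rw [← Nat.choose_symm_add]
    rw [h2]
    exact Nat.choose_le_pow _ _
  refine (Finset.sum_le_card_nsmul _ _ _ h1).trans ?_
  rw [smul_eq_mul, hfam.2.2.2.2]

/-- a set which contains a small circuit up to one element contains a `(k - 1)`-set with this
property -/
theorem exists_near {k t : ℕ} (hk : 2 ≤ k) {F : Finset (Finset (Fin n))} (hF : F ∈ FF n k t)
    {D Z : Finset (Fin n)} (hD : D ∈ F) (hDk : D.card ≤ k) (hDZ : (D \ Z).card ≤ 1)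
    (hZ : k ≤ Z.card) : ∃ Q ∈ near k (k - 1) F, Q ⊆ Z := by
  classical
  have hfam : IsFam k t F := by
    unfold FF at hF
    exact (Finset.mem_filter.1 hF).2
  have hD2 := (hfam.1 D hD).1
  -- a subset of `D ∩ Z` with at most `k - 1` elements which is all of `D` but one element
  obtain ⟨R, hRZ, hRc, hRD⟩ : ∃ R : Finset (Fin n), R ⊆ Z ∧ R.card ≤ k - 1 ∧
      (D \ R).card ≤ 1 := by
    by_cases h0 : (D \ Z).card = 0
    · have hsub : D ⊆ Z := by
        rw [Finset.card_eq_zero, Finset.sdiff_eq_empty_iff_subset] at h0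
        exact h0
      obtain ⟨d, hd⟩ : D.Nonempty := Finset.card_pos.1 (by omega)
      refine ⟨D.erase d, (Finset.erase_subset _ _).trans hsub, ?_, ?_⟩
      · rw [Finset.card_erase_of_mem hd]
        omega
      · have h1 : D \ D.erase d ⊆ {d} := by
          intro x hx
          rw [Finset.mem_sdiff, Finset.mem_erase] at hx
          rw [Finset.mem_singleton]
          by_contra hne
          exact hx.2 ⟨hne, hx.1⟩
        have h2 := Finset.card_le_card h1
        rwa [Finset.card_singleton] at h2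
    · refine ⟨D ∩ Z, Finset.inter_subset_right, ?_, ?_⟩
      · have h1 := Finset.card_inter_add_card_sdiff D Z
        omega
      · rw [Finset.sdiff_inter_self_left]
        exact hDZ
  obtain ⟨Q, hRQ, hQZ, hQc⟩ := Finset.exists_subsuperset_card_eq hRZ hRc
    (show k - 1 ≤ Z.card by omega)
  refine ⟨Q, ?_, hQZ⟩
  unfold near
  rw [Finset.mem_filter]
  refine ⟨?_, D, hD, hDk, ?_⟩
  · unfold sets
    rw [Finset.mem_powersetCard]
    exact ⟨Finset.subset_univ _, hQc⟩
  · exact (Finset.card_le_card (Finset.sdiff_subset_sdiff (Finset.Subset.refl D) hRQ)).trans hRD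

theorem mem_near_card {k j : ℕ} {F : Finset (Finset (Fin n))} {Q : Finset (Fin n)}
    (hQ : Q ∈ near k j F) : Q.card = j := by
  unfold near sets at hQ
  exact (Finset.mem_powersetCard.1 (Finset.mem_filter.1 hQ).1).2

end RestC

open RestC

theorem rest_le {k t : ℕ} (hk : 2 ≤ k) {F : Finset (Finset (Fin n))} (hF : F ∈ FF n k t) :
    (rest k F).card ≤ 2 * k * n ^ (k - 1) + t * (k + 2) ^ 2 := by
  classical
  have h1 : rest k F ⊆ near k k F ∪
      (F.filter (fun D => D.card = k + 2)).biUnion (fun B => B.powersetCard k) := by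
    intro T hT
    unfold rest sets at hT
    rw [Finset.mem_filter, Finset.mem_powersetCard] at hT
    rw [Finset.mem_union]
    rcases hT.2 with h | ⟨B, hB, hBc, hTB⟩
    · exact Or.inl h
    · right
      rw [Finset.mem_biUnion]
      exact ⟨B, Finset.mem_filter.2 ⟨hB, hBc⟩, Finset.mem_powersetCard.2 ⟨hTB, hT.1.2⟩⟩
  refine (Finset.card_le_card h1).trans ((Finset.card_union_le _ _).trans ?_)
  refine Nat.add_le_add ?_ (count_blocks hF)
  have h2 : (near k k F).card ≤ (near k (k - 1) F).card * n ^ 1 := by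
    apply count_ext
    intro T hT
    have hTc := mem_near_card hT
    obtain ⟨D, hD, hDk, hDT⟩ : ∃ D ∈ F, D.card ≤ k ∧ (D \ T).card ≤ 1 := by
      unfold near at hT
      exact (Finset.mem_filter.1 hT).2
    obtain ⟨Q, hQ, hQT⟩ := exists_near hk hF hD hDk hDT (le_of_eq hTc.symm)
    refine ⟨Q, hQ, hQT, ?_⟩
    rw [Finset.card_sdiff_of_subset hQT, hTc, mem_near_card hQ]
    omega
  have h3 := near_le hF (j := k - 1) (by omega) (by omega)
  refine h2.trans ((Nat.mul_le_mul_right _ h3).trans ?_)
  obtain ⟨j, rfl⟩ : ∃ j, k = j + 2 := ⟨k - 2, by omega⟩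
  have e1 : j + 2 - 1 = j + 1 := by omega
  have e2 : j + 1 - 1 = j := by omega
  rw [e1, e2, mul_assoc, ← pow_add]
  exact Nat.mul_le_mul_right _ (by omega)

open Classical in
theorem notgood_le {k t : ℕ} (hk : 2 ≤ k) {F : Finset (Finset (Fin n))} (hF : F ∈ FF n k t) :
    ((sets n (k + 2)).filter (fun Z => ¬ Good k F Z)).card ≤
      2 * k * n ^ (k + 1) + t * (k + 2) ^ 2 * n ^ 2 := by
  have h1 : (sets n (k + 2)).filter (fun Z => ¬ Good k F Z) ⊆
      (sets n (k + 2)).filter (fun Z => ∃ D ∈ F, D.card ≤ k ∧ (D \ Z).card ≤ 1) ∪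
      (sets n (k + 2)).filter (fun Z => ∃ B ∈ F, B.card = k + 2 ∧ k ≤ (B ∩ Z).card) := by
    intro Z hZ
    rw [Finset.mem_filter] at hZ
    obtain ⟨hZs, hZg⟩ := hZ
    have hZc : Z.card = k + 2 := by
      unfold sets at hZs
      exact (Finset.mem_powersetCard.1 hZs).2
    rw [Finset.mem_union, Finset.mem_filter, Finset.mem_filter]
    by_contra hcon
    rw [not_or] at hcon
    apply hZg
    refine ⟨hZc, fun D hD => ⟨fun hDk => ?_, fun hDc => ?_⟩⟩
    · by_contra h2
      exact hcon.1 ⟨hZs, D, hD, hDk, by omega⟩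
    · by_contra h2
      exact hcon.2 ⟨hZs, D, hD, hDc, by omega⟩
  refine (Finset.card_le_card h1).trans ((Finset.card_union_le _ _).trans ?_)
  refine Nat.add_le_add ?_ ?_
  · have h2 : ((sets n (k + 2)).filter
        (fun Z => ∃ D ∈ F, D.card ≤ k ∧ (D \ Z).card ≤ 1)).card ≤
          (near k (k - 1) F).card * n ^ 3 := by
      apply count_ext
      intro Z hZ
      rw [Finset.mem_filter] at hZ
      obtain ⟨hZs, D, hD, hDk, hDZ⟩ := hZ
      have hZc : Z.card = k + 2 := by
        unfold sets at hZs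
        exact (Finset.mem_powersetCard.1 hZs).2
      obtain ⟨Q, hQ, hQZ⟩ := exists_near hk hF hD hDk hDZ (by omega)
      refine ⟨Q, hQ, hQZ, ?_⟩
      rw [Finset.card_sdiff_of_subset hQZ, hZc, mem_near_card hQ]
      omega
    have h3 := near_le hF (j := k - 1) (by omega) (by omega)
    refine h2.trans ((Nat.mul_le_mul_right _ h3).trans ?_)
    obtain ⟨j, rfl⟩ : ∃ j, k = j + 2 := ⟨k - 2, by omega⟩
    have e1 : j + 2 - 1 = j + 1 := by omega
    have e2 : j + 1 - 1 = j := by omega
    have e3 : j + 2 + 1 = j + 3 := by omega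
    rw [e1, e2, e3, mul_assoc, ← pow_add]
    exact Nat.mul_le_mul_right _ (by omega)
  · have h2 : ((sets n (k + 2)).filter
        (fun Z => ∃ B ∈ F, B.card = k + 2 ∧ k ≤ (B ∩ Z).card)).card ≤
          ((F.filter (fun D => D.card = k + 2)).biUnion (fun B => B.powersetCard k)).card *
            n ^ 2 := by
      apply count_ext
      intro Z hZ
      rw [Finset.mem_filter] at hZ
      obtain ⟨hZs, B, hB, hBc, hBZ⟩ := hZ
      have hZc : Z.card = k + 2 := by
        unfold sets at hZs
        exact (Finset.mem_powersetCard.1 hZs).2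
      obtain ⟨Q, hQ, hQc⟩ := Finset.exists_subset_card_eq hBZ
      have hQZ : Q ⊆ Z := hQ.trans Finset.inter_subset_right
      refine ⟨Q, ?_, hQZ, ?_⟩
      · rw [Finset.mem_biUnion]
        exact ⟨B, Finset.mem_filter.2 ⟨hB, hBc⟩,
          Finset.mem_powersetCard.2 ⟨hQ.trans Finset.inter_subset_left, hQc⟩⟩
      · rw [Finset.card_sdiff_of_subset hQZ, hZc, hQc]
        omega
    exact h2.trans (Nat.mul_le_mul_right _ (count_blocks hF))

end Pool.Agent.FCR
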