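import Pool.Agent.FCR.SumAll
import Pool.Agent.FCR.Pairs
import Pool.Agent.FCR.Dbl
import Pool.Agent.FCR.RestC

/-!
MP_039b14_co, fixed corank: the convexity step.
-/

set_option autoImplicit false

namespace Pool.Agent.FCR

open Finset

private theorem big_aux {n k t : ℕ} (hk : 2 ≤ k)
    (hn : 10 * (2 * k + 6 * (k + 2) ^ 2) * (2 ^ (k + 2) * (k + 2).factorial) ≤ n) (ht : t ≤ 6 * n) :
    10 * (2 * k * n ^ (k + 1) + t * (k + 2) ^ 2 * n ^ 2) ≤ n.choose (k + 2) := by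
  have hfac : 1 ≤ (k + 2).factorial := Nat.factorial_pos (k + 2)
  have hpow : 1 ≤ 2 ^ (k + 2) := Nat.one_le_two_pow
  have h0 : 1 ≤ 2 ^ (k + 2) * (k + 2).factorial := Nat.mul_pos hpow hfac
  have hn2 : 2 * (k + 2) ≤ n := by
    refine le_trans ?_ hn
    refine le_trans ?_ (Nat.le_mul_of_pos_right _ h0)
    nlinarith
  have hn1 : 1 ≤ n := by omega
  have h1 : 10 * (2 * k * n ^ (k + 1) + t * (k + 2) ^ 2 * n ^ 2) ≤
      10 * (2 * k + 6 * (k + 2) ^ 2) * n ^ (k + 1) := by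
    have h2 : n ^ 3 ≤ n ^ (k + 1) := Nat.pow_le_pow_right hn1 (by omega)
    have h3 : t * (k + 2) ^ 2 * n ^ 2 ≤ 6 * (k + 2) ^ 2 * n ^ (k + 1) := by
      calc t * (k + 2) ^ 2 * n ^ 2 ≤ (6 * n) * (k + 2) ^ 2 * n ^ 2 :=
            Nat.mul_le_mul_right _ (Nat.mul_le_mul_right _ ht)
        _ = 6 * (k + 2) ^ 2 * n ^ 3 := by ring
        _ ≤ _ := Nat.mul_le_mul_left _ h2
    calc 10 * (2 * k * n ^ (k + 1) + t * (k + 2) ^ 2 * n ^ 2) ≤
        10 * (2 * k * n ^ (k + 1) + 6 * (k + 2) ^ 2 * n ^ (k + 1)) :=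
          Nat.mul_le_mul_left _ (Nat.add_le_add_left h3 _)
      _ = _ := by ring
  have h4 : n ^ (k + 2) ≤ (2 ^ (k + 2) * (k + 2).factorial) * n.choose (k + 2) := by
    have h5 : (((n + 1 - (k + 2) : ℕ) : ℝ)) ^ (k + 2) / ((k + 2).factorial : ℝ) ≤ (n.choose (k + 2) : ℝ) :=
      Nat.pow_le_choose (k + 2) n
    have h6 : (0 : ℝ) < ((k + 2).factorial : ℝ) := by exact_mod_cast hfac
    rw [div_le_iff₀ h6] at h5
    have h7 : (n + 1 - (k + 2)) ^ (k + 2) ≤ n.choose (k + 2) * (k + 2).factorial := by exact_mod_cast h5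
    calc n ^ (k + 2) ≤ (2 * (n + 1 - (k + 2))) ^ (k + 2) := Nat.pow_le_pow_left (by omega) _
      _ = 2 ^ (k + 2) * (n + 1 - (k + 2)) ^ (k + 2) := mul_pow _ _ _
      _ ≤ 2 ^ (k + 2) * (n.choose (k + 2) * (k + 2).factorial) := Nat.mul_le_mul_left _ h7
      _ = _ := by ring
  have h8 : (10 * (2 * k + 6 * (k + 2) ^ 2) * n ^ (k + 1)) * (2 ^ (k + 2) * (k + 2).factorial) ≤
      n.choose (k + 2) * (2 ^ (k + 2) * (k + 2).factorial) := by
    calc (10 * (2 * k + 6 * (k + 2) ^ 2) * n ^ (k + 1)) * (2 ^ (k + 2) * (k + 2).factorial) =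
        (10 * (2 * k + 6 * (k + 2) ^ 2) * (2 ^ (k + 2) * (k + 2).factorial)) * n ^ (k + 1) := by ring
      _ ≤ n * n ^ (k + 1) := Nat.mul_le_mul_right _ hn
      _ = n ^ (k + 2) := by ring
      _ ≤ (2 ^ (k + 2) * (k + 2).factorial) * n.choose (k + 2) := h4
      _ = _ := by ring
  exact h1.trans (Nat.le_of_mul_le_mul_right h8 h0)

private theorem lw_nonneg {n : ℕ} (k : ℕ) (F : Finset (Finset (Fin n))) (T : Finset (Fin n)) : 0 ≤ lw k F T := by
  unfold lw
  apply Real.log_nonneg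
  have h1 : (1 : ℝ) ≤ (KK k : ℝ) := by
    have : 1 ≤ KK k := by unfold KK; omega
    exact_mod_cast this
  have h2 : (0 : ℝ) ≤ ((CF k F T).card : ℝ) := by positivity
  linarith

open Classical in
theorem jen (k : ℕ) (hk : 2 ≤ k) : ∃ C1 : ℝ, ∃ n0 : ℕ, ∀ n t : ℕ, n0 ≤ n → t ≤ 6 * n →
    Real.exp (-((10 / 9) * (((k : ℝ) + 2) / 2 * Real.log n + C1))) *
      ((9 / 10) * (n.choose (k + 2) : ℝ) * ((FF n k t).card : ℝ)) ≤
      ((t : ℝ) + 1) * ((FF n k (t + 1)).card : ℝ) := by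
  obtain ⟨C0, hC0, hS⟩ := sum_lw k hk
  refine ⟨((k + 2).choose 2 : ℝ) * C0,
    max (2 * k + 1) (10 * (2 * k + 6 * (k + 2) ^ 2) * (2 ^ (k + 2) * (k + 2).factorial)), fun n t hn ht => ?_⟩
  have hn2 : 2 * k + 1 ≤ n := le_trans (le_max_left _ _) hn
  have hn3 := le_trans (le_max_right _ _) hn
  have hbig := big_aux (t := t) hk hn3 ht
  obtain ⟨B, hB⟩ : ∃ B : ℝ, B = (n.choose (k + 2) : ℝ) := ⟨_, rfl⟩
  obtain ⟨f, hf⟩ : ∃ f : ℝ, f = ((FF n k t).card : ℝ) := ⟨_, rfl⟩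
  have hB0 : 0 ≤ B := by rw [hB]; positivity
  have hf0 : 0 ≤ f := by rw [hf]; positivity
  have hlog : 0 ≤ Real.log (n : ℝ) := Real.log_nonneg (by
    have : 1 ≤ n := by omega
    exact_mod_cast this)
  obtain ⟨a, ha⟩ : ∃ a : ℝ, a = (10 / 9) * (((k : ℝ) + 2) / 2 * Real.log n + ((k + 2).choose 2 : ℝ) * C0) :=
    ⟨_, rfl⟩
  have ha0 : 0 ≤ a := by rw [ha]; positivity
  obtain ⟨X, hX⟩ : ∃ X : Finset (Finset (Fin n)) → Finset (Fin n) → ℝ,
      X = fun F Z => ∑ T ∈ Z.powersetCard k, lw k F T := ⟨_, rfl⟩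
  have hX0 : ∀ F Z, 0 ≤ X F Z := by
    intro F Z
    rw [hX]
    exact sum_nonneg fun T _ => lw_nonneg k F T
  -- the number of pairs
  obtain ⟨M, hM⟩ : ∃ M : ℝ, M = ∑ F ∈ FF n k t,
      (((sets n (k + 2)).filter (fun Z => Good k F Z)).card : ℝ) := ⟨_, rfl⟩
  have hMge : 9 / 10 * B * f ≤ M := by
    have h1 : ∀ F ∈ FF n k t, 9 / 10 * B ≤ (((sets n (k + 2)).filter (fun Z => Good k F Z)).card : ℝ) := by
      intro F hF
      have h2 := notgood_le hk hF
      have h3 := card_filter_add_card_filter_not (s := sets n (k + 2)) (p := fun Z => Good k F Z)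
      have h4 : (sets n (k + 2)).card = n.choose (k + 2) := by
        unfold sets
        rw [card_powersetCard, card_univ, Fintype.card_fin]
      rw [h4] at h3
      have h5 : 9 * n.choose (k + 2) ≤ 10 * ((sets n (k + 2)).filter (fun Z => Good k F Z)).card := by
        omega
      have h6 : 9 * (n.choose (k + 2) : ℝ) ≤
          10 * (((sets n (k + 2)).filter (fun Z => Good k F Z)).card : ℝ) := by exact_mod_cast h5
      rw [hB]
      linarith
    calc 9 / 10 * B * f = ∑ _F ∈ FF n k t, 9 / 10 * B := by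
          rw [sum_const, nsmul_eq_mul, hf]
          ring
      _ ≤ M := by
        rw [hM]
        exact sum_le_sum h1
  -- the sum of the weights
  have hsumX : ∑ F ∈ FF n k t, ∑ Z ∈ (sets n (k + 2)).filter (fun Z => Good k F Z), X F Z ≤ a * M := by
    have h1 : ∑ F ∈ FF n k t, ∑ Z ∈ (sets n (k + 2)).filter (fun Z => Good k F Z), X F Z ≤
        ∑ F ∈ FF n k t, ∑ Z ∈ sets n (k + 2), X F Z := by
      refine sum_le_sum fun F _ => ?_
      exact sum_le_sum_of_subset_of_nonneg (filter_subset _ _) fun Z _ _ => hX0 F Z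
    have h2 : ∑ F ∈ FF n k t, ∑ Z ∈ sets n (k + 2), X F Z =
        ((n - k).choose 2 : ℝ) * ∑ F ∈ FF n k t, ∑ T ∈ sets n k, lw k F T := by
      rw [mul_sum]
      refine sum_congr rfl fun F _ => ?_
      rw [hX]
      exact dbl n k hk (lw k F)
    have h3 : ((n - k).choose 2 : ℝ) * (n.choose k : ℝ) = ((k + 2).choose 2 : ℝ) * B := by
      rw [hB]
      exact_mod_cast choose_dbl n k
    have h4 : ((k + 2).choose 2 : ℝ) = ((k : ℝ) + 2) * ((k : ℝ) + 1) / 2 := by
      rw [Nat.cast_choose_two]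
      push_cast
      ring
    have h5 : ∑ F ∈ FF n k t, ∑ Z ∈ sets n (k + 2), X F Z ≤ f * B * (9 / 10 * a) := by
      rw [h2]
      calc ((n - k).choose 2 : ℝ) * ∑ F ∈ FF n k t, ∑ T ∈ sets n k, lw k F T ≤
          ((n - k).choose 2 : ℝ) * (f * (n.choose k : ℝ) * (Real.log n / (k + 1) + C0)) := by
            rw [hf]
            exact mul_le_mul_of_nonneg_left (hS n t (by omega) ht) (by positivity)
        _ = f * (((n - k).choose 2 : ℝ) * (n.choose k : ℝ)) * (Real.log n / (k + 1) + C0) := by ring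
        _ = f * (((k + 2).choose 2 : ℝ) * B) * (Real.log n / (k + 1) + C0) := by rw [h3]
        _ = _ := by
          rw [ha, h4]
          have h6 : ((k : ℝ) + 1) ≠ 0 := by positivity
          field_simp
    refine h1.trans (h5.trans ?_)
    calc f * B * (9 / 10 * a) = a * (9 / 10 * B * f) := by ring
      _ ≤ a * M := mul_le_mul_of_nonneg_left hMge ha0
  -- the exponentials
  have hexp : Real.exp (-a) * M ≤ ∑ F ∈ FF n k t, ∑ Z ∈ (sets n (k + 2)).filter (fun Z => Good k F Z),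
      Real.exp (-X F Z) := by
    have h1 : ∀ x : ℝ, Real.exp (-a) * (1 + a - x) ≤ Real.exp (-x) := by
      intro x
      have h2 : (a - x) + 1 ≤ Real.exp (a - x) := Real.add_one_le_exp (a - x)
      have h3 : Real.exp (-x) = Real.exp (-a) * Real.exp (a - x) := by
        rw [← Real.exp_add]
        congr 1
        ring
      rw [h3]
      apply mul_le_mul_of_nonneg_left _ (Real.exp_pos _).le
      linarith
    have h4 : ∑ F ∈ FF n k t, ∑ Z ∈ (sets n (k + 2)).filter (fun Z => Good k F Z),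
        Real.exp (-a) * (1 + a - X F Z) = Real.exp (-a) * ((1 + a) * M -
          ∑ F ∈ FF n k t, ∑ Z ∈ (sets n (k + 2)).filter (fun Z => Good k F Z), X F Z) := by
      rw [hM, mul_sum, ← sum_sub_distrib, mul_sum]
      refine sum_congr rfl fun F _ => ?_
      rw [← mul_sum, sum_sub_distrib, sum_const, nsmul_eq_mul]
      ring
    calc Real.exp (-a) * M ≤ Real.exp (-a) * ((1 + a) * M -
          ∑ F ∈ FF n k t, ∑ Z ∈ (sets n (k + 2)).filter (fun Z => Good k F Z), X F Z) := by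
          apply mul_le_mul_of_nonneg_left _ (Real.exp_pos _).le
          linarith
      _ = _ := h4.symm
      _ ≤ _ := sum_le_sum fun F _ => sum_le_sum fun Z _ => h1 _
  have hp := pairs n k t hk
  have hfin : Real.exp (-a) * (9 / 10 * B * f) ≤ ((t : ℝ) + 1) * ((FF n k (t + 1)).card : ℝ) := by
    refine le_trans (mul_le_mul_of_nonneg_left hMge (Real.exp_pos _).le) (hexp.trans ?_)
    rw [hX]
    exact hp
  rw [ha, hB, hf] at hfin
  exact hfin

end Pool.Agent.FCR
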