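import Pool.Agent.FCR.Add

/-!
MP_039b14_co, fixed corank: module B3, the moves stay in the class of families.
-/

set_option autoImplicit false

namespace Pool.Agent.FCR

open Finset

variable {n : ℕ}

theorem mv_mem {k t : ℕ} (hk : 2 ≤ k) {F : Finset (Finset (Fin n))} (hF : F ∈ FF n k t)
    {Y : Finset (Fin n)} (hY : Y ∈ rmem k F) {φ : Fin n → Fin n}
    (hφ : φ ∈ choices Y (fun y => CF k F (Y.erase y))) : mv F Y φ ∈ FF n k t := by
  classical
  rw [choices, mem_filter] at hφ
  obtain ⟨-, h1, -, hinj⟩ := hφ
  have hYc : Y.card = k + 1 := (mem_filter.1 hY).2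
  have hout : ∀ y ∈ Y, φ y ≠ y → φ y ∈ CF k F (Y.erase y) := fun y hy hne =>
    (h1 y hy).resolve_left hne
  have hnotY : ∀ y ∈ Y, φ y ≠ y → φ y ∉ Y := fun y hy hne =>
    Finset.disjoint_left.1 (cf_disj hF hY hy) (hout y hy hne)
  have main : ∀ S : Finset (Fin n), S ⊆ Y.filter (fun y => φ y ≠ y) →
      F.erase Y ∪ S.image (fun y => insert (φ y) (Y.erase y)) ∈ FF n k t := by
    intro S
    induction S using Finset.induction_on with
    | empty =>
      intro _
      rw [image_empty, union_empty]
      exact sub_mem hF hY
    | insert y S hyS ih =>
      intro hS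
      have ih' := ih ((subset_insert _ _).trans hS)
      obtain ⟨hyY, hyne⟩ := mem_filter.1 (hS (mem_insert_self _ _))
      have hs : φ y ∉ Y := hnotY y hyY hyne
      have hs' : φ y ∉ Y.erase y := fun h => hs (mem_of_mem_erase h)
      have hcf := hout y hyY hyne
      rw [CF, mem_filter] at hcf
      have hR : (insert (φ y) (Y.erase y)).card = k + 1 := by
        rw [card_insert_of_notMem hs', card_erase_of_mem hyY, hYc]
        omega
      have hadd := add_mem hk ih' hR (by
        intro a ha hcov
        obtain ⟨D, hD, hDc⟩ := hcov
        rcases mem_union.1 hD with hD | hD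
        · have hcov' : Cov k (F.erase Y) ((insert (φ y) (Y.erase y)).erase a) := ⟨D, hD, hDc⟩
          rcases mem_insert.1 ha with rfl | ha
          · rw [erase_insert hs'] at hcov'
            exact not_cov_erase hk hF hY hyY hcov'
          · have hne : φ y ≠ a := fun h => hs' (h ▸ ha)
            rw [erase_insert_of_ne hne] at hcov'
            exact hcf.2.2 a ha (cov_mono (erase_subset _ _) hcov')
        · obtain ⟨z, hz, rfl⟩ := mem_image.1 hD
          obtain ⟨hzY, hzne⟩ := mem_filter.1 (hS (mem_insert_of_mem hz))
          have hzy : z ≠ y := fun h => hyS (h ▸ hz)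
          have hsz : φ z ∉ Y := hnotY z hzY hzne
          have hφ : φ z ≠ φ y := fun h => hzy (hinj hzY hyY h)
          have hRz : (insert (φ z) (Y.erase z)).card = k + 1 := by
            rw [card_insert_of_notMem (fun h => hsz (mem_of_mem_erase h)),
              card_erase_of_mem hzY, hYc]
            omega
          have hsub : ({y, φ z} : Finset (Fin n)) ⊆
              insert (φ z) (Y.erase z) \ (insert (φ y) (Y.erase y)).erase a := by
            intro b hb
            rw [mem_insert, mem_singleton] at hb
            rw [mem_sdiff]
            rcases hb with rfl | rfl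
            · refine ⟨mem_insert_of_mem (mem_erase.2 ⟨Ne.symm hzy, hyY⟩), fun h => ?_⟩
              rcases mem_insert.1 (mem_of_mem_erase h) with h | h
              · exact hyne h.symm
              · exact (mem_erase.1 h).1 rfl
            · refine ⟨mem_insert_self _ _, fun h => ?_⟩
              rcases mem_insert.1 (mem_of_mem_erase h) with h | h
              · exact hφ h
              · exact hsz (mem_of_mem_erase h)
          have h2 : 2 ≤ (insert (φ z) (Y.erase z) \ (insert (φ y) (Y.erase y)).erase a).card := by
            rw [← card_pair (a := y) (b := φ z) (fun h => hsz (h ▸ hyY))]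
            exact card_le_card hsub
          rcases hDc with hDc | hDc
          · omega
          · omega)
      rw [image_insert, union_insert]
      exact hadd.2
  exact main _ (Subset.refl _)

end Pool.Agent.FCR
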