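import Pool.Agent.FCR.Defs

/-!
MP_039b14_co, fixed corank: the move is injective.
-/

set_option autoImplicit false

namespace Pool.Agent.FCR

open Finset H38Pav

variable {n : ℕ}

private theorem b4_isFam {k t : ℕ} {F : Finset (Finset (Fin n))} (hF : F ∈ FF n k t) :
    IsFam k t F := by
  classical
  exact (Finset.mem_filter.mp hF).2

private theorem b4_phi {k t : ℕ} {F : Finset (Finset (Fin n))} (hF : F ∈ FF n k t)
    {Y : Finset (Fin n)} (hY : Y ∈ rmem k F) {φ : Fin n → Fin n}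
    (hφ : φ ∈ choices Y (fun y => CF k F (Y.erase y))) {y : Fin n} (hy : y ∈ Y)
    (hne : φ y ≠ y) : φ y ∉ Y := by
  classical
  obtain ⟨hYF, hYc⟩ := Finset.mem_filter.mp hY
  have h1 := (b4_isFam hF).1 Y hYF
  rcases (Finset.mem_filter.mp hφ).2.1 y hy with h | h
  · exact absurd h hne
  · obtain ⟨-, h2, h3⟩ := Finset.mem_filter.mp h
    intro hφY
    exact h2 (Finset.mem_erase.mpr ⟨hne, hφY⟩)

private theorem b4_inter {k t : ℕ} {F : Finset (Finset (Fin n))} (hF : F ∈ FF n k t)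
    {Y : Finset (Fin n)} (hY : Y ∈ rmem k F) {D : Finset (Fin n)} (hD : D ∈ F) (hne : D ≠ Y)
    (hc : D.card = k + 1) : (D ∩ Y).card < k := by
  obtain ⟨hYF, hYc⟩ := Finset.mem_filter.mp hY
  have h1 := (b4_isFam hF).2.1 D hD Y hYF hne (by omega) (by omega)
  have h2 := Finset.card_union_add_card_inter D Y
  omega

private theorem b4_new {Y : Finset (Fin n)} {y s : Fin n} (hs : s ∉ Y) :
    insert s (Y.erase y) ∩ Y = Y.erase y := by
  ext z
  simp only [Finset.mem_inter, Finset.mem_insert, Finset.mem_erase]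
  constructor
  · rintro ⟨rfl | h, h2⟩
    · exact absurd h2 hs
    · exact h
  · intro h
    exact ⟨Or.inr h, h.2⟩

private theorem b4_old {k t : ℕ} {F : Finset (Finset (Fin n))} (hF : F ∈ FF n k t)
    {Y : Finset (Fin n)} (hY : Y ∈ rmem k F) {φ : Fin n → Fin n}
    (hφ : φ ∈ choices Y (fun y => CF k F (Y.erase y))) :
    F.erase Y = (mv F Y φ).filter (fun D => ¬ (D.card = k + 1 ∧ k ≤ (D ∩ Y).card)) := by
  obtain ⟨hYF, hYc⟩ := Finset.mem_filter.mp hY
  ext D
  rw [Finset.mem_filter, mv, Finset.mem_union]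
  constructor
  · intro h
    refine ⟨Or.inl h, fun h2 => ?_⟩
    have h3 := Finset.mem_erase.mp h
    have h4 := b4_inter hF hY h3.2 h3.1 h2.1
    omega
  · rintro ⟨h | h, h2⟩
    · exact h
    · exfalso
      obtain ⟨y, hy, rfl⟩ := Finset.mem_image.mp h
      obtain ⟨hy1, hy2⟩ := Finset.mem_filter.mp hy
      have h3 := b4_phi hF hY hφ hy1 hy2
      apply h2
      rw [b4_new h3, Finset.card_erase_of_mem hy1,
        Finset.card_insert_of_notMem (fun h => h3 (Finset.mem_of_mem_erase h)),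
        Finset.card_erase_of_mem hy1]
      omega

private theorem b4_val {k t : ℕ} {F F' : Finset (Finset (Fin n))} (hF : F ∈ FF n k t)
    (hF' : F' ∈ FF n k t) {Y : Finset (Fin n)} (hY : Y ∈ rmem k F) (hY' : Y ∈ rmem k F')
    {φ φ' : Fin n → Fin n} (hφ : φ ∈ choices Y (fun y => CF k F (Y.erase y)))
    (hφ' : φ' ∈ choices Y (fun y => CF k F' (Y.erase y))) (h : mv F Y φ = mv F' Y φ')
    {y : Fin n} (hy : y ∈ Y) (hne : φ y ≠ y) : φ y = φ' y := by
  obtain ⟨hYF, hYc⟩ := Finset.mem_filter.mp hY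
  have h1 := b4_phi hF hY hφ hy hne
  have hnot : φ y ∉ Y.erase y := fun h => h1 (Finset.mem_of_mem_erase h)
  have h2 : insert (φ y) (Y.erase y) ∈ mv F' Y φ' := by
    rw [← h, mv, Finset.mem_union]
    exact Or.inr (Finset.mem_image.mpr ⟨y, Finset.mem_filter.mpr ⟨hy, hne⟩, rfl⟩)
  have h3 : insert (φ y) (Y.erase y) ∉ F'.erase Y := by
    rw [b4_old hF' hY' hφ', Finset.mem_filter]
    rintro ⟨-, h4⟩
    apply h4
    rw [b4_new h1, Finset.card_erase_of_mem hy, Finset.card_insert_of_notMem hnot,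
      Finset.card_erase_of_mem hy]
    omega
  rw [mv, Finset.mem_union] at h2
  rcases h2 with h2 | h2
  · exact absurd h2 h3
  · obtain ⟨z, hz, hzy⟩ := Finset.mem_image.mp h2
    obtain ⟨hz1, hz2⟩ := Finset.mem_filter.mp hz
    have h4 := b4_phi hF' hY' hφ' hz1 hz2
    have h5 : Y.erase z = Y.erase y := by
      rw [← b4_new (y := z) h4, hzy, b4_new h1]
    have h6 : z = y := by
      by_contra hzy'
      have h7 : z ∈ Y.erase y := Finset.mem_erase.mpr ⟨hzy', hz1⟩
      rw [← h5] at h7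
      exact (Finset.mem_erase.mp h7).1 rfl
    subst h6
    have h8 : φ z ∈ insert (φ' z) (Y.erase z) := by
      rw [hzy]
      exact Finset.mem_insert_self _ _
    rcases Finset.mem_insert.mp h8 with h9 | h9
    · exact h9
    · exact absurd h9 hnot

theorem mv_inj {k t : ℕ} (hk : 2 ≤ k) {F F' : Finset (Finset (Fin n))} (hF : F ∈ FF n k t)
    (hF' : F' ∈ FF n k t) {Y : Finset (Fin n)} (hY : Y ∈ rmem k F) (hY' : Y ∈ rmem k F')
    {φ φ' : Fin n → Fin n} (hφ : φ ∈ choices Y (fun y => CF k F (Y.erase y)))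
    (hφ' : φ' ∈ choices Y (fun y => CF k F' (Y.erase y))) (h : mv F Y φ = mv F' Y φ') :
    F = F' ∧ φ = φ' := by
  classical
  constructor
  · rw [← Finset.insert_erase (Finset.mem_filter.mp hY).1,
      ← Finset.insert_erase (Finset.mem_filter.mp hY').1, b4_old hF hY hφ, b4_old hF' hY' hφ', h]
  · funext y
    by_cases hy : y ∈ Y
    · by_cases h1 : φ y = y
      · by_cases h2 : φ' y = y
        · rw [h1, h2]
        · exact (b4_val hF' hF hY' hY hφ' hφ h.symm hy h2).symm
      · exact b4_val hF hF' hY hY' hφ hφ' h hy h1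
    · rw [(Finset.mem_filter.mp hφ).2.2.1 y hy, (Finset.mem_filter.mp hφ').2.2.1 y hy]

end Pool.Agent.FCR
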