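import Pool.Agent.FCR.InjC
import Pool.Agent.FCR.Mv
import Pool.Agent.FCR.MvInj

/-!
MP_039b14_co, fixed corank: the key inequality.
-/

set_option autoImplicit false

namespace Pool.Agent.FCR

open Finset

open Classical in
theorem key (n k t : ℕ) (hk : 2 ≤ k) :
    ∑ F ∈ FF n k t, ∑ Y ∈ rmem k F, ∏ y ∈ Y, (1 + (CF k F (Y.erase y)).card) ≤
      (k + 1) ^ (k + 1) * (n.choose (k + 1) * (FF n k t).card) := by
  -- the choices
  have h1 : ∀ F ∈ FF n k t, ∀ Y ∈ rmem k F, ∏ y ∈ Y, (1 + (CF k F (Y.erase y)).card) ≤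
      (k + 1) ^ (k + 1) * (choices Y (fun y => CF k F (Y.erase y))).card := by
    intro F hF Y hY
    have hc : Y.card = k + 1 := (mem_filter.1 hY).2
    have h2 := prod_le_choices Y (fun y => CF k F (Y.erase y)) (fun y hy => cf_disj hF hY hy)
    rw [hc] at h2
    exact h2
  -- one member
  have h3 : ∀ Y ∈ sets n (k + 1), ∑ F ∈ (FF n k t).filter (fun F => Y ∈ rmem k F),
      (choices Y (fun y => CF k F (Y.erase y))).card ≤ (FF n k t).card := by
    intro Y _
    rw [← card_sigma]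
    apply card_le_card_of_injOn (fun p => mv p.1 Y p.2)
    · intro p hp
      rw [mem_coe, mem_sigma, mem_filter] at hp
      exact mv_mem hk hp.1.1 hp.1.2 hp.2
    · rintro ⟨F, φ⟩ hp ⟨F', φ'⟩ hp' h
      rw [mem_coe, mem_sigma, mem_filter] at hp hp'
      obtain ⟨e1, e2⟩ := mv_inj hk hp.1.1 hp'.1.1 hp.1.2 hp'.1.2 hp.2 hp'.2 h
      subst e1
      subst e2
      rfl
  calc ∑ F ∈ FF n k t, ∑ Y ∈ rmem k F, ∏ y ∈ Y, (1 + (CF k F (Y.erase y)).card) ≤
      ∑ F ∈ FF n k t, ∑ Y ∈ rmem k F,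
        (k + 1) ^ (k + 1) * (choices Y (fun y => CF k F (Y.erase y))).card :=
        sum_le_sum fun F hF => sum_le_sum fun Y hY => h1 F hF Y hY
    _ = (k + 1) ^ (k + 1) * ∑ F ∈ FF n k t, ∑ Y ∈ rmem k F,
        (choices Y (fun y => CF k F (Y.erase y))).card := by
        simp only [mul_sum]
    _ = (k + 1) ^ (k + 1) * ∑ Y ∈ sets n (k + 1), ∑ F ∈ (FF n k t).filter (fun F => Y ∈ rmem k F),
        (choices Y (fun y => CF k F (Y.erase y))).card := by
        congr 1
        apply sum_comm'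
        intro F Y
        constructor
        · rintro ⟨hF, hY⟩
          refine ⟨mem_filter.2 ⟨hF, hY⟩, ?_⟩
          unfold sets
          rw [mem_powersetCard]
          exact ⟨subset_univ _, (mem_filter.1 hY).2⟩
        · rintro ⟨hF, _⟩
          exact mem_filter.1 hF
    _ ≤ (k + 1) ^ (k + 1) * ∑ _Y ∈ sets n (k + 1), (FF n k t).card :=
        Nat.mul_le_mul_left _ (sum_le_sum h3)
    _ = _ := by
        rw [sum_const, smul_eq_mul]
        unfold sets
        rw [card_powersetCard, card_univ, Fintype.card_fin]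

end Pool.Agent.FCR
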