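import Pool.Agent.FCR.Exch
import Pool.Agent.FCR.Inj

/-!
MP_039b14_co, fixed corank: the matroids of the families.
-/

set_option autoImplicit false

namespace Pool.Agent.FCR

open Finset H38Pav

variable {n : ℕ}

/-- the matroid of the family `F` -/
noncomputable def famMat {k t : ℕ} (hk : 2 ≤ k) (hn : k + 3 ≤ n) {F : Finset (Finset (Fin n))}
    (hF : F ∈ FF n k t) : Matroid (Fin n) :=
  Matroid.ofIsBaseOfFinite (E := Set.univ) Set.finite_univ
    (fun B : Set (Fin n) => ∃ X : Finset (Fin n), BB k F X ∧ (X : Set (Fin n)) = B)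
    (by
      obtain ⟨X, hX⟩ := exists_bb hk hn hF
      exact ⟨X, X, hX, rfl⟩)
    (by
      rintro _ _ ⟨X, hX, rfl⟩ ⟨Y, hY, rfl⟩ a ha
      obtain ⟨y, hy, h⟩ := bb_exch hF hX hY (x := a) (by
        rw [mem_sdiff]
        exact ⟨mem_coe.1 ha.1, fun h => ha.2 (mem_coe.2 h)⟩)
      rw [mem_sdiff] at hy
      refine ⟨y, ⟨mem_coe.2 hy.1, fun h => hy.2 (mem_coe.1 h)⟩, _, h, ?_⟩
      rw [coe_insert, coe_erase])
    (fun _ _ => Set.subset_univ _)

theorem famMat_isBase {k t : ℕ} (hk : 2 ≤ k) (hn : k + 3 ≤ n) {F : Finset (Finset (Fin n))}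
    (hF : F ∈ FF n k t) (X : Finset (Fin n)) :
    (famMat hk hn hF).IsBase (X : Set (Fin n)) ↔ BB k F X := by
  unfold famMat
  rw [Matroid.ofIsBaseOfFinite_isBase]
  constructor
  · rintro ⟨Y, hY, h⟩
    rwa [← coe_injective h]
  · exact fun h => ⟨X, h, rfl⟩

theorem famMat_eRank {k t : ℕ} (hk : 2 ≤ k) (hn : k + 3 ≤ n) {F : Finset (Finset (Fin n))}
    (hF : F ∈ FF n k t) : (famMat hk hn hF).eRank = ((k + 1 : ℕ) : ℕ∞) := by
  obtain ⟨X, hX⟩ := exists_bb hk hn hF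
  have h := (famMat_isBase hk hn hF X).2 hX
  rw [← h.encard_eq_eRank, Set.encard_coe_eq_coe_finsetCard, hX.1]

theorem ff_le_mat {k t : ℕ} (hk : 2 ≤ k) (hn : k + 3 ≤ n) :
    (FF n k t).card ≤ Nat.card {M : Mat n // M.1.eRank = ((k + 1 : ℕ) : ℕ∞)} := by
  classical
  have h1 : (FF n k t).card = Nat.card {F // F ∈ FF n k t} := by
    rw [Nat.card_eq_fintype_card, Fintype.card_coe]
  rw [h1]
  apply Nat.card_le_card_of_injective
    (fun F : {F // F ∈ FF n k t} =>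
      (⟨⟨famMat hk hn F.2, rfl⟩, famMat_eRank hk hn F.2⟩ :
        {M : Mat n // M.1.eRank = ((k + 1 : ℕ) : ℕ∞)}))
  rintro ⟨F, hF⟩ ⟨F', hF'⟩ h
  have h2 : famMat hk hn hF = famMat hk hn hF' := congrArg (fun M => M.1.1) h
  apply Subtype.ext
  apply bb_inj hk hn hF hF'
  intro X
  rw [← famMat_isBase hk hn hF, ← famMat_isBase hk hn hF', h2]

end Pool.Agent.FCR
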