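import Pool.Agent.FCR.Defs

/-!
MP_039b14_co, fixed corank: the duals of the paving matroids.
-/

set_option autoImplicit false

namespace Pool.Agent.FCR

open Finset H38Pav

variable {n : ℕ}

private theorem m4_spanning {k : ℕ} {M : Matroid (Fin n)} (hE : M.E = Set.univ)
    (hr : M.eRank = ((k + 1 : ℕ) : ℕ∞)) (hp : Paving M✶) (X : Finset (Fin n))
    (hX : X.card = k + 2) : M.Spanning (X : Set (Fin n)) := by
  have h1 := M.eRank_add_eRank_dual
  rw [hr, hE, Set.encard_univ, ENat.card_eq_coe_fintype_card, Fintype.card_fin] at h1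
  have h2 : M✶.Indep ((Xᶜ : Finset (Fin n)) : Set (Fin n)) := by
    rw [Matroid.indep_iff_forall_subset_not_isCircuit
      (by rw [Matroid.dual_ground, hE]; exact Set.subset_univ _)]
    intro C hC hCc
    have h3 := (hp C hCc).trans (Set.encard_le_encard hC)
    rw [Set.encard_coe_eq_coe_finsetCard, Finset.card_compl, Fintype.card_fin, hX] at h3
    have h4 : ((k + 1 : ℕ) : ℕ∞) + ((n - (k + 2) : ℕ) : ℕ∞) ≥ (n : ℕ∞) := by
      rw [← h1]
      gcongr
    have h5 : k + 2 ≤ n := by
      rw [← hX]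
      exact (Finset.card_le_univ X).trans (by rw [Fintype.card_fin])
    have h6 : n ≤ k + 1 + (n - (k + 2)) := by exact_mod_cast h4
    omega
  have h3 := Matroid.Coindep.compl_spanning (M := M) h2
  rw [hE] at h3
  convert h3 using 1
  ext z
  simp

private theorem m4_union {k : ℕ} (hn : k + 3 ≤ n) {M : Matroid (Fin n)} (hE : M.E = Set.univ)
    (hr : M.eRank = ((k + 1 : ℕ) : ℕ∞)) (hp : Paving M✶) {D D' : Finset (Fin n)}
    (hD : M.IsCircuit (D : Set (Fin n))) (hD' : M.IsCircuit (D' : Set (Fin n))) (hne : D ≠ D') :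
    k + 3 ≤ (D ∪ D').card := by
  by_contra hcon
  obtain ⟨X, hX1, hX2⟩ := Finset.exists_superset_card_eq (n := k + 2) (s := D ∪ D')
    (by omega) (by rw [Fintype.card_fin]; omega)
  obtain ⟨B, hB, hBX⟩ := (m4_spanning hE hr hp X hX2).exists_isBase_subset
  obtain ⟨B', rfl⟩ : ∃ B' : Finset (Fin n), B = (B' : Set (Fin n)) :=
    ⟨B.toFinite.toFinset, (Set.Finite.coe_toFinset _).symm⟩
  have h1 : B'.card = k + 1 := by
    have h := hB.encard_eq_eRank
    rw [hr, Set.encard_coe_eq_coe_finsetCard] at h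
    exact_mod_cast h
  have hBX' : B' ⊆ X := by exact_mod_cast hBX
  have h2 : (X \ B').card = 1 := by
    rw [Finset.card_sdiff_of_subset hBX', h1, hX2]
    omega
  obtain ⟨x, hx⟩ := Finset.card_eq_one.mp h2
  have h3 : X ⊆ insert x B' := by
    intro z hz
    by_cases hzB : z ∈ B'
    · exact Finset.mem_insert_of_mem hzB
    · have h4 : z ∈ X \ B' := Finset.mem_sdiff.mpr ⟨hz, hzB⟩
      rw [hx] at h4
      rw [Finset.mem_singleton.mp h4]
      exact Finset.mem_insert_self _ _
  have h4 : (D : Set (Fin n)) ⊆ insert x (B' : Set (Fin n)) := by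
    rw [← Finset.coe_insert]
    exact Finset.coe_subset.mpr ((Finset.subset_union_left.trans hX1).trans h3)
  have h5 : (D' : Set (Fin n)) ⊆ insert x (B' : Set (Fin n)) := by
    rw [← Finset.coe_insert]
    exact Finset.coe_subset.mpr ((Finset.subset_union_right.trans hX1).trans h3)
  have h6 := hD.eq_fundCircuit_of_subset hB.indep h4
  have h7 := hD'.eq_fundCircuit_of_subset hB.indep h5
  exact hne (Finset.coe_injective (h6.trans h7.symm))

open Classical in
/-- the circuits with at most `k + 1` elements -/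
private noncomputable def m4_cs (k : ℕ) (M : Matroid (Fin n)) : Finset (Finset (Fin n)) :=
  univ.filter (fun D => D.card ≤ k + 1 ∧ M.IsCircuit (D : Set (Fin n)))

private theorem m4_mem {k : ℕ} {M : Matroid (Fin n)} {D : Finset (Fin n)} :
    D ∈ m4_cs k M ↔ D.card ≤ k + 1 ∧ M.IsCircuit (D : Set (Fin n)) := by
  classical
  simp [m4_cs]

private theorem m4_base {k : ℕ} {M : Matroid (Fin n)} (hE : M.E = Set.univ)
    (hr : M.eRank = ((k + 1 : ℕ) : ℕ∞)) (B : Set (Fin n)) :
    M.IsBase B ↔ B.encard = ((k + 1 : ℕ) : ℕ∞) ∧ ∀ D ∈ m4_cs k M, ¬ (D : Set (Fin n)) ⊆ B := by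
  constructor
  · intro hB
    refine ⟨by rw [hB.encard_eq_eRank, hr], fun D hD hDB => ?_⟩
    exact (m4_mem.mp hD).2.not_indep (hB.indep.subset hDB)
  · rintro ⟨h1, h2⟩
    have hI : M.Indep B := by
      rw [Matroid.indep_iff_forall_subset_not_isCircuit (by rw [hE]; exact Set.subset_univ _)]
      intro C hC hCc
      obtain ⟨D, rfl⟩ : ∃ D : Finset (Fin n), C = (D : Set (Fin n)) :=
        ⟨C.toFinite.toFinset, (Set.Finite.coe_toFinset _).symm⟩
      refine h2 D (m4_mem.mpr ⟨?_, hCc⟩) hC
      have h3 := Set.encard_le_encard hC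
      rw [h1, Set.encard_coe_eq_coe_finsetCard] at h3
      exact_mod_cast h3
    exact hI.isBase_of_eRk_ge B.toFinite (by rw [hI.eRk_eq_encard, h1, hr])

theorem pav_le {k : ℕ} (hk : 2 ≤ k) (hn : k + 3 ≤ n) :
    Nat.card {M : Mat n // M.1.eRank = ((k + 1 : ℕ) : ℕ∞) ∧ Paving M.1✶} ≤
      (n + 2) * (FF n k 0).card := by
  classical
  -- the code
  have hcode : ∀ M : {M : Mat n // M.1.eRank = ((k + 1 : ℕ) : ℕ∞) ∧ Paving M.1✶},
      ∃ p : {F // F ∈ FF n k 0} × Option (Fin n),
        m4_cs k M.1.1 = match p.2 with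
          | none => p.1.1
          | some x => {{x}} := by
    intro M
    have hE := M.1.2
    have hr := M.2.1
    have hp := M.2.2
    by_cases hl : ∃ D ∈ m4_cs k M.1.1, D.card ≤ 1
    · obtain ⟨D, hD, hDc⟩ := hl
      obtain ⟨hD1, hD2⟩ := m4_mem.mp hD
      have hDne : D.Nonempty := by
        have := hD2.nonempty
        exact_mod_cast this
      have hDc1 : D.card = 1 := le_antisymm hDc (Finset.card_pos.mpr hDne)
      obtain ⟨x, rfl⟩ := Finset.card_eq_one.mp hDc1
      have hempty : (∅ : Finset (Finset (Fin n))) ∈ FF n k 0 := by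
        refine Finset.mem_filter.mpr ⟨Finset.mem_univ _, ?_, ?_, ?_, ?_, ?_⟩ <;> simp
      refine ⟨(⟨∅, hempty⟩, some x), ?_⟩
      show m4_cs k M.1.1 = {{x}}
      ext D'
      rw [Finset.mem_singleton]
      constructor
      · intro hD'
        obtain ⟨hD'1, hD'2⟩ := m4_mem.mp hD'
        by_contra hne
        have h1 := m4_union hn hE hr hp hD'2 hD2 hne
        have h2 := Finset.card_union_le D' {x}
        rw [Finset.card_singleton] at h2
        omega
      · rintro rfl
        exact hD
    · push Not at hl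
      have hF : m4_cs k M.1.1 ∈ FF n k 0 := by
        refine Finset.mem_filter.mpr ⟨Finset.mem_univ _, ?_, ?_, ?_, ?_, ?_⟩
        · intro D hD
          have h1 := hl D hD
          have h2 := (m4_mem.mp hD).1
          omega
        · intro D hD D' hD' hne _ _
          exact m4_union hn hE hr hp (m4_mem.mp hD).2 (m4_mem.mp hD').2 hne
        · intro D _ B hB _ hBc
          have := (m4_mem.mp hB).1
          omega
        · intro B hB B' _ _ hBc _
          have := (m4_mem.mp hB).1
          omega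
        · rw [Finset.card_eq_zero, Finset.filter_eq_empty_iff]
          intro D hD hc
          have := (m4_mem.mp hD).1
          omega
      exact ⟨(⟨_, hF⟩, none), rfl⟩
  choose f hf using hcode
  have hinj : Function.Injective f := by
    intro M N h
    have h1 : m4_cs k M.1.1 = m4_cs k N.1.1 := by rw [hf M, hf N, h]
    apply Subtype.ext
    apply Subtype.ext
    refine Matroid.ext_isBase (by rw [M.1.2, N.1.2]) (fun B _ => ?_)
    rw [m4_base M.1.2 M.2.1, m4_base N.1.2 N.2.1, h1]
  have h := Nat.card_le_card_of_injective f hinj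
  rw [Nat.card_prod] at h
  have h1 : Nat.card {F // F ∈ FF n k 0} = (FF n k 0).card := by
    rw [Nat.card_eq_fintype_card, Fintype.card_coe]
  have h2 : Nat.card (Option (Fin n)) = n + 1 := by
    rw [Nat.card_eq_fintype_card, Fintype.card_option, Fintype.card_fin]
  rw [h1, h2] at h
  calc _ ≤ (FF n k 0).card * (n + 1) := h
    _ ≤ (n + 2) * (FF n k 0).card := by
        rw [mul_comm]
        exact Nat.mul_le_mul_right _ (by omega)

end Pool.Agent.FCR
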