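import Pool.Agent.FCR.Iter
import Pool.Agent.FCR.MatC
import Pool.Agent.FCR.Pav
import Pool.Agent.H83Pav.Iff

/-!
MP_039b14_co, fixed corank, M5: labelled matroids of rank `n - (k + 1)`.
-/

set_option autoImplicit false

namespace Pool.Agent.FCR

open Finset H38Pav

variable {n : ℕ}

namespace L43

theorem dual_dual (M : Mat n) : H83Pav.dual (H83Pav.dual M) = M :=
  Subtype.ext (Matroid.dual_dual M.1)

/-- duality of labelled matroids -/
noncomputable def dualE (n : ℕ) : Mat n ≃ Mat n :=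
  ⟨H83Pav.dual, H83Pav.dual, dual_dual, dual_dual⟩

theorem rank_add (M : Mat n) : M.1.eRank + (H83Pav.dual M).1.eRank = (n : ℕ∞) := by
  have h := M.1.eRank_add_eRank_dual
  rw [M.2, Set.encard_univ, ENat.card_eq_coe_fintype_card, Fintype.card_fin] at h
  exact h

theorem rank_ne_top (M : Mat n) : M.1.eRank ≠ ⊤ := by
  intro h
  have h1 := rank_add M
  rw [h, top_add] at h1
  exact absurd h1.symm (ENat.natCast_ne_top n)

theorem rank_iff (r : ℕ) (M : Mat n) :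
    M.1.eRank + (r : ℕ∞) = n ↔ (H83Pav.dual M).1.eRank = (r : ℕ∞) := by
  have h := rank_add M
  constructor
  · intro h1
    rw [← h] at h1
    exact (ENat.add_right_injective_of_ne_top (rank_ne_top M) h1).symm
  · intro h1
    rw [h1] at h
    exact h

theorem lab_eq (n r : ℕ) : Nat.card {M : Mat n // M.1.eRank + (r : ℕ∞) = n} =
    Nat.card {M : Mat n // M.1.eRank = (r : ℕ∞)} :=
  Nat.card_congr ((dualE n).subtypeEquiv (fun M => rank_iff r M))

theorem lab_le (n r : ℕ) : Nat.card {M : Mat n // M.1.eRank + (r : ℕ∞) = n ∧ ¬ HasMG M.1} ≤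
    Nat.card {M : Mat n // M.1.eRank = (r : ℕ∞) ∧ Paving M.1✶} := by
  refine Nat.card_le_card_of_injective (fun M => ⟨H83Pav.dual M.1, (rank_iff r M.1).1 M.2.1, ?_⟩) ?_
  · have e1 : (H83Pav.dual M.1).1✶ = M.1.1 := Matroid.dual_dual M.1.1
    rw [e1]
    by_contra hp
    exact M.2.2 (H83Pav.hasMG_of_not_paving M.1.1 hp)
  · intro M M' h
    exact Subtype.ext ((dualE n).injective (congrArg (fun x => x.1) h))

theorem empty_mem (n k : ℕ) : (∅ : Finset (Finset (Fin n))) ∈ FF n k 0 := by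
  classical
  simp [FF, IsFam]

theorem pow_le {n : ℕ} (hn : 2 ≤ n) : n ^ (2 * n) * (n + 2) ≤ n ^ (3 * n) := by
  have h1 : n ^ (3 * n) = n ^ (2 * n) * n ^ n := by
    rw [← pow_add]
    congr 1
    omega
  rw [h1]
  refine Nat.mul_le_mul_left _ ?_
  calc n + 2 ≤ n + n := by omega
    _ = 2 * n := by ring
    _ ≤ n * n := Nat.mul_le_mul_right _ hn
    _ = n ^ 2 := by ring
    _ ≤ n ^ n := Nat.pow_le_pow_right (by omega) hn

end L43

/-- M5 -/
theorem lab (k : ℕ) (hk : 2 ≤ k) : ∃ n0 : ℕ, ∀ n : ℕ, n0 ≤ n →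
    0 < Nat.card {M : Mat n // M.1.eRank + ((k + 1 : ℕ) : ℕ∞) = n} ∧
    n ^ (2 * n) * Nat.card {M : Mat n // M.1.eRank + ((k + 1 : ℕ) : ℕ∞) = n ∧ ¬ HasMG M.1} ≤
      Nat.card {M : Mat n // M.1.eRank + ((k + 1 : ℕ) : ℕ∞) = n} := by
  obtain ⟨n1, h1⟩ := iter k hk
  refine ⟨max n1 (k + 3), fun n hn => ?_⟩
  have hn1 : n1 ≤ n := (le_max_left _ _).trans hn
  have hn2 : k + 3 ≤ n := (le_max_right _ _).trans hn
  refine ⟨?_, ?_⟩
  · rw [L43.lab_eq]
    refine lt_of_lt_of_le ?_ (ff_le_mat (t := 0) hk hn2)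
    exact Finset.card_pos.2 ⟨∅, L43.empty_mem n k⟩
  · rw [L43.lab_eq]
    calc n ^ (2 * n) *
          Nat.card {M : Mat n // M.1.eRank + ((k + 1 : ℕ) : ℕ∞) = n ∧ ¬ HasMG M.1}
        ≤ n ^ (2 * n) * ((n + 2) * (FF n k 0).card) :=
          Nat.mul_le_mul_left _ ((L43.lab_le n (k + 1)).trans (pav_le hk hn2))
      _ = n ^ (2 * n) * (n + 2) * (FF n k 0).card := by ring
      _ ≤ n ^ (3 * n) * (FF n k 0).card := Nat.mul_le_mul_right _ (L43.pow_le (by omega))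
      _ ≤ (FF n k (6 * n)).card := h1 n hn1
      _ ≤ _ := ff_le_mat (t := 6 * n) hk hn2

end Pool.Agent.FCR
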