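import Pool.Agent.FCR.Add

/-!
MP_039b14_co, fixed corank: the members with `k + 1` elements and the uncovered sets.
-/

set_option autoImplicit false

namespace Pool.Agent.FCR

open Finset

variable {n : ℕ}

theorem rmem_le {k t : ℕ} {F : Finset (Finset (Fin n))} (hF : F ∈ FF n k t) :
    (k + 1) * (rmem k F).card ≤ n.choose k := by
  classical
  rw [FF, mem_filter] at hF
  obtain ⟨-, -, hb, -, -, -⟩ := hF
  have hdis : ((rmem k F : Finset (Finset (Fin n))) : Set (Finset (Fin n))).PairwiseDisjoint
      (fun Y => Y.powersetCard k) := by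
    intro Y hY Y' hY' hne
    obtain ⟨hYF, hYc⟩ := mem_filter.1 (mem_coe.1 hY)
    obtain ⟨hYF', hYc'⟩ := mem_filter.1 (mem_coe.1 hY')
    apply disjoint_left.2
    intro T hT hT'
    obtain ⟨hTY, hTc⟩ := mem_powersetCard.1 hT
    obtain ⟨hTY', -⟩ := mem_powersetCard.1 hT'
    have h1 := hb Y hYF Y' hYF' hne (by omega) (by omega)
    have h2 := card_union_add_card_inter Y Y'
    have h3 : T.card ≤ (Y ∩ Y').card := card_le_card (subset_inter hTY hTY')
    omega
  have h1 : ((rmem k F).biUnion fun Y => Y.powersetCard k).card = (rmem k F).card * (k + 1) := by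
    rw [card_biUnion (fun Y hY Y' hY' hne => hdis hY hY' hne)]
    apply sum_const_nat
    intro Y hY
    rw [card_powersetCard, (mem_filter.1 hY).2, Nat.choose_succ_self_right]
  have h2 : ((rmem k F).biUnion fun Y => Y.powersetCard k) ⊆ sets n k := by
    intro T hT
    obtain ⟨Y, -, hT⟩ := mem_biUnion.1 hT
    exact mem_powersetCard.2 ⟨subset_univ T, (mem_powersetCard.1 hT).2⟩
  have h3 := card_le_card h2
  rw [h1, sets, card_powersetCard, card_univ, Fintype.card_fin] at h3
  rw [mul_comm]
  exact h3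

open Classical in
theorem unc (n k t : ℕ) (hk : 2 ≤ k) :
    ∑ F ∈ FF n k t, ∑ T ∈ (sets n k).filter (fun T => ¬ Cov k F T), (CF k F T).card ≤
      n.choose k * (FF n k t).card := by
  have h1 : ∑ F ∈ FF n k t, ∑ T ∈ (sets n k).filter (fun T => ¬ Cov k F T), (CF k F T).card =
      ((FF n k t).sigma fun F => ((sets n k).filter (fun T => ¬ Cov k F T)).sigma
        fun T => CF k F T).card := by
    rw [card_sigma]
    apply sum_congr rfl
    intro F _
    rw [card_sigma]
  have h2 : ((FF n k t).sigma fun F => (rmem k F).sigma fun R => R).card ≤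
      n.choose k * (FF n k t).card := by
    rw [card_sigma, mul_comm, ← smul_eq_mul]
    apply sum_le_card_nsmul
    intro F hF
    rw [card_sigma]
    have h3 : ∑ R ∈ rmem k F, R.card = (rmem k F).card * (k + 1) :=
      sum_const_nat (fun R hR => (mem_filter.1 hR).2)
    rw [h3, mul_comm]
    exact rmem_le hF
  rw [h1]
  refine le_trans ?_ h2
  apply card_le_card_of_injOn
    (fun x => ⟨insert (insert x.2.2 x.2.1) x.1, ⟨insert x.2.2 x.2.1, x.2.2⟩⟩)
  · rintro ⟨F, T, s⟩ hx
    obtain ⟨hF, hx⟩ := mem_sigma.1 (mem_coe.1 hx)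
    obtain ⟨hT, hs⟩ := mem_sigma.1 hx
    obtain ⟨hT1, hT2⟩ := mem_filter.1 hT
    obtain ⟨-, hs1, hs2⟩ := mem_filter.1 hs
    have hTc : T.card = k := (mem_powersetCard.1 hT1).2
    change F ∈ FF n k t at hF
    change s ∉ T at hs1
    change ∀ a ∈ T, ¬ Cov k F (insert s (T.erase a)) at hs2
    have hR : (insert s T).card = k + 1 := by rw [card_insert_of_notMem hs1, hTc]
    have hadd := add_mem hk hF hR (by
      intro a ha
      rcases mem_insert.1 ha with rfl | ha
      · rw [erase_insert hs1]
        exact hT2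
      · rw [erase_insert_of_ne (by rintro rfl; exact hs1 ha)]
        exact hs2 a ha)
    refine mem_coe.2 (mem_sigma.2 ⟨hadd.2, mem_sigma.2 ⟨?_, ?_⟩⟩)
    · exact mem_filter.2 ⟨mem_insert_self _ _, hR⟩
    · exact mem_insert_self s T
  · rintro ⟨F, T, s⟩ hx ⟨F', T', s'⟩ hx' h
    have key : ∀ (F T : Finset _) (s : Fin n), (⟨F, ⟨T, s⟩⟩ : (_ : Finset (Finset (Fin n))) ×
        (_ : Finset (Fin n)) × Fin n) ∈ ((FF n k t).sigma fun F =>
          ((sets n k).filter (fun T => ¬ Cov k F T)).sigma fun T => CF k F T) →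
        s ∉ T ∧ insert s T ∉ F := by
      intro F T s hx
      obtain ⟨hF, hx⟩ := mem_sigma.1 hx
      obtain ⟨hT, hs⟩ := mem_sigma.1 hx
      obtain ⟨hT1, hT2⟩ := mem_filter.1 hT
      obtain ⟨-, hs1, hs2⟩ := mem_filter.1 hs
      have hTc : T.card = k := (mem_powersetCard.1 hT1).2
      change F ∈ FF n k t at hF
      change s ∉ T at hs1
      change ∀ a ∈ T, ¬ Cov k F (insert s (T.erase a)) at hs2
      have hR : (insert s T).card = k + 1 := by rw [card_insert_of_notMem hs1, hTc]
      have hadd := add_mem hk hF hR (by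
        intro a ha
        rcases mem_insert.1 ha with rfl | ha
        · rw [erase_insert hs1]
          exact hT2
        · rw [erase_insert_of_ne (by rintro rfl; exact hs1 ha)]
          exact hs2 a ha)
      exact ⟨hs1, hadd.1⟩
    obtain ⟨a1, a2⟩ := key F T s (mem_coe.1 hx)
    obtain ⟨b1, b2⟩ := key F' T' s' (mem_coe.1 hx')
    have e1 : insert (insert s T) F = insert (insert s' T') F' := congrArg Sigma.fst h
    have e2 := (Sigma.mk.inj h).2
    have e3 := eq_of_heq e2
    have e4 : insert s T = insert s' T' := congrArg Sigma.fst e3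
    have e5 : s = s' := by
      have h5 := (Sigma.mk.inj e3).2
      exact eq_of_heq h5
    subst e5
    have e6 : T = T' := by
      rw [← erase_insert a1, ← erase_insert b1, e4]
    subst e6
    have e7 : F = F' := by
      rw [← erase_insert a2, ← erase_insert b2, e1]
    rw [e7]

end Pool.Agent.FCR
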