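import Pool.Agent.FCR.SumCov
import Pool.Agent.FCR.Unc
import Pool.Agent.FCR.RestC

/-!
MP_039b14_co, fixed corank: the sum of all weights.
-/

set_option autoImplicit false

namespace Pool.Agent.FCR

open Finset

variable {n : ℕ}

namespace D2

/-- the logarithm of `1 + c` -/
noncomputable def lg (k : ℕ) (F : Finset (Finset (Fin n))) (T : Finset (Fin n)) : ℝ :=
  Real.log (1 + ((CF k F T).card : ℝ))

theorem lg_nonneg (k : ℕ) (F : Finset (Finset (Fin n))) (T : Finset (Fin n)) : 0 ≤ lg k F T :=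
  Real.log_nonneg (by
    have : (0 : ℝ) ≤ ((CF k F T).card : ℝ) := Nat.cast_nonneg _
    linarith)

theorem lg_le (k : ℕ) (F : Finset (Finset (Fin n))) (T : Finset (Fin n)) :
    lg k F T ≤ ((CF k F T).card : ℝ) := by
  unfold lg
  have h : (0 : ℝ) ≤ ((CF k F T).card : ℝ) := Nat.cast_nonneg _
  have h1 := Real.log_le_sub_one_of_pos (show (0 : ℝ) < 1 + ((CF k F T).card : ℝ) by linarith)
  linarith

theorem lg_le_n (k : ℕ) (F : Finset (Finset (Fin n))) (T : Finset (Fin n)) : lg k F T ≤ n := by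
  refine (lg_le k F T).trans ?_
  have h := Finset.card_le_univ (CF k F T)
  rw [Fintype.card_fin] at h
  exact_mod_cast h

theorem lw_le (k : ℕ) (F : Finset (Finset (Fin n))) (T : Finset (Fin n)) :
    lw k F T ≤ Real.log (KK k) + lg k F T := by
  unfold lw lg
  have hK : (1 : ℝ) ≤ (KK k : ℝ) := by
    have : 1 ≤ KK k := by unfold KK; omega
    exact_mod_cast this
  have h : (0 : ℝ) ≤ ((CF k F T).card : ℝ) := Nat.cast_nonneg _
  rw [← Real.log_mul (by linarith) (by linarith)]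
  apply Real.log_le_log (by linarith)
  nlinarith

theorem sets_card (n j : ℕ) : (sets n j).card = n.choose j := by
  unfold sets
  rw [Finset.card_powersetCard, Finset.card_univ, Fintype.card_fin]

/-- a covered set outside `rest` lies under a member with `k + 1` elements -/
theorem cov_cases {k : ℕ} {F : Finset (Finset (Fin n))} {T : Finset (Fin n)}
    (hT : T ∈ sets n k) (hc : Cov k F T) (hr : T ∉ rest k F) :
    ∃ Y ∈ rmem k F, ∃ y ∈ Y, Y.erase y = T := by
  classical
  have hTc : T.card = k := (Finset.mem_powersetCard.1 hT).2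
  obtain ⟨D, hD, ⟨h1, h2⟩ | ⟨h1, h2⟩⟩ := hc
  · by_cases h3 : D.card ≤ k
    · exfalso
      apply hr
      unfold rest
      rw [mem_filter]
      refine ⟨hT, Or.inl ?_⟩
      unfold near
      rw [mem_filter]
      exact ⟨hT, D, hD, h3, h2⟩
    · have hDc : D.card = k + 1 := by omega
      refine ⟨D, ?_, ?_⟩
      · unfold rmem
        rw [mem_filter]
        exact ⟨hD, hDc⟩
      · have h4 := Finset.card_sdiff_add_card_inter D T
        have h5 : (D ∩ T).card ≤ T.card := Finset.card_le_card Finset.inter_subset_right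
        have h6 : (D \ T).card = 1 := by omega
        obtain ⟨y, hy⟩ := Finset.card_eq_one.1 h6
        have h7 : D ∩ T = T := by
          apply Finset.eq_of_subset_of_card_le Finset.inter_subset_right
          omega
        have hyD : y ∈ D := by
          have : y ∈ D \ T := by rw [hy]; exact mem_singleton_self y
          exact (mem_sdiff.1 this).1
        refine ⟨y, hyD, ?_⟩
        symm
        apply Finset.eq_of_subset_of_card_le
        · intro x hx
          rw [mem_erase]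
          refine ⟨?_, ?_⟩
          · rintro rfl
            have : x ∈ D \ T := by rw [hy]; exact mem_singleton_self x
            exact (mem_sdiff.1 this).2 hx
          · rw [← h7] at hx
            exact (mem_inter.1 hx).1
        · rw [Finset.card_erase_of_mem hyD]
          omega
  · exfalso
    apply hr
    unfold rest
    rw [mem_filter]
    exact ⟨hT, Or.inr ⟨D, hD, h1, h2⟩⟩

open Classical in
/-- splitting the sum over all `T` for one family -/
theorem split_one (k : ℕ) (F : Finset (Finset (Fin n))) :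
    ∑ T ∈ sets n k, lg k F T ≤
      ∑ T ∈ (sets n k).filter (fun T => ¬ Cov k F T), ((CF k F T).card : ℝ) +
      ((rest k F).card : ℝ) * n +
      ∑ Y ∈ rmem k F, ∑ y ∈ Y, lg k F (Y.erase y) := by
  have h0 := Finset.sum_filter_add_sum_filter_not (sets n k) (fun T => Cov k F T) (lg k F)
  have h1 : ∑ T ∈ (sets n k).filter (fun T => ¬ Cov k F T), lg k F T ≤
      ∑ T ∈ (sets n k).filter (fun T => ¬ Cov k F T), ((CF k F T).card : ℝ) :=
    Finset.sum_le_sum fun T _ => lg_le k F T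
  have h2 : ∑ T ∈ (sets n k).filter (fun T => Cov k F T), lg k F T ≤
      ∑ T ∈ rest k F, lg k F T + ∑ Y ∈ rmem k F, ∑ y ∈ Y, lg k F (Y.erase y) := by
    have hsub : (sets n k).filter (fun T => Cov k F T) ⊆
        rest k F ∪ ((rmem k F).sigma (fun Y => Y)).image (fun p => p.1.erase p.2) := by
      intro T hT
      rw [mem_filter] at hT
      rw [mem_union]
      by_cases hr : T ∈ rest k F
      · exact Or.inl hr
      · right
        obtain ⟨Y, hY, y, hy, hyT⟩ := cov_cases hT.1 hT.2 hr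
        rw [mem_image]
        exact ⟨⟨Y, y⟩, mem_sigma.2 ⟨hY, hy⟩, hyT⟩
    calc ∑ T ∈ (sets n k).filter (fun T => Cov k F T), lg k F T
        ≤ ∑ T ∈ rest k F ∪ ((rmem k F).sigma (fun Y => Y)).image (fun p => p.1.erase p.2),
            lg k F T :=
          Finset.sum_le_sum_of_subset_of_nonneg hsub fun T _ _ => lg_nonneg k F T
      _ ≤ ∑ T ∈ rest k F, lg k F T +
            ∑ T ∈ ((rmem k F).sigma (fun Y => Y)).image (fun p => p.1.erase p.2), lg k F T := by
          rw [← Finset.sum_union_inter]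
          have : 0 ≤ ∑ T ∈ rest k F ∩ ((rmem k F).sigma (fun Y => Y)).image
              (fun p => p.1.erase p.2), lg k F T :=
            Finset.sum_nonneg fun T _ => lg_nonneg k F T
          linarith
      _ ≤ ∑ T ∈ rest k F, lg k F T + ∑ Y ∈ rmem k F, ∑ y ∈ Y, lg k F (Y.erase y) := by
          have h3 : ∑ T ∈ ((rmem k F).sigma (fun Y => Y)).image (fun p => p.1.erase p.2),
              lg k F T ≤ ∑ p ∈ (rmem k F).sigma (fun Y => Y), lg k F (p.1.erase p.2) :=
            Finset.sum_image_le_of_nonneg fun p _ => lg_nonneg k F _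
          rw [Finset.sum_sigma] at h3
          linarith
  have h3 : ∑ T ∈ rest k F, lg k F T ≤ ((rest k F).card : ℝ) * n := by
    calc ∑ T ∈ rest k F, lg k F T ≤ ∑ T ∈ rest k F, (n : ℝ) :=
          Finset.sum_le_sum fun T _ => lg_le_n k F T
      _ = ((rest k F).card : ℝ) * n := by rw [Finset.sum_const, nsmul_eq_mul]
  linarith

theorem pow_le {n k : ℕ} (hn : 2 * k ≤ n) :
    (n : ℝ) ^ k ≤ 2 ^ k * (k.factorial : ℝ) * (n.choose k : ℝ) := by
  have h1 : ((n + 1 - k : ℕ) : ℝ) ^ k ≤ (k.factorial : ℝ) * (n.choose k : ℝ) := by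
    have h := Nat.pow_le_choose (α := ℝ) k n
    rw [div_le_iff₀ (by exact_mod_cast k.factorial_pos)] at h
    rw [mul_comm]
    exact_mod_cast h
  have h2 : (n : ℝ) ≤ 2 * ((n + 1 - k : ℕ) : ℝ) := by
    have : n ≤ 2 * (n + 1 - k) := by omega
    exact_mod_cast this
  calc (n : ℝ) ^ k ≤ (2 * ((n + 1 - k : ℕ) : ℝ)) ^ k :=
        pow_le_pow_left₀ (Nat.cast_nonneg _) h2 k
    _ = 2 ^ k * ((n + 1 - k : ℕ) : ℝ) ^ k := mul_pow _ _ _
    _ ≤ 2 ^ k * ((k.factorial : ℝ) * (n.choose k : ℝ)) :=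
        mul_le_mul_of_nonneg_left h1 (by positivity)
    _ = _ := by ring

theorem rest_bound {k t : ℕ} (hk : 2 ≤ k) (hn : 2 * k ≤ n) (ht : t ≤ 6 * n)
    {F : Finset (Finset (Fin n))} (hF : F ∈ FF n k t) :
    ((rest k F).card : ℝ) * n ≤
      (2 * k + 6 * ((k : ℝ) + 2) ^ 2) * (2 ^ k * (k.factorial : ℝ)) * (n.choose k : ℝ) := by
  have h1 := rest_le hk hF
  have h2 : (rest k F).card * n ≤ (2 * k + 6 * (k + 2) ^ 2) * n ^ k := by
    obtain ⟨j, rfl⟩ : ∃ j, k = j + 2 := ⟨k - 2, by omega⟩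
    have e1 : j + 2 - 1 = j + 1 := rfl
    rw [e1] at h1
    have h3 : n ^ 2 ≤ n ^ (j + 2) := Nat.pow_le_pow_right (by omega) (by omega)
    calc (rest (j + 2) F).card * n
        ≤ (2 * (j + 2) * n ^ (j + 1) + t * (j + 2 + 2) ^ 2) * n := Nat.mul_le_mul_right _ h1
      _ ≤ (2 * (j + 2) * n ^ (j + 1) + (6 * n) * (j + 2 + 2) ^ 2) * n :=
          Nat.mul_le_mul_right _ (Nat.add_le_add_left (Nat.mul_le_mul_right _ ht) _)
      _ = 2 * (j + 2) * n ^ (j + 2) + 6 * (j + 2 + 2) ^ 2 * n ^ 2 := by ring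
      _ ≤ 2 * (j + 2) * n ^ (j + 2) + 6 * (j + 2 + 2) ^ 2 * n ^ (j + 2) :=
          Nat.add_le_add_left (Nat.mul_le_mul_left _ h3) _
      _ = _ := by ring
  have h3 : ((rest k F).card : ℝ) * n ≤ (2 * k + 6 * ((k : ℝ) + 2) ^ 2) * (n : ℝ) ^ k := by
    exact_mod_cast h2
  refine h3.trans ?_
  rw [mul_assoc]
  exact mul_le_mul_of_nonneg_left (pow_le hn) (by positivity)

end D2

open D2 in
theorem sum_lw (k : ℕ) (hk : 2 ≤ k) : ∃ C0 : ℝ, 0 ≤ C0 ∧ ∀ n t : ℕ, 2 * k ≤ n → t ≤ 6 * n →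
    ∑ F ∈ FF n k t, ∑ T ∈ sets n k, lw k F T ≤
      ((FF n k t).card : ℝ) * (n.choose k : ℝ) * (Real.log n / (k + 1) + C0) := by
  classical
  have hK : 0 ≤ Real.log (KK k) := Real.log_nonneg (by
    have : 1 ≤ KK k := by unfold KK; omega
    exact_mod_cast this)
  refine ⟨Real.log (KK k) + 1 +
    (2 * k + 6 * ((k : ℝ) + 2) ^ 2) * (2 ^ k * (k.factorial : ℝ)) + ((k : ℝ) + 1) ^ (k + 1),
    by positivity, ?_⟩
  intro n t hn ht
  have h1 := sum_cov n k t hk (by omega)
  have h2 := unc n k t hk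
  have h2' : ∑ F ∈ FF n k t, ∑ T ∈ (sets n k).filter (fun T => ¬ Cov k F T),
      ((CF k F T).card : ℝ) ≤ (n.choose k : ℝ) * ((FF n k t).card : ℝ) := by
    exact_mod_cast h2
  have h3 : ∀ F ∈ FF n k t, ∑ T ∈ sets n k, lw k F T ≤
      (n.choose k : ℝ) * Real.log (KK k) +
      (∑ T ∈ (sets n k).filter (fun T => ¬ Cov k F T), ((CF k F T).card : ℝ) +
      (2 * k + 6 * ((k : ℝ) + 2) ^ 2) * (2 ^ k * (k.factorial : ℝ)) * (n.choose k : ℝ) +
      ∑ Y ∈ rmem k F, ∑ y ∈ Y, Real.log (1 + ((CF k F (Y.erase y)).card : ℝ))) := by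
    intro F hF
    have h4 : ∑ T ∈ sets n k, lw k F T ≤ ∑ T ∈ sets n k, (Real.log (KK k) + lg k F T) :=
      Finset.sum_le_sum fun T _ => lw_le k F T
    rw [Finset.sum_add_distrib, Finset.sum_const, sets_card, nsmul_eq_mul] at h4
    have h5 := split_one k F
    have h6 := rest_bound hk hn ht hF
    unfold lg at h4 h5
    linarith
  refine (Finset.sum_le_sum h3).trans ?_
  rw [Finset.sum_add_distrib, Finset.sum_add_distrib, Finset.sum_add_distrib, Finset.sum_const,
    Finset.sum_const, nsmul_eq_mul, nsmul_eq_mul]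
  have e : ((FF n k t).card : ℝ) * (n.choose k : ℝ) * (Real.log n / (k + 1) + (Real.log (KK k) + 1 +
      (2 * k + 6 * ((k : ℝ) + 2) ^ 2) * (2 ^ k * (k.factorial : ℝ)) + ((k : ℝ) + 1) ^ (k + 1))) =
      ((FF n k t).card : ℝ) * ((n.choose k : ℝ) * Real.log (KK k)) +
      ((n.choose k : ℝ) * ((FF n k t).card : ℝ) +
      ((FF n k t).card : ℝ) *
        ((2 * k + 6 * ((k : ℝ) + 2) ^ 2) * (2 ^ k * (k.factorial : ℝ)) * (n.choose k : ℝ)) +
      ((FF n k t).card : ℝ) * (n.choose k : ℝ) *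
        (Real.log n / (k + 1) + ((k : ℝ) + 1) ^ (k + 1))) := by ring
  rw [e]
  linarith

end Pool.Agent.FCR
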