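import Pool.Agent.FCR.Defs

/-!
MP_039b14_co, fixed corank, module A1: the switch stays in the class.
-/

set_option autoImplicit false

namespace Pool.Agent.FCR

open Finset

variable {n : ℕ}

theorem self_mem_sw (k : ℕ) (F : Finset (Finset (Fin n))) (Z : Finset (Fin n)) :
    Z ∈ sw k F Z := mem_insert_self _ _

theorem sw_mem {k t : ℕ} (hk : 2 ≤ k) {F : Finset (Finset (Fin n))} (hF : F ∈ FF n k t)
    {Z : Finset (Fin n)} (hZ : Good k F Z) : sw k F Z ∈ FF n k (t + 1) := by
  classical
  obtain ⟨hZc, hZg⟩ := hZ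
  simp only [FF, mem_filter, mem_univ, true_and] at hF ⊢
  obtain ⟨h1, h2, h3, h4, h5⟩ := hF
  have hZF : Z ∉ F := by
    intro h
    have := (hZg Z h).2 hZc
    rw [inter_self] at this
    omega
  have hmem : ∀ D ∈ sw k F Z, D = Z ∨ (D ∈ F ∧ ¬ (D.card = k + 1 ∧ k ≤ (D ∩ Z).card)) := by
    intro D hD
    rcases mem_insert.1 hD with h | h
    · exact Or.inl h
    · exact Or.inr (mem_filter.1 h)
  refine ⟨fun D hD => ?_, fun D hD D' hD' hne hc hc' => ?_, fun D hD B hB hc hc' => ?_,
    fun B hB B' hB' hne hc hc' => ?_, ?_⟩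
  · rcases hmem D hD with rfl | ⟨h, -⟩
    · omega
    · exact h1 D h
  · rcases hmem D hD with rfl | ⟨h, -⟩
    · omega
    · rcases hmem D' hD' with rfl | ⟨h', -⟩
      · omega
      · exact h2 D h D' h' hne hc hc'
  · rcases hmem D hD with rfl | ⟨h, hn⟩
    · omega
    · rcases hmem B hB with rfl | ⟨h', -⟩
      · rcases Nat.lt_or_ge k D.card with hlt | hle
        · have hck : D.card = k + 1 := by omega
          have h6 : ¬ k ≤ (D ∩ B).card := fun h => hn ⟨hck, h⟩
          have h7 := card_sdiff_add_card_inter D B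
          omega
        · exact (hZg D h).1 hle
      · exact h3 D h B h' hc hc'
  · rcases hmem B hB with h | ⟨h, -⟩
    · rcases hmem B' hB' with h' | ⟨h', -⟩
      · exact absurd (h.trans h'.symm) hne
      · rw [h, inter_comm]
        exact (hZg B' h').2 hc'
    · rcases hmem B' hB' with h' | ⟨h', -⟩
      · rw [h']
        exact (hZg B h).2 hc
      · exact h4 B h B' h' hne hc hc'
  · have h6 : (sw k F Z).filter (fun D => D.card = k + 2) =
        insert Z (F.filter (fun D => D.card = k + 2)) := by
      ext D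
      simp only [sw, mem_filter, mem_insert]
      constructor
      · rintro ⟨h | h, h'⟩
        · exact Or.inl h
        · exact Or.inr ⟨h.1, h'⟩
      · rintro (h | h)
        · exact ⟨Or.inl h, by rw [h]; exact hZc⟩
        · exact ⟨Or.inr ⟨h.1, fun h' => by omega⟩, h.2⟩
    have h7 : Z ∉ F.filter (fun D => D.card = k + 2) := fun h => hZF (mem_filter.1 h).1
    have h8 := card_insert_of_notMem h7
    rw [← h6, h5] at h8
    exact h8

end Pool.Agent.FCR
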