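import Pool.Agent.FCR.UCov
import Pool.Agent.FCR.SumAll

/-!
MP_039b14_co, small corank: the sum of all weights with an explicit constant.
-/

set_option autoImplicit false

namespace Pool.Agent.FCR

open Finset

variable {n : ℕ}

namespace UA

theorem factor_le (k : ℕ) : (4 * ((2 * k + 6 * (k + 2) ^ 2) * (2 ^ k * k.factorial))) ^ 2 ≤
    (k + 2) ^ (60 * (k + 2)) := by
  by_cases hk : 2 ≤ k
  · have h1 : 4 * (2 * k + 6 * (k + 2) ^ 2) ≤ (k + 2) ^ 5 := by
      have h2 : 4 * (2 * k + 6 * (k + 2) ^ 2) ≤ 32 * (k + 2) ^ 2 := by nlinarith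
      have h3 : 32 ≤ (k + 2) ^ 3 := by
        calc 32 ≤ 4 ^ 3 := by norm_num
          _ ≤ (k + 2) ^ 3 := Nat.pow_le_pow_left (by omega) 3
      calc 4 * (2 * k + 6 * (k + 2) ^ 2) ≤ 32 * (k + 2) ^ 2 := h2
        _ ≤ (k + 2) ^ 3 * (k + 2) ^ 2 := Nat.mul_le_mul_right _ h3
        _ = (k + 2) ^ 5 := by ring
    have h4 : 2 ^ k ≤ (k + 2) ^ k := Nat.pow_le_pow_left (by omega) k
    have h5 : k.factorial ≤ (k + 2) ^ k :=
      (Nat.factorial_le_pow k).trans (Nat.pow_le_pow_left (by omega) k)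
    have h6 : 4 * ((2 * k + 6 * (k + 2) ^ 2) * (2 ^ k * k.factorial)) ≤ (k + 2) ^ (5 + 2 * k) := by
      calc 4 * ((2 * k + 6 * (k + 2) ^ 2) * (2 ^ k * k.factorial)) =
          (4 * (2 * k + 6 * (k + 2) ^ 2)) * (2 ^ k * k.factorial) := by ring
        _ ≤ (k + 2) ^ 5 * ((k + 2) ^ k * (k + 2) ^ k) :=
          Nat.mul_le_mul h1 (Nat.mul_le_mul h4 h5)
        _ = (k + 2) ^ (5 + 2 * k) := by
          rw [← pow_add, ← pow_add]
          congr 1
          ring
    calc (4 * ((2 * k + 6 * (k + 2) ^ 2) * (2 ^ k * k.factorial))) ^ 2 ≤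
        ((k + 2) ^ (5 + 2 * k)) ^ 2 := Nat.pow_le_pow_left h6 2
      _ = (k + 2) ^ ((5 + 2 * k) * 2) := by rw [← pow_mul]
      _ ≤ (k + 2) ^ (60 * (k + 2)) := Nat.pow_le_pow_right (by omega) (by omega)
  · have : k = 0 ∨ k = 1 := by omega
    rcases this with rfl | rfl
    · norm_num
    · norm_num

theorem log_le_sqrt {n : ℕ} (hn : 1 ≤ n) : Real.log (1 + (n : ℝ)) ≤ 4 * Real.sqrt n := by
  have hn1 : (1 : ℝ) ≤ n := by exact_mod_cast hn
  have h1 : Real.log (1 + (n : ℝ)) = 2 * Real.log (Real.sqrt (1 + (n : ℝ))) := by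
    rw [Real.log_sqrt (by linarith)]
    ring
  have h2 : 0 < Real.sqrt (1 + (n : ℝ)) := Real.sqrt_pos.2 (by linarith)
  have h3 := Real.log_le_sub_one_of_pos h2
  have h4 : Real.sqrt (1 + (n : ℝ)) ≤ 2 * Real.sqrt n := by
    rw [show (2 : ℝ) * Real.sqrt n = Real.sqrt (4 * n) by
      rw [Real.sqrt_mul (by norm_num)]
      congr 1
      rw [show (4 : ℝ) = 2 ^ 2 by norm_num, Real.sqrt_sq (by norm_num)]]
    exact Real.sqrt_le_sqrt (by linarith)
  rw [h1]
  linarith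

theorem rest_bound {k t : ℕ} (hk : 2 ≤ k) (hn : BigN k n) (ht : t ≤ 6 * n)
    {F : Finset (Finset (Fin n))} (hF : F ∈ FF n k t) :
    ((rest k F).card : ℝ) * Real.log (1 + (n : ℝ)) ≤ (n.choose k : ℝ) := by
  have hn' : (4 * ((2 * k + 6 * (k + 2) ^ 2) * (2 ^ k * k.factorial))) ^ 2 ≤ n :=
    (factor_le k).trans hn
  obtain ⟨W, hW⟩ : ∃ W : ℕ, W = (2 * k + 6 * (k + 2) ^ 2) * (2 ^ k * k.factorial) := ⟨_, rfl⟩
  rw [← hW] at hn'
  have hpos : 1 ≤ 2 ^ k * k.factorial := Nat.mul_pos (by positivity) (Nat.factorial_pos k)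
  have hW1 : 2 * k + 6 * (k + 2) ^ 2 ≤ W := by
    rw [hW]
    exact Nat.le_mul_of_pos_right _ hpos
  have hWn : W ≤ n := by
    have : W ≤ (4 * W) ^ 2 := by nlinarith
    exact this.trans hn'
  have hn2 : 2 * k ≤ n := by
    have : 2 * k ≤ W := le_trans (by omega) hW1
    omega
  have hn1 : 1 ≤ n := by omega
  have h1 := rest_le hk hF
  have h2 : (rest k F).card * n ≤ (2 * k + 6 * (k + 2) ^ 2) * n ^ k := by
    obtain ⟨j, rfl⟩ : ∃ j, k = j + 2 := ⟨k - 2, by omega⟩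
    have e1 : j + 2 - 1 = j + 1 := rfl
    rw [e1] at h1
    have h3 : n ^ 2 ≤ n ^ (j + 2) := Nat.pow_le_pow_right (by omega) (by omega)
    calc (rest (j + 2) F).card * n
        ≤ (2 * (j + 2) * n ^ (j + 1) + t * (j + 2 + 2) ^ 2) * n := Nat.mul_le_mul_right _ h1
      _ ≤ (2 * (j + 2) * n ^ (j + 1) + (6 * n) * (j + 2 + 2) ^ 2) * n :=
          Nat.mul_le_mul_right _ (Nat.add_le_add_left (Nat.mul_le_mul_right _ ht) _)
      _ = 2 * (j + 2) * n ^ (j + 2) + 6 * (j + 2 + 2) ^ 2 * n ^ 2 := by ring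
      _ ≤ 2 * (j + 2) * n ^ (j + 2) + 6 * (j + 2 + 2) ^ 2 * n ^ (j + 2) :=
          Nat.add_le_add_left (Nat.mul_le_mul_left _ h3) _
      _ = _ := by ring
  have h3 : ((rest k F).card : ℝ) * n ≤ (2 * k + 6 * ((k : ℝ) + 2) ^ 2) * (n : ℝ) ^ k := by
    exact_mod_cast h2
  have h4 : ((rest k F).card : ℝ) * n ≤ (W : ℝ) * (n.choose k : ℝ) := by
    refine h3.trans ((mul_le_mul_of_nonneg_left (D2.pow_le hn2) (by positivity)).trans
      (le_of_eq ?_))
    rw [hW]
    push_cast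
    ring
  have hn0 : (0 : ℝ) < n := by exact_mod_cast hn1
  have h5 : 4 * (W : ℝ) ≤ Real.sqrt n := by
    apply Real.le_sqrt_of_sq_le
    exact_mod_cast hn'
  have h6 : (W : ℝ) * Real.log (1 + (n : ℝ)) ≤ n := by
    calc (W : ℝ) * Real.log (1 + (n : ℝ)) ≤ (W : ℝ) * (4 * Real.sqrt n) :=
          mul_le_mul_of_nonneg_left (log_le_sqrt hn1) (Nat.cast_nonneg _)
      _ = (4 * (W : ℝ)) * Real.sqrt n := by ring
      _ ≤ Real.sqrt n * Real.sqrt n := mul_le_mul_of_nonneg_right h5 (Real.sqrt_nonneg _)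
      _ = n := Real.mul_self_sqrt hn0.le
  have hlog : 0 ≤ Real.log (1 + (n : ℝ)) := Real.log_nonneg (by linarith)
  have h7 : (((rest k F).card : ℝ) * Real.log (1 + (n : ℝ))) * n ≤ (n.choose k : ℝ) * n := by
    calc (((rest k F).card : ℝ) * Real.log (1 + (n : ℝ))) * n =
        (((rest k F).card : ℝ) * n) * Real.log (1 + (n : ℝ)) := by ring
      _ ≤ ((W : ℝ) * (n.choose k : ℝ)) * Real.log (1 + (n : ℝ)) :=
        mul_le_mul_of_nonneg_right h4 hlog
      _ = (n.choose k : ℝ) * ((W : ℝ) * Real.log (1 + (n : ℝ))) := by ring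
      _ ≤ (n.choose k : ℝ) * n := mul_le_mul_of_nonneg_left h6 (Nat.cast_nonneg _)
  exact le_of_mul_le_mul_right h7 hn0

theorem lg_le_log (k : ℕ) (F : Finset (Finset (Fin n))) (T : Finset (Fin n)) :
    D2.lg k F T ≤ Real.log (1 + (n : ℝ)) := by
  unfold D2.lg
  apply Real.log_le_log (by positivity)
  have h := Finset.card_le_univ (CF k F T)
  rw [Fintype.card_fin] at h
  have : ((CF k F T).card : ℝ) ≤ n := by exact_mod_cast h
  linarith

open Classical in
/-- splitting the sum over all `T` for one family -/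
theorem split_one (k : ℕ) (F : Finset (Finset (Fin n))) :
    ∑ T ∈ sets n k, D2.lg k F T ≤
      ∑ T ∈ (sets n k).filter (fun T => ¬ Cov k F T), ((CF k F T).card : ℝ) +
      ((rest k F).card : ℝ) * Real.log (1 + (n : ℝ)) +
      ∑ Y ∈ rmem k F, ∑ y ∈ Y, D2.lg k F (Y.erase y) := by
  have h0 := Finset.sum_filter_add_sum_filter_not (sets n k) (fun T => Cov k F T) (D2.lg k F)
  have h1 : ∑ T ∈ (sets n k).filter (fun T => ¬ Cov k F T), D2.lg k F T ≤
      ∑ T ∈ (sets n k).filter (fun T => ¬ Cov k F T), ((CF k F T).card : ℝ) :=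
    Finset.sum_le_sum fun T _ => D2.lg_le k F T
  have h2 : ∑ T ∈ (sets n k).filter (fun T => Cov k F T), D2.lg k F T ≤
      ∑ T ∈ rest k F, D2.lg k F T + ∑ Y ∈ rmem k F, ∑ y ∈ Y, D2.lg k F (Y.erase y) := by
    have hsub : (sets n k).filter (fun T => Cov k F T) ⊆
        rest k F ∪ ((rmem k F).sigma (fun Y => Y)).image (fun p => p.1.erase p.2) := by
      intro T hT
      rw [mem_filter] at hT
      rw [mem_union]
      by_cases hr : T ∈ rest k F
      · exact Or.inl hr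
      · right
        obtain ⟨Y, hY, y, hy, hyT⟩ := D2.cov_cases hT.1 hT.2 hr
        rw [mem_image]
        exact ⟨⟨Y, y⟩, mem_sigma.2 ⟨hY, hy⟩, hyT⟩
    calc ∑ T ∈ (sets n k).filter (fun T => Cov k F T), D2.lg k F T
        ≤ ∑ T ∈ rest k F ∪ ((rmem k F).sigma (fun Y => Y)).image (fun p => p.1.erase p.2),
            D2.lg k F T :=
          Finset.sum_le_sum_of_subset_of_nonneg hsub fun T _ _ => D2.lg_nonneg k F T
      _ ≤ ∑ T ∈ rest k F, D2.lg k F T +
            ∑ T ∈ ((rmem k F).sigma (fun Y => Y)).image (fun p => p.1.erase p.2), D2.lg k F T := by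
          rw [← Finset.sum_union_inter]
          have : 0 ≤ ∑ T ∈ rest k F ∩ ((rmem k F).sigma (fun Y => Y)).image
              (fun p => p.1.erase p.2), D2.lg k F T :=
            Finset.sum_nonneg fun T _ => D2.lg_nonneg k F T
          linarith
      _ ≤ ∑ T ∈ rest k F, D2.lg k F T + ∑ Y ∈ rmem k F, ∑ y ∈ Y, D2.lg k F (Y.erase y) := by
          have h3 : ∑ T ∈ ((rmem k F).sigma (fun Y => Y)).image (fun p => p.1.erase p.2),
              D2.lg k F T ≤ ∑ p ∈ (rmem k F).sigma (fun Y => Y), D2.lg k F (p.1.erase p.2) :=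
            Finset.sum_image_le_of_nonneg fun p _ => D2.lg_nonneg k F _
          rw [Finset.sum_sigma] at h3
          linarith
  have h3 : ∑ T ∈ rest k F, D2.lg k F T ≤ ((rest k F).card : ℝ) * Real.log (1 + (n : ℝ)) := by
    calc ∑ T ∈ rest k F, D2.lg k F T ≤ ∑ T ∈ rest k F, Real.log (1 + (n : ℝ)) :=
          Finset.sum_le_sum fun T _ => lg_le_log k F T
      _ = ((rest k F).card : ℝ) * Real.log (1 + (n : ℝ)) := by
          rw [Finset.sum_const, nsmul_eq_mul]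
  linarith

end UA

open UA in
theorem uall {k n t : ℕ} (hk : 2 ≤ k) (hn : BigN k n) (ht : t ≤ 6 * n) :
    ∑ F ∈ FF n k t, ∑ T ∈ sets n k, lw k F T ≤
      ((FF n k t).card : ℝ) * (n.choose k : ℝ) *
        (Real.log n / (k + 1) + (Real.log (KK k) + Real.log (k + 1) + 3)) := by
  classical
  have hn1 : 1 ≤ n := le_trans (Nat.one_le_pow _ _ (by omega)) hn
  have h1 := ucov n k t hk hn1
  have h2 := unc n k t hk
  have h2' : ∑ F ∈ FF n k t, ∑ T ∈ (sets n k).filter (fun T => ¬ Cov k F T),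
      ((CF k F T).card : ℝ) ≤ (n.choose k : ℝ) * ((FF n k t).card : ℝ) := by
    exact_mod_cast h2
  have h3 : ∀ F ∈ FF n k t, ∑ T ∈ sets n k, lw k F T ≤
      (n.choose k : ℝ) * Real.log (KK k) +
      (∑ T ∈ (sets n k).filter (fun T => ¬ Cov k F T), ((CF k F T).card : ℝ) +
      (n.choose k : ℝ) +
      ∑ Y ∈ rmem k F, ∑ y ∈ Y, Real.log (1 + ((CF k F (Y.erase y)).card : ℝ))) := by
    intro F hF
    have h4 : ∑ T ∈ sets n k, lw k F T ≤ ∑ T ∈ sets n k, (Real.log (KK k) + D2.lg k F T) :=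
      Finset.sum_le_sum fun T _ => D2.lw_le k F T
    rw [Finset.sum_add_distrib, Finset.sum_const, D2.sets_card, nsmul_eq_mul] at h4
    have h5 := split_one k F
    have h6 := rest_bound hk hn ht hF
    unfold D2.lg at h4 h5
    linarith
  refine (Finset.sum_le_sum h3).trans ?_
  rw [Finset.sum_add_distrib, Finset.sum_add_distrib, Finset.sum_add_distrib, Finset.sum_const,
    Finset.sum_const, nsmul_eq_mul, nsmul_eq_mul]
  have e : ((FF n k t).card : ℝ) * (n.choose k : ℝ) *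
        (Real.log n / (k + 1) + (Real.log (KK k) + Real.log (k + 1) + 3)) =
      ((FF n k t).card : ℝ) * ((n.choose k : ℝ) * Real.log (KK k)) +
      ((n.choose k : ℝ) * ((FF n k t).card : ℝ) +
      ((FF n k t).card : ℝ) * (n.choose k : ℝ) +
      ((FF n k t).card : ℝ) * (n.choose k : ℝ) *
        (Real.log n / (k + 1) + Real.log (k + 1) + 1)) := by ring
  rw [e]
  linarith

end Pool.Agent.FCR
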