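import Pool.Agent.FCR.Key
import Pool.Agent.FCR.Unc

/-!
MP_039b14_co, small corank: the logarithms over the `k`-sets covered by a circuit with `k + 1`
elements, with an explicit constant.
-/

set_option autoImplicit false

namespace Pool.Agent.FCR

open Finset

variable {n : ℕ}

/-- `n` is large compared with `k` -/
def BigN (k n : ℕ) : Prop := (k + 2) ^ (60 * (k + 2)) ≤ n

private theorem ulog_le_aux {x y : ℝ} (hx : 0 < x) (hy : 0 < y) :
    Real.log x ≤ Real.log y + x / y := by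
  have h1 : Real.log (x / y) ≤ x / y - 1 := Real.log_le_sub_one_of_pos (div_pos hx hy)
  rw [Real.log_div hx.ne' hy.ne'] at h1
  linarith

private theorem uchoose_aux (n k : ℕ) : n.choose (k + 1) ≤ n.choose k * n := by
  have h1 := Nat.choose_succ_right_eq n k
  have h2 : n.choose (k + 1) ≤ n.choose (k + 1) * (k + 1) := Nat.le_mul_of_pos_right _ (Nat.succ_pos k)
  refine h2.trans (h1.le.trans ?_)
  exact Nat.mul_le_mul_left _ (Nat.sub_le n k)

theorem ucov (n k t : ℕ) (hk : 2 ≤ k) (hn : 1 ≤ n) :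
    ∑ F ∈ FF n k t, ∑ Y ∈ rmem k F, ∑ y ∈ Y,
      Real.log (1 + ((CF k F (Y.erase y)).card : ℝ)) ≤
      ((FF n k t).card : ℝ) * (n.choose k : ℝ) *
        (Real.log n / (k + 1) + Real.log (k + 1) + 1) := by
  have hn0 : (0 : ℝ) < n := by exact_mod_cast hn
  have hlog : 0 ≤ Real.log (n : ℝ) := Real.log_nonneg (by exact_mod_cast hn)
  have hk0 : (0 : ℝ) < (k : ℝ) + 1 := by positivity
  obtain ⟨m, hm⟩ : ∃ m : ℝ, m = ((k : ℝ) + 1) ^ (k + 1) := ⟨_, rfl⟩
  have hm0 : 0 < m := by rw [hm]; positivity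
  have hlogm : Real.log m = (k + 1) * Real.log (k + 1) := by
    rw [hm, Real.log_pow]
    push_cast
    ring
  have hlogk : 0 ≤ Real.log ((k : ℝ) + 1) := Real.log_nonneg (by
    have : (0 : ℝ) ≤ k := Nat.cast_nonneg _
    linarith)
  have hnm : 0 < (n : ℝ) * m := mul_pos hn0 hm0
  have hlognm : Real.log ((n : ℝ) * m) = Real.log n + (k + 1) * Real.log (k + 1) := by
    rw [Real.log_mul hn0.ne' hm0.ne', hlogm]
  have h1 : ∀ F ∈ FF n k t, ∀ Y ∈ rmem k F, ∑ y ∈ Y, Real.log (1 + ((CF k F (Y.erase y)).card : ℝ)) ≤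
      Real.log (n * m) +
        ((∏ y ∈ Y, (1 + (CF k F (Y.erase y)).card) : ℕ) : ℝ) / (n * m) := by
    intro F _ Y _
    have h2 : ∏ y ∈ Y, (1 + ((CF k F (Y.erase y)).card : ℝ)) =
        ((∏ y ∈ Y, (1 + (CF k F (Y.erase y)).card) : ℕ) : ℝ) := by
      push_cast
      rfl
    have h3 : (0 : ℝ) < ∏ y ∈ Y, (1 + ((CF k F (Y.erase y)).card : ℝ)) :=
      prod_pos fun y _ => by positivity
    rw [← Real.log_prod (fun y _ => by positivity), ← h2]
    exact ulog_le_aux h3 hnm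
  have h4 : ∑ F ∈ FF n k t, ∑ Y ∈ rmem k F, ∑ y ∈ Y, Real.log (1 + ((CF k F (Y.erase y)).card : ℝ)) ≤
      ∑ F ∈ FF n k t, ∑ Y ∈ rmem k F,
        (Real.log (n * m) +
          ((∏ y ∈ Y, (1 + (CF k F (Y.erase y)).card) : ℕ) : ℝ) / (n * m)) :=
    sum_le_sum fun F hF => sum_le_sum fun Y hY => h1 F hF Y hY
  have h5 : ∑ F ∈ FF n k t, ∑ Y ∈ rmem k F,
        (Real.log (n * m) + ((∏ y ∈ Y, (1 + (CF k F (Y.erase y)).card) : ℕ) : ℝ) / (n * m)) =
      ∑ F ∈ FF n k t, ((rmem k F).card : ℝ) * Real.log (n * m) +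
        ((∑ F ∈ FF n k t, ∑ Y ∈ rmem k F, ∏ y ∈ Y, (1 + (CF k F (Y.erase y)).card) : ℕ) : ℝ) /
          (n * m) := by
    push_cast
    rw [sum_div, ← sum_add_distrib]
    refine sum_congr rfl fun F _ => ?_
    rw [sum_add_distrib, sum_const, nsmul_eq_mul, sum_div]
  have h6 : ∑ F ∈ FF n k t, ((rmem k F).card : ℝ) * Real.log (n * m) ≤
      ((FF n k t).card : ℝ) * (n.choose k : ℝ) *
        (Real.log n / (k + 1) + Real.log (k + 1)) := by
    have h7 : ∀ F ∈ FF n k t, ((rmem k F).card : ℝ) * Real.log (n * m) ≤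
        (n.choose k : ℝ) * (Real.log n / (k + 1) + Real.log (k + 1)) := by
      intro F hF
      have h8 : ((k : ℝ) + 1) * ((rmem k F).card : ℝ) ≤ (n.choose k : ℝ) := by exact_mod_cast rmem_le hF
      have h9 : Real.log n / (k + 1) + Real.log (k + 1) =
          (Real.log n + (k + 1) * Real.log (k + 1)) / (k + 1) := by
        field_simp
      rw [hlognm, h9, mul_div_assoc', le_div_iff₀ hk0]
      have h10 : 0 ≤ Real.log n + (k + 1) * Real.log ((k : ℝ) + 1) :=
        add_nonneg hlog (mul_nonneg hk0.le hlogk)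
      calc ((rmem k F).card : ℝ) * (Real.log n + (k + 1) * Real.log (k + 1)) * (k + 1) =
          (((k : ℝ) + 1) * ((rmem k F).card : ℝ)) *
            (Real.log n + (k + 1) * Real.log (k + 1)) := by ring
        _ ≤ (n.choose k : ℝ) * (Real.log n + (k + 1) * Real.log (k + 1)) :=
          mul_le_mul_of_nonneg_right h8 h10
    refine (sum_le_sum h7).trans (le_of_eq ?_)
    rw [sum_const, nsmul_eq_mul]
    ring
  have h10 : ((∑ F ∈ FF n k t, ∑ Y ∈ rmem k F, ∏ y ∈ Y, (1 + (CF k F (Y.erase y)).card) : ℕ) : ℝ) /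
      (n * m) ≤ ((FF n k t).card : ℝ) * (n.choose k : ℝ) * 1 := by
    rw [div_le_iff₀ hnm]
    have h11 := (key n k t hk).trans (Nat.mul_le_mul_left _ (Nat.mul_le_mul_right _ (uchoose_aux n k)))
    calc ((∑ F ∈ FF n k t, ∑ Y ∈ rmem k F, ∏ y ∈ Y, (1 + (CF k F (Y.erase y)).card) : ℕ) : ℝ) ≤
        (((k + 1) ^ (k + 1) * (n.choose k * n * (FF n k t).card) : ℕ) : ℝ) := by exact_mod_cast h11
      _ = _ := by
        rw [hm]
        push_cast
        ring
  calc _ ≤ _ := h4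
    _ = _ := h5
    _ ≤ _ := add_le_add h6 h10
    _ = _ := by ring

end Pool.Agent.FCR
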