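import Pool.Agent.FCR.UIter
import Pool.Agent.FCR.Lab

/-!
MP_039b14_co, fixed corank, uniform version: labelled matroids of rank `n - (k + 1)`.
-/

set_option autoImplicit false

namespace Pool.Agent.FCR

open Finset H38Pav

theorem ulab {k n : ℕ} (hk : 2 ≤ k) (hn : BigN k n) :
    0 < Nat.card {M : Mat n // M.1.eRank + ((k + 1 : ℕ) : ℕ∞) = n} ∧
    n ^ (2 * n) * Nat.card {M : Mat n // M.1.eRank + ((k + 1 : ℕ) : ℕ∞) = n ∧ ¬ HasMG M.1} ≤
      Nat.card {M : Mat n // M.1.eRank + ((k + 1 : ℕ) : ℕ∞) = n} := by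
  have hn2 : k + 3 ≤ n := by
    refine le_trans ?_ hn
    have h1 : (k + 2) ^ 2 ≤ (k + 2) ^ (60 * (k + 2)) :=
      Nat.pow_le_pow_right (by omega) (by omega)
    have h2 : k + 3 ≤ (k + 2) ^ 2 := by nlinarith
    omega
  refine ⟨?_, ?_⟩
  · rw [L43.lab_eq]
    refine lt_of_lt_of_le ?_ (ff_le_mat (t := 0) hk hn2)
    exact Finset.card_pos.2 ⟨∅, L43.empty_mem n k⟩
  · rw [L43.lab_eq]
    calc n ^ (2 * n) *
          Nat.card {M : Mat n // M.1.eRank + ((k + 1 : ℕ) : ℕ∞) = n ∧ ¬ HasMG M.1}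
        ≤ n ^ (2 * n) * ((n + 2) * (FF n k 0).card) :=
          Nat.mul_le_mul_left _ ((L43.lab_le n (k + 1)).trans (pav_le hk hn2))
      _ = n ^ (2 * n) * (n + 2) * (FF n k 0).card := by ring
      _ ≤ n ^ (3 * n) * (FF n k 0).card := Nat.mul_le_mul_right _ (L43.pow_le (by omega))
      _ ≤ (FF n k (6 * n)).card := uiter hk hn
      _ ≤ _ := ff_le_mat (t := 6 * n) hk hn2

end Pool.Agent.FCR
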