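import Pool.Agent.FCR.Fin
import Pool.Agent.FCR.ULab

/-!
MP_039b14_co, small corank: isomorphism classes.
-/

set_option autoImplicit false

namespace Pool.Agent.FCR

open Finset H38Pav

theorem ufinal (r n : ℕ) (hr : 3 ≤ r) (hn : (r + 1) ^ (60 * (r + 1)) ≤ n) :
    0 < Nat.card {c : Cls n // RC r c} ∧
    n ^ n * Nat.card {c : Cls n // RC r c ∧ ¬ c.HasMG} ≤ Nat.card {c : Cls n // RC r c} := by
  obtain ⟨k, rfl⟩ : ∃ k, r = k + 1 := ⟨r - 1, by omega⟩
  have hB : BigN k n := hn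
  have hn1 : 1 ≤ n := le_trans (Nat.one_le_pow _ _ (by omega)) hn
  obtain ⟨h1, h2⟩ := ulab (by omega) hB
  have h3 := cls_le_lab n (k + 1)
  have h4 := lab_le_cls n (k + 1)
  constructor
  · rcases Nat.eq_zero_or_pos (Nat.card {c : Cls n // RC (k + 1) c}) with h5 | h5
    · rw [h5, Nat.mul_zero] at h4
      omega
    · exact h5
  · have h5 : n.factorial ≤ n ^ n := Nat.factorial_le_pow n
    have hn0 : 0 < n ^ n := Nat.pow_pos (by omega)
    refine Nat.le_of_mul_le_mul_left ?_ hn0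
    calc n ^ n * (n ^ n * Nat.card {c : Cls n // RC (k + 1) c ∧ ¬ c.HasMG})
        = n ^ (2 * n) * Nat.card {c : Cls n // RC (k + 1) c ∧ ¬ c.HasMG} := by
          rw [two_mul, pow_add]; ring
      _ ≤ n ^ (2 * n) * Nat.card {M : Mat n // M.1.eRank + ((k + 1 : ℕ) : ℕ∞) = n ∧
            ¬ HasMG M.1} := Nat.mul_le_mul_left _ h3
      _ ≤ Nat.card {M : Mat n // M.1.eRank + ((k + 1 : ℕ) : ℕ∞) = n} := h2
      _ ≤ n.factorial * Nat.card {c : Cls n // RC (k + 1) c} := h4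
      _ ≤ n ^ n * Nat.card {c : Cls n // RC (k + 1) c} := Nat.mul_le_mul_right _ h5

end Pool.Agent.FCR
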