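import Pool.Agent.FCR.UJen

/-!
MP_039b14_co, fixed corank, uniform version: a switch multiplies the number of families by at
least the square root of `n`.
-/

set_option autoImplicit false

namespace Pool.Agent.FCR

open Finset

private theorem uchoose_lower {n k : ℕ} (hn : 2 * (k + 2) ≤ n) :
    Real.exp (((k : ℝ) + 2) * Real.log n) ≤
      (2 ^ (k + 2) * ((k + 2).factorial : ℝ)) * (n.choose (k + 2) : ℝ) := by
  have hn0 : (0 : ℝ) < n := by
    have : 0 < n := by omega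
    exact_mod_cast this
  have h1 : ((n + 1 - (k + 2) : ℕ) : ℝ) ^ (k + 2) ≤
      ((k + 2).factorial : ℝ) * (n.choose (k + 2) : ℝ) := by
    have h2 : (n + 1 - (k + 2)) ^ (k + 2) ≤ n.descFactorial (k + 2) :=
      Nat.pow_sub_le_descFactorial n (k + 2)
    rw [Nat.descFactorial_eq_factorial_mul_choose] at h2
    exact_mod_cast h2
  have h3 : (n : ℝ) / 2 ≤ ((n + 1 - (k + 2) : ℕ) : ℝ) := by
    rw [div_le_iff₀ (by norm_num)]
    have : n ≤ (n + 1 - (k + 2)) * 2 := by omega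
    exact_mod_cast this
  have h4 : ((n : ℝ) / 2) ^ (k + 2) ≤ ((n + 1 - (k + 2) : ℕ) : ℝ) ^ (k + 2) :=
    pow_le_pow_left₀ (by positivity) h3 _
  have h5 : Real.exp (((k : ℝ) + 2) * Real.log n) = (n : ℝ) ^ (k + 2) := by
    have e : ((k : ℝ) + 2) = ((k + 2 : ℕ) : ℝ) := by push_cast; ring
    rw [e, Real.exp_nat_mul, Real.exp_log hn0]
  rw [h5]
  have h6 : (n : ℝ) ^ (k + 2) = 2 ^ (k + 2) * ((n : ℝ) / 2) ^ (k + 2) := by
    rw [← mul_pow]
    congr 1
    ring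
  rw [h6, mul_assoc]
  exact mul_le_mul_of_nonneg_left (h4.trans h1) (by positivity)

/-- `log (k + 2) ≥ 1` -/
private theorem log_m {k : ℕ} (hk : 2 ≤ k) : 1 ≤ Real.log ((k : ℝ) + 2) := by
  have h2 : (4 : ℝ) ≤ (k : ℝ) + 2 := by
    have : (2 : ℝ) ≤ k := by exact_mod_cast hk
    linarith
  rw [Real.le_log_iff_exp_le (by linarith)]
  have := Real.exp_one_lt_d9
  linarith

/-- the constant of `ujen` -/
private theorem const_bound {k : ℕ} (hk : 2 ≤ k) :
    ((k + 2).choose 2 : ℝ) * (Real.log (KK k) + Real.log (k + 1) + 3) ≤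
      7 / 2 * (((k : ℝ) + 2) * ((k : ℝ) + 1) * Real.log ((k : ℝ) + 2)) := by
  have hk2 : (2 : ℝ) ≤ k := by exact_mod_cast hk
  have hl := log_m hk
  have h1 : Real.log (KK k) ≤ 3 * Real.log ((k : ℝ) + 2) := by
    have e : 3 * Real.log ((k : ℝ) + 2) = Real.log (((k : ℝ) + 2) ^ 3) := by
      rw [Real.log_pow]
      norm_num
    rw [e]
    apply Real.log_le_log
    · rw [KK]
      positivity
    · rw [KK]
      push_cast
      nlinarith [mul_nonneg (sub_nonneg.2 hk2) (sub_nonneg.2 hk2)]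
  have h2 : Real.log ((k : ℝ) + 1) ≤ Real.log ((k : ℝ) + 2) :=
    Real.log_le_log (by positivity) (by linarith)
  have h3 : ((k + 2).choose 2 : ℝ) = ((k : ℝ) + 2) * ((k : ℝ) + 1) / 2 := by
    rw [Nat.cast_choose_two]
    push_cast
    ring
  rw [h3]
  have h4 : Real.log (KK k) + Real.log (k + 1) + 3 ≤ 7 * Real.log ((k : ℝ) + 2) := by linarith
  calc ((k : ℝ) + 2) * ((k : ℝ) + 1) / 2 * (Real.log (KK k) + Real.log (k + 1) + 3) ≤
      ((k : ℝ) + 2) * ((k : ℝ) + 1) / 2 * (7 * Real.log ((k : ℝ) + 2)) :=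
        mul_le_mul_of_nonneg_left h4 (by positivity)
    _ = _ := by ring

/-- the factorial and the powers of two -/
private theorem den_bound {k : ℕ} (hk : 2 ≤ k) :
    70 / 9 * (2 ^ (k + 2) * ((k + 2).factorial : ℝ)) ≤
      Real.exp (2 * Real.log ((k : ℝ) + 2) + 2 * (((k : ℝ) + 2) * Real.log ((k : ℝ) + 2))) := by
  have hk2 : (2 : ℝ) ≤ k := by exact_mod_cast hk
  have hm0 : (0 : ℝ) < (k : ℝ) + 2 := by linarith
  have e1 : Real.exp (2 * Real.log ((k : ℝ) + 2)) = ((k : ℝ) + 2) ^ 2 := by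
    have : (2 : ℝ) = ((2 : ℕ) : ℝ) := by norm_num
    rw [show 2 * Real.log ((k : ℝ) + 2) = ((2 : ℕ) : ℝ) * Real.log ((k : ℝ) + 2) by norm_num,
      Real.exp_nat_mul, Real.exp_log hm0]
  have e2 : Real.exp (((k : ℝ) + 2) * Real.log ((k : ℝ) + 2)) = ((k : ℝ) + 2) ^ (k + 2) := by
    rw [show ((k : ℝ) + 2) * Real.log ((k : ℝ) + 2) = ((k + 2 : ℕ) : ℝ) * Real.log ((k : ℝ) + 2) by
      push_cast; ring, Real.exp_nat_mul, Real.exp_log hm0]
  have e3 : Real.exp (2 * (((k : ℝ) + 2) * Real.log ((k : ℝ) + 2))) =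
      ((k : ℝ) + 2) ^ (k + 2) * ((k : ℝ) + 2) ^ (k + 2) := by
    rw [two_mul, Real.exp_add, e2]
  rw [Real.exp_add, e1, e3]
  have f1 : (70 : ℝ) / 9 ≤ ((k : ℝ) + 2) ^ 2 := by nlinarith
  have f2 : (2 : ℝ) ^ (k + 2) ≤ ((k : ℝ) + 2) ^ (k + 2) :=
    pow_le_pow_left₀ (by norm_num) (by linarith) _
  have f3 : ((k + 2).factorial : ℝ) ≤ ((k : ℝ) + 2) ^ (k + 2) := by
    have := Nat.factorial_le_pow (k + 2)
    exact_mod_cast this
  exact mul_le_mul f1 (mul_le_mul f2 f3 (by positivity) (by positivity)) (by positivity)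
    (by positivity)

theorem ugain {k n t : ℕ} (hk : 2 ≤ k) (hn : BigN k n) (ht : t ≤ 6 * n) :
    n * (FF n k t).card ^ 2 ≤ (FF n k (t + 1)).card ^ 2 := by
  have hk2 : (2 : ℝ) ≤ k := by exact_mod_cast hk
  have hm4 : (4 : ℝ) ≤ (k : ℝ) + 2 := by linarith
  have hbig : (k + 2) ^ (60 * (k + 2)) ≤ n := hn
  have hn2 : 2 * (k + 2) ≤ n := by
    refine le_trans ?_ hbig
    calc 2 * (k + 2) ≤ (k + 2) * (k + 2) := Nat.mul_le_mul_right _ (by omega)
      _ = (k + 2) ^ 2 := by ring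
      _ ≤ _ := Nat.pow_le_pow_right (by omega) (by omega)
  have hnpos : 0 < n := by omega
  have hn0 : (0 : ℝ) < n := by exact_mod_cast hnpos
  obtain ⟨L, hL⟩ : ∃ L : ℝ, L = Real.log n := ⟨_, rfl⟩
  obtain ⟨l, hl⟩ : ∃ l : ℝ, l = Real.log ((k : ℝ) + 2) := ⟨_, rfl⟩
  obtain ⟨m, hm⟩ : ∃ m : ℝ, m = (k : ℝ) + 2 := ⟨_, rfl⟩
  have hl1 : 1 ≤ l := by rw [hl]; exact log_m hk
  have hexp : Real.exp L = n := by rw [hL, Real.exp_log hn0]
  -- `log n ≥ 60 m log m`
  have hLl : 60 * m * l ≤ L := by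
    rw [hL, Real.le_log_iff_exp_le hn0]
    have e : Real.exp (60 * m * l) = ((k : ℝ) + 2) ^ (60 * (k + 2)) := by
      rw [hm, hl, show 60 * ((k : ℝ) + 2) * Real.log ((k : ℝ) + 2) =
        ((60 * (k + 2) : ℕ) : ℝ) * Real.log ((k : ℝ) + 2) by push_cast; ring, Real.exp_nat_mul,
        Real.exp_log (by linarith)]
    rw [e]
    exact_mod_cast hbig
  obtain ⟨a, ha⟩ : ∃ a : ℝ, a = ((FF n k t).card : ℝ) := ⟨_, rfl⟩
  obtain ⟨b, hb⟩ : ∃ b : ℝ, b = ((FF n k (t + 1)).card : ℝ) := ⟨_, rfl⟩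
  have ha0 : 0 ≤ a := by rw [ha]; positivity
  have hb0 : 0 ≤ b := by rw [hb]; positivity
  obtain ⟨B, hB⟩ : ∃ B : ℝ, B = (n.choose (k + 2) : ℝ) := ⟨_, rfl⟩
  obtain ⟨D, hD⟩ : ∃ D : ℝ, D = 2 ^ (k + 2) * ((k + 2).factorial : ℝ) := ⟨_, rfl⟩
  obtain ⟨C, hC⟩ : ∃ C : ℝ, C = ((k + 2).choose 2 : ℝ) *
    (Real.log (KK k) + Real.log (k + 1) + 3) := ⟨_, rfl⟩
  have hB0 : 0 ≤ B := by rw [hB]; positivity
  have hD0 : 0 < D := by
    rw [hD]
    have : 0 < ((k + 2).factorial : ℝ) := by exact_mod_cast Nat.factorial_pos _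
    positivity
  have h1 := ujen hk hn ht
  rw [← ha, ← hb, ← hB, ← hL, ← hC, ← hm] at h1
  have hch := uchoose_lower hn2
  rw [← hD, ← hB, ← hL, ← hm] at hch
  have hden := den_bound hk
  rw [← hD, ← hl, ← hm] at hden
  have hCb := const_bound hk
  rw [← hC, ← hl, ← hm] at hCb
  have hk1 : (k : ℝ) + 1 = m - 1 := by rw [hm]; ring
  rw [hk1] at hCb
  rw [← hm] at hm4
  -- `t + 1 ≤ 7 n`
  have ht7 : ((t : ℝ) + 1) * b ≤ 7 * Real.exp L * b := by
    refine mul_le_mul_of_nonneg_right ?_ hb0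
    rw [hexp]
    have : t + 1 ≤ 7 * n := by omega
    exact_mod_cast this
  -- the exponents
  have hexq : 1 / 2 * L + L + (2 * l + 2 * (m * l)) ≤
      -((10 / 9) * (m / 2 * L + C)) + m * L := by
    have g1 : 5 / 72 * m ≤ 4 / 9 * m - 3 / 2 := by linarith
    have g2 : 0 ≤ L := by
      have : 0 ≤ 60 * m * l := by positivity
      linarith
    have g3 : 5 / 72 * m * L ≤ (4 / 9 * m - 3 / 2) * L := mul_le_mul_of_nonneg_right g1 g2
    have g4 : 5 / 72 * m * (60 * m * l) ≤ 5 / 72 * m * L :=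
      mul_le_mul_of_nonneg_left hLl (by positivity)
    have g5 : 0 ≤ (m - 4) * l := mul_nonneg (by linarith) (by linarith)
    have g6 : 0 ≤ m * (m * l) := by positivity
    nlinarith
  have hgoal : Real.exp (1 / 2 * L) * a ≤ b := by
    have hpos : 0 < 7 * Real.exp L := by positivity
    apply le_of_mul_le_mul_left _ hpos
    refine le_trans ?_ (h1.trans ht7)
    -- `7 D exp(L/2 + L) ≤ 9/10 exp(-...) exp(mL)`
    have k1 : 7 * D * (Real.exp L * Real.exp (1 / 2 * L)) ≤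
        9 / 10 * (Real.exp (-((10 / 9) * (m / 2 * L + C))) * Real.exp (m * L)) := by
      have k2 : 70 / 9 * D * (Real.exp L * Real.exp (1 / 2 * L)) ≤
          Real.exp (-((10 / 9) * (m / 2 * L + C))) * Real.exp (m * L) := by
        calc 70 / 9 * D * (Real.exp L * Real.exp (1 / 2 * L)) ≤
            Real.exp (2 * l + 2 * (m * l)) * (Real.exp L * Real.exp (1 / 2 * L)) :=
              mul_le_mul_of_nonneg_right hden (by positivity)
          _ = Real.exp (1 / 2 * L + L + (2 * l + 2 * (m * l))) := by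
              rw [← Real.exp_add, ← Real.exp_add]
              congr 1
              ring
          _ ≤ Real.exp (-((10 / 9) * (m / 2 * L + C)) + m * L) := Real.exp_le_exp.2 hexq
          _ = _ := Real.exp_add _ _
      linarith
    have k3 : 7 * D * (Real.exp L * Real.exp (1 / 2 * L)) ≤
        9 / 10 * (Real.exp (-((10 / 9) * (m / 2 * L + C))) * (D * B)) := by
      refine k1.trans ?_
      apply mul_le_mul_of_nonneg_left _ (by norm_num)
      exact mul_le_mul_of_nonneg_left hch (Real.exp_pos _).le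
    have k4 : 7 * (Real.exp L * Real.exp (1 / 2 * L)) ≤
        9 / 10 * (Real.exp (-((10 / 9) * (m / 2 * L + C))) * B) := by
      apply le_of_mul_le_mul_left _ hD0
      calc D * (7 * (Real.exp L * Real.exp (1 / 2 * L))) =
          7 * D * (Real.exp L * Real.exp (1 / 2 * L)) := by ring
        _ ≤ _ := k3
        _ = _ := by ring
    calc 7 * Real.exp L * (Real.exp (1 / 2 * L) * a) =
        7 * (Real.exp L * Real.exp (1 / 2 * L)) * a := by ring
      _ ≤ 9 / 10 * (Real.exp (-((10 / 9) * (m / 2 * L + C))) * B) * a :=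
          mul_le_mul_of_nonneg_right k4 ha0
      _ = _ := by ring
  have h4 : (Real.exp (1 / 2 * L) * a) ^ 2 ≤ b ^ 2 :=
    pow_le_pow_left₀ (by positivity) hgoal 2
  have h6 : (n : ℝ) * a ^ 2 ≤ b ^ 2 := by
    refine le_trans (le_of_eq ?_) h4
    have : Real.exp (1 / 2 * L) ^ 2 = Real.exp L := by
      rw [pow_two, ← Real.exp_add]
      congr 1
      ring
    rw [mul_pow, this, hexp]
  rw [ha, hb] at h6
  exact_mod_cast h6

end Pool.Agent.FCR
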